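import Pool.Agent.B595.Comp

open Set Filter Topology MeasureTheory

namespace B595

lemma eq_of_deriv_eq {f g f' : ℝ → ℝ} (h0 : f 0 = g 0)
    (hf : ∀ x, HasDerivAt f (f' x) x) (hg : ∀ x, HasDerivAt g (f' x) x) (x : ℝ) : f x = g x := by
  have h : ∀ x, HasDerivAt (fun x => f x - g x) 0 x := fun x =>
    ((hf x).sub (hg x)).congr_deriv (sub_self _)
  have := is_const_of_deriv_eq_zero (fun x => (h x).differentiableAt) (fun x => (h x).deriv) x 0
  simp only [h0, sub_self] at this
  linarith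

/-- primitive -/
noncomputable def pr (f : ℝ → ℝ) (s : ℝ) : ℝ := ∫ r in (0:ℝ)..s, f r

lemma pr_zero (f : ℝ → ℝ) : pr f 0 = 0 := intervalIntegral.integral_same

lemma hasDerivAt_pr {f : ℝ → ℝ} (hf : Continuous f) (x : ℝ) : HasDerivAt (pr f) (f x) x :=
  (hf.integral_hasStrictDerivAt 0 x).hasDerivAt

@[fun_prop]
lemma pr_cont {f : ℝ → ℝ} (hf : Continuous f) : Continuous (pr f) :=
  cont_prim hf 0

lemma pr_congr {f g : ℝ → ℝ} {s : ℝ} (hs : s ∈ Icc (0:ℝ) 1) (h : ∀ x ∈ Icc (0:ℝ) 1, f x = g x) :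
    pr f s = pr g s := by
  apply intervalIntegral.integral_congr
  intro x hx
  rw [uIcc_of_le hs.1] at hx
  exact h x ⟨hx.1, hx.2.trans hs.2⟩

lemma ext_G' (u : X) {s : ℝ} (hs : s ∈ Icc (0:ℝ) 1) : ext (G u) s = pr (pr (ext u)) s := by
  rw [ext_G u hs]
  have hc : Continuous (fun r => r * ext u r) := by fun_prop
  have := eq_of_deriv_eq (f := fun x => x * pr (ext u) x - pr (fun r => r * ext u r) x)
    (g := pr (pr (ext u))) (f' := pr (ext u)) (by simp [pr_zero])
    (fun x => by
      have h1 := ((hasDerivAt_id x).mul (hasDerivAt_pr (ext_cont u) x)).sub (hasDerivAt_pr hc x)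
      refine h1.congr_deriv ?_
      simp) (fun x => hasDerivAt_pr (pr_cont (ext_cont u)) x) s
  exact this

lemma ext_a' (u : X) {s : ℝ} (hs : s ∈ Icc (0:ℝ) 1) :
    ext (a u) s = 1/2 * pr (fun r => (1 - r) * ext u r) s := ext_a u hs

lemma comm_aG (u : X) : a (G u) = G (a u) - G (G u) := by
  apply X_ext
  intro s hs
  rw [ext_sub, ext_a' _ hs, ext_G' _ hs, ext_G' _ hs]
  set U := ext u with hU
  have hUc : Continuous U := ext_cont u
  have hUc' : Continuous (fun r => (1 - r) * U r) := by fun_prop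
  have e1 : pr (fun r => (1 - r) * ext (G u) r) s = pr (fun r => (1 - r) * pr (pr U) r) s :=
    pr_congr hs fun x hx => by rw [ext_G' _ hx]
  have e2 : pr (pr (ext (a u))) s = pr (pr (fun r => 1/2 * pr (fun r => (1 - r) * U r) r)) s :=
    pr_congr hs fun x hx => pr_congr hx fun y hy => by rw [ext_a' _ hy]
  have e3 : pr (pr (ext (G u))) s = pr (pr (pr (pr U))) s :=
    pr_congr hs fun x hx => pr_congr hx fun y hy => by rw [ext_G' _ hy]
  rw [e1, e2, e3]
  have hc1 : Continuous (fun r => (1/2 : ℝ) * pr (fun r => (1 - r) * U r) r) := by fun_prop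
  have hc2 : Continuous (fun r => (1 - r) * pr (pr U) r) := by fun_prop
  -- step 0: (1-x) pr U + pr pr U = pr ((1-r)U)
  have s0 : ∀ x, (1 - x) * pr U x + pr (pr U) x = pr (fun r => (1 - r) * U r) x := by
    apply eq_of_deriv_eq (f' := fun x => (1 - x) * U x)
    · simp [pr_zero]
    · intro x
      have h1 := ((((hasDerivAt_id x).const_sub 1).mul (hasDerivAt_pr hUc x))).add
        (hasDerivAt_pr (pr_cont hUc) x)
      refine h1.congr_deriv ?_
      simp
    · intro x; exact hasDerivAt_pr hUc' x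
  -- step 1
  have s1 : ∀ x, 1/2 * ((1 - x) * pr (pr U) x) =
      pr (fun r => 1/2 * pr (fun r => (1 - r) * U r) r) x - pr (pr (pr U)) x := by
    apply eq_of_deriv_eq (f' := fun x => 1/2 * pr (fun r => (1 - r) * U r) x - pr (pr U) x)
    · simp [pr_zero]
    · intro x
      have h1 := (((((hasDerivAt_id x).const_sub 1).mul (hasDerivAt_pr (pr_cont hUc) x)))).const_mul (1/2:ℝ)
      refine h1.congr_deriv ?_
      rw [← s0]
      simp
      ring
    · intro x
      exact (hasDerivAt_pr hc1 x).sub (hasDerivAt_pr (pr_cont (pr_cont hUc)) x)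
  have s2 : ∀ x, 1/2 * pr (fun r => (1 - r) * pr (pr U) r) x =
      pr (pr (fun r => 1/2 * pr (fun r => (1 - r) * U r) r)) x - pr (pr (pr (pr U))) x := by
    apply eq_of_deriv_eq (f' := fun x => 1/2 * ((1 - x) * pr (pr U) x))
    · simp [pr_zero]
    · intro x
      exact (hasDerivAt_pr hc2 x).const_mul _
    · intro x
      have h1 := (hasDerivAt_pr (pr_cont hc1) x).sub
        (hasDerivAt_pr (pr_cont (pr_cont (pr_cont hUc))) x)
      refine h1.congr_deriv ?_
      rw [s1]
  exact s2 s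

lemma comm_aG' : a * G = G * a - G * G := by
  ext u : 1
  exact comm_aG u

lemma comm_pow (n : ℕ) : a^(n+1) * G = G * a^(n+1) - ((n:ℝ)+1) • (G * a^n * G) := by
  induction n with
  | zero => simp [comm_aG']
  | succ n ih =>
    have h1 : G * (G * a^(n+1)) = G * a^(n+1) * G + ((n:ℝ)+1) • (G * (G * a^n * G)) := by
      have : G * (a^(n+1) * G) = G * (G * a^(n+1)) - ((n:ℝ)+1) • (G * (G * a^n * G)) := by
        rw [ih, mul_sub, mul_smul_comm]
      rw [← mul_assoc] at this
      rw [this]; abel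
    calc a^(n+1+1) * G = a * (a^(n+1) * G) := by rw [pow_succ' a (n+1), mul_assoc]
      _ = a * (G * a^(n+1)) - ((n:ℝ)+1) • (a * (G * a^n * G)) := by
          rw [ih, mul_sub, mul_smul_comm]
      _ = (a * G) * a^(n+1) - ((n:ℝ)+1) • ((a * G) * a^n * G) := by
          simp only [mul_assoc]
      _ = G * a^(n+1+1) - G * (G * a^(n+1)) - ((n:ℝ)+1) • (G * a^(n+1) * G)
          + ((n:ℝ)+1) • (G * (G * a^n * G)) := by
          rw [comm_aG', sub_mul, sub_mul, sub_mul, smul_sub]
          have e1 : G * a * a^(n+1) = G * a^(n+1+1) := by rw [mul_assoc, ← pow_succ']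
          have e2 : G * a * a^n * G = G * a^(n+1) * G := by rw [mul_assoc G a, ← pow_succ']
          have e3 : G * G * a^(n+1) = G * (G * a^(n+1)) := mul_assoc _ _ _
          have e4 : G * G * a^n * G = G * (G * a^n * G) := by simp only [mul_assoc]
          rw [e1, e2, e3, e4]; abel
      _ = G * a^(n+1+1) - (((n+1:ℕ):ℝ)+1) • (G * a^(n+1) * G) := by
          rw [h1]; push_cast
          module

lemma exp_comm (c : ℝ) (u : X) :
    NormedSpace.exp ((-c) • a) (G u) =
      G (NormedSpace.exp ((-c) • a) u) + c • G (NormedSpace.exp ((-c) • a) (G u)) := by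
  have h1 := hasSum_exp_apply ((-c) • a) (G u)
  have h2 := (hasSum_exp_apply ((-c) • a) u).mapL G
  have h3 := ((hasSum_exp_apply ((-c) • a) (G u)).mapL G).const_smul c
  have h12 := h1.sub h2
  rw [← hasSum_nat_add_iff' 1] at h12
  simp only [Finset.range_one, Finset.sum_singleton] at h12
  have e : (fun n : ℕ => (((n+1).factorial:ℝ)⁻¹) • ((((-c) • a)^(n+1)) (G u))
      - G ((((n+1).factorial:ℝ)⁻¹) • ((((-c) • a)^(n+1)) u))) =
      fun n : ℕ => c • G (((n.factorial:ℝ)⁻¹) • ((((-c) • a)^n) (G u))) := by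
    funext n
    simp only [smul_pow, smul_apply, map_smul]
    have hk : (a^(n+1)) (G u) = G ((a^(n+1)) u) - ((n:ℝ)+1) • (G ((a^n) (G u))) := by
      have := congrArg (fun T : X →L[ℝ] X => T u) (comm_pow n)
      simpa [mul_apply_eq_comp] using this
    rw [hk, Nat.factorial_succ]
    have : (n.factorial : ℝ) ≠ 0 := by positivity
    have h5 : ((n:ℝ)+1) ≠ 0 := by positivity
    have h6 : (((n + 1) * n.factorial : ℕ) : ℝ)⁻¹ = ((n:ℝ)+1)⁻¹ * (n.factorial:ℝ)⁻¹ := by
      push_cast; rw [mul_inv]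
    rw [h6, smul_sub, smul_sub, sub_sub_cancel_left, smul_smul, smul_smul, smul_smul, smul_smul,
      ← neg_smul]
    congr 1
    field_simp
    ring
  rw [e] at h12
  have h0 : ((Nat.factorial 0 : ℝ)⁻¹) • ((((-c) • a)^0) (G u))
      - G (((Nat.factorial 0 : ℝ)⁻¹) • ((((-c) • a)^0) u)) = 0 := by simp
  rw [h0, sub_zero] at h12
  have := h12.unique h3
  rw [← this]; abel

end B595
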