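import Pool.Agent.B595.Bk

open Set Filter Topology MeasureTheory

namespace B595

/-- `φ_k(s) = 1 - cos(kπs)` -/
noncomputable def phi (k : ℕ) : X := one - cosk k

lemma ext_phi (k : ℕ) {s : ℝ} (hs : s ∈ Icc (0:ℝ) 1) :
    ext (phi k) s = 1 - Real.cos (k * Real.pi * s) := by
  rw [phi, ext_sub, ext_one, ext_cosk k hs]

/-- `B_k = exp(-c a) φ_k` -/
noncomputable def B (c : ℝ) (k : ℕ) : X := NormedSpace.exp ((-c) • a) (phi k)

lemma phi_eq_G (k : ℕ) : phi k = ((k * Real.pi)^2) • G (cosk k) := by
  apply X_ext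
  intro s hs
  rw [ext_phi k hs, ext_smul, ext_G' _ hs]
  have hcc : Continuous (fun s => Real.cos (k * Real.pi * s)) := by fun_prop
  have e : pr (pr (ext (cosk k))) s = pr (pr (fun s => Real.cos (k * Real.pi * s))) s :=
    pr_congr hs fun x hx => pr_congr hx fun y hy => ext_cosk k hy
  rw [e]
  set w : ℝ := k * Real.pi with hw
  have s1 : ∀ x, Real.sin (w * x) = w * pr (fun s => Real.cos (w * s)) x := by
    apply eq_of_deriv_eq (f' := fun x => w * Real.cos (w * x))
    · simp [pr_zero]
    · intro x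
      have h1 : HasDerivAt (fun r => w * r) (w * 1) x := (hasDerivAt_id x).const_mul _
      refine h1.sin.congr_deriv ?_
      ring
    · intro x
      exact (hasDerivAt_pr hcc x).const_mul _
  have s2 : ∀ x, 1 - Real.cos (w * x) = w^2 * pr (pr (fun s => Real.cos (w * s))) x := by
    apply eq_of_deriv_eq (f' := fun x => w * Real.sin (w * x))
    · simp [pr_zero]
    · intro x
      have h1 : HasDerivAt (fun r => w * r) (w * 1) x := (hasDerivAt_id x).const_mul _
      refine (h1.cos.const_sub 1).congr_deriv ?_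
      ring
    · intro x
      refine ((hasDerivAt_pr (pr_cont hcc) x).const_mul _).congr_deriv ?_
      rw [s1]; ring
  exact s2 s

/-- `F = k²π² E - λ² B` -/
noncomputable def F (c : ℝ) (k : ℕ) : X :=
  ((k * Real.pi)^2) • E c - ((k * Real.pi)^2 - c) • B c k

lemma B_eq_G (c : ℝ) (k : ℕ) : B c k = G (F c k) := by
  have h1 : B c k = ((k * Real.pi)^2) • NormedSpace.exp ((-c) • a) (G (cosk k)) := by
    unfold B
    conv_lhs => rw [phi_eq_G k]
    rw [map_smul]
  have h2 : NormedSpace.exp ((-c) • a) (cosk k) = E c - B c k := by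
    unfold E B phi
    rw [map_sub]; abel
  rw [exp_comm, h2, smul_add] at h1
  have h3 : ((k * Real.pi)^2) • (c • G (NormedSpace.exp ((-c) • a) (G (cosk k)))) = c • G (B c k) := by
    unfold B
    rw [phi_eq_G k, map_smul, map_smul, smul_comm]
  rw [h3] at h1
  calc B c k = ((k * Real.pi)^2) • G (E c - B c k) + c • G (B c k) := h1
    _ = G (F c k) := by
      unfold F
      rw [← map_smul, ← map_smul, ← map_add]
      congr 1
      module

lemma one_eq_Cmap : one = Cmap 0 := by
  apply X_ext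
  intro s hs
  rw [ext_one, ext_Cmap _ hs]
  simp

lemma P_one_exp {c : ℝ} (hc : 0 ≤ c) (w : X) :
    P one (NormedSpace.exp ((-c) • a) w) = P (Cmap c) w := by
  rw [← P_exp, one_eq_Cmap, evolve_neg (le_refl _) hc, zero_add]

lemma P_one_E {c : ℝ} (hc : 0 < c) : P one (E c) = Real.sin √c / √c := by
  have h0 : √c ≠ 0 := Real.sqrt_ne_zero'.2 hc
  unfold E
  rw [P_one_exp hc.le]
  have := integral_cos_aux (w := √c) (s := 0) h0
  simp only [sub_zero, mul_one] at this
  rw [← this]
  unfold P
  apply intervalIntegral.integral_congr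
  intro s hs
  rw [uIcc_of_le zero_le_one] at hs
  simp only [ext_one, mul_one, ext_Cmap c hs]

lemma P_Cmap_cosk {c : ℝ} (hc : 0 < c) (k : ℕ) (hk : (k * Real.pi)^2 - c ≠ 0) :
    P (Cmap c) (cosk k) = -(√c * Real.sin √c) / ((k * Real.pi)^2 - c) := by
  set b := √c with hb
  have hb2 : b^2 = c := Real.sq_sqrt hc.le
  set w : ℝ := k * Real.pi with hw
  have hd : ∀ s ∈ uIcc (0:ℝ) 1, HasDerivAt
      (fun s => (b * (Real.sin (b * (1 - s)) * Real.cos (w * s))
        + w * (Real.cos (b * (1 - s)) * Real.sin (w * s))) / (w^2 - c))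
      (Real.cos (b * (1 - s)) * Real.cos (w * s)) s := by
    intro s _
    have h1 : HasDerivAt (fun r => b * (1 - r)) (b * (-1)) s :=
      ((hasDerivAt_id s).const_sub 1).const_mul b
    have h2 : HasDerivAt (fun r => w * r) (w * 1) s := (hasDerivAt_id s).const_mul _
    have h3 := (((h1.sin.mul h2.cos).const_mul b).add ((h1.cos.mul h2.sin).const_mul w)).div_const (w^2 - c)
    refine h3.congr_deriv ?_
    rw [div_eq_iff hk, ← hb2]
    ring
  have h := intervalIntegral.integral_eq_sub_of_hasDerivAt hd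
    (Continuous.intervalIntegrable (by fun_prop) _ _)
  have hsin : Real.sin w = 0 := by rw [hw]; exact Real.sin_nat_mul_pi k
  have e : P (Cmap c) (cosk k) = ∫ s in (0:ℝ)..1, Real.cos (b * (1 - s)) * Real.cos (w * s) := by
    unfold P
    apply intervalIntegral.integral_congr
    intro s hs
    rw [uIcc_of_le zero_le_one] at hs
    simp only [ext_Cmap c hs, ext_cosk k hs, hb, hw]
  rw [e, h]
  simp [hsin]
  ring

lemma P_one_F {c : ℝ} (hc : 0 < c) (k : ℕ) (hk : (k * Real.pi)^2 - c ≠ 0) :
    P one (F c k) = 0 := by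
  have h0 : √c ≠ 0 := Real.sqrt_ne_zero'.2 hc
  have hb2 : √c * √c = c := Real.mul_self_sqrt hc.le
  have h1 : P one (B c k) = Real.sin √c / √c + (√c * Real.sin √c) / ((k * Real.pi)^2 - c) := by
    unfold B
    rw [P_one_exp hc.le, phi, P_sub_right, P_Cmap_cosk hc k hk]
    have := P_one_E hc
    unfold E at this
    rw [P_one_exp hc.le] at this
    rw [this]; ring
  unfold F
  rw [P_sub_right, P_smul_right, P_smul_right, P_one_E hc, h1]
  generalize (k * Real.pi)^2 = q at hk ⊢
  field_simp
  rw [show √c ^ 2 = c by rw [sq]; exact hb2]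
  ring

end B595
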