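import Pool.Agent.B595.Lower

open Set Filter Topology MeasureTheory

namespace B595

/-- `cos(kπs)` -/
noncomputable def cosk (k : ℕ) : X := mk (fun s => Real.cos (k * Real.pi * s)) (by fun_prop)

lemma ext_cosk (k : ℕ) {s : ℝ} (hs : s ∈ Icc (0:ℝ) 1) :
    ext (cosk k) s = Real.cos (k * Real.pi * s) := ext_mk _ _ hs

lemma complete_aux (u : X) (h : ∀ k : ℕ, P u (cosk k) = 0) (n : ℕ) :
    ∀ k : ℕ, ∫ s in (0:ℝ)..1, ext u s * (Real.cos (Real.pi * s))^n * Real.cos (k * Real.pi * s) = 0 := by
  induction n with
  | zero =>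
    intro k
    have := h k
    unfold P at this
    refine Eq.trans ?_ this
    apply intervalIntegral.integral_congr
    intro s hs
    rw [uIcc_of_le zero_le_one] at hs
    simp only [ext_cosk k hs, pow_zero, mul_one]
  | succ n ih =>
    intro k
    rcases k with _ | j
    · have := ih 1
      rw [← this]
      congr 1
      funext s
      simp only [Nat.cast_zero, zero_mul, Real.cos_zero, mul_one, Nat.cast_one, one_mul]
      ring
    · have h1 := ih (j+2)
      have h2 := ih j
      have h3 : ∫ s in (0:ℝ)..1, (ext u s * (Real.cos (Real.pi * s))^n * Real.cos (((j+2 : ℕ) : ℝ) * Real.pi * s)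
          + ext u s * (Real.cos (Real.pi * s))^n * Real.cos ((j : ℝ) * Real.pi * s)) = 0 := by
        rw [intervalIntegral.integral_add, h1, h2, add_zero]
        · exact Continuous.intervalIntegrable (by fun_prop) _ _
        · exact Continuous.intervalIntegrable (by fun_prop) _ _
      have h4 : ∫ s in (0:ℝ)..1, 2 * (ext u s * (Real.cos (Real.pi * s))^(n+1)
          * Real.cos (((j+1 : ℕ) : ℝ) * Real.pi * s)) = 0 := by
        rw [← h3]
        congr 1
        funext s
        have e1 : Real.cos (((j+2 : ℕ) : ℝ) * Real.pi * s) =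
            Real.cos (((j+1 : ℕ) : ℝ) * Real.pi * s) * Real.cos (Real.pi * s)
            - Real.sin (((j+1 : ℕ) : ℝ) * Real.pi * s) * Real.sin (Real.pi * s) := by
          rw [← Real.cos_add]; congr 1; push_cast; ring
        have e2 : Real.cos ((j : ℝ) * Real.pi * s) =
            Real.cos (((j+1 : ℕ) : ℝ) * Real.pi * s) * Real.cos (Real.pi * s)
            + Real.sin (((j+1 : ℕ) : ℝ) * Real.pi * s) * Real.sin (Real.pi * s) := by
          rw [← Real.cos_sub]; congr 1; push_cast; ring
        rw [e1, e2]; ring
      rw [intervalIntegral.integral_const_mul] at h4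
      simpa using h4

lemma complete_poly (u : X) (h : ∀ k : ℕ, P u (cosk k) = 0) (p : Polynomial ℝ) :
    ∫ s in (0:ℝ)..1, ext u s * p.eval (Real.cos (Real.pi * s)) = 0 := by
  induction p using Polynomial.induction_on' with
  | add p q hp hq =>
    have : ∫ s in (0:ℝ)..1, (ext u s * p.eval (Real.cos (Real.pi * s))
        + ext u s * q.eval (Real.cos (Real.pi * s))) = 0 := by
      rw [intervalIntegral.integral_add, hp, hq, add_zero]
      · exact Continuous.intervalIntegrable (by fun_prop) _ _
      · exact Continuous.intervalIntegrable (by fun_prop) _ _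
    rw [← this]
    congr 1
    funext s
    rw [Polynomial.eval_add]; ring
  | monomial n c =>
    have := complete_aux u h n 0
    simp only [Nat.cast_zero, zero_mul, Real.cos_zero, mul_one] at this
    have h2 : ∫ s in (0:ℝ)..1, c * (ext u s * (Real.cos (Real.pi * s))^n) = 0 := by
      rw [intervalIntegral.integral_const_mul, this, mul_zero]
    rw [← h2]
    congr 1
    funext s
    rw [Polynomial.eval_monomial]; ring

lemma complete (u : X) (h : ∀ k : ℕ, P u (cosk k) = 0) : u = 0 := by
  have hsq : ∫ s in (0:ℝ)..1, ext u s * ext u s ≤ 0 := by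
    apply le_of_forall_pos_le_add
    intro ε hε
    rw [zero_add]
    have hcont : ContinuousOn (fun y => ext u (Real.arccos y / Real.pi)) (Icc (-1:ℝ) 1) :=
      ((ext_cont u).comp (Real.continuous_arccos.div_const _)).continuousOn
    obtain ⟨p, hp⟩ := exists_polynomial_near_of_continuousOn (-1) 1 _ hcont (ε / (‖u‖ + 1))
      (by positivity)
    have h1 : ∫ s in (0:ℝ)..1, ext u s * ext u s =
        ∫ s in (0:ℝ)..1, (ext u s * ext u s - ext u s * p.eval (Real.cos (Real.pi * s))) := by
      rw [intervalIntegral.integral_sub, complete_poly u h p, sub_zero]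
      · exact Continuous.intervalIntegrable (by fun_prop) _ _
      · exact Continuous.intervalIntegrable (by fun_prop) _ _
    rw [h1]
    have h2 : ‖∫ s in (0:ℝ)..1, (ext u s * ext u s - ext u s * p.eval (Real.cos (Real.pi * s)))‖
        ≤ ε * |(1:ℝ) - 0| := by
      apply intervalIntegral.norm_integral_le_of_norm_le_const
      intro s hs
      rw [uIoc_of_le zero_le_one] at hs
      have hs' : s ∈ Icc (0:ℝ) 1 := ⟨hs.1.le, hs.2⟩
      have h3 := hp (Real.cos (Real.pi * s)) ⟨Real.neg_one_le_cos _, Real.cos_le_one _⟩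
      have h4 : Real.arccos (Real.cos (Real.pi * s)) = Real.pi * s := by
        apply Real.arccos_cos
        · exact mul_nonneg Real.pi_pos.le hs'.1
        · nlinarith [Real.pi_pos, hs'.2]
      rw [h4, mul_div_cancel_left₀ _ Real.pi_ne_zero] at h3
      rw [← mul_sub, norm_mul, Real.norm_eq_abs, Real.norm_eq_abs]
      have h5 : |ext u s - Polynomial.eval (Real.cos (Real.pi * s)) p| ≤ ε / (‖u‖ + 1) := by
        rw [abs_sub_comm]; exact h3.le
      calc |ext u s| * |ext u s - Polynomial.eval (Real.cos (Real.pi * s)) p|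
          ≤ (‖u‖ + 1) * (ε / (‖u‖ + 1)) := by
            gcongr
            exact (abs_ext_le u s).trans (by linarith)
        _ = ε := by field_simp
    have h3 := (le_abs_self _).trans h2
    simpa using h3
  by_contra hne
  have : ∃ s ∈ Icc (0:ℝ) 1, ext u s ≠ 0 := by
    by_contra hall
    push Not at hall
    exact hne (X_ext fun s hs => by rw [hall s hs, ext_zero])
  obtain ⟨s, hs, hs0⟩ := this
  have : 0 < ∫ s in (0:ℝ)..1, ext u s * ext u s := by
    apply intervalIntegral.integral_pos zero_lt_one
    · exact (by fun_prop : Continuous (fun s => ext u s * ext u s)).continuousOn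
    · intro x _; exact mul_self_nonneg _
    · exact ⟨s, hs, mul_self_pos.2 hs0⟩
  linarith

lemma integral_cos_int {m : ℤ} (hm : m ≠ 0) : ∫ s in (0:ℝ)..1, Real.cos (m * Real.pi * s) = 0 := by
  have hw : (m : ℝ) * Real.pi ≠ 0 := mul_ne_zero (by exact_mod_cast hm) Real.pi_ne_zero
  have h : ∀ r ∈ uIcc (0:ℝ) 1, HasDerivAt (fun r => Real.sin (m * Real.pi * r) / (m * Real.pi))
      (Real.cos (m * Real.pi * r)) r := by
    intro r _
    have h1 : HasDerivAt (fun r => (m : ℝ) * Real.pi * r) ((m * Real.pi) * 1) r :=
      (hasDerivAt_id r).const_mul _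
    have h2 := (h1.sin).div_const (m * Real.pi)
    refine h2.congr_deriv ?_
    rw [mul_one, mul_div_assoc, div_self hw, mul_one]
  rw [intervalIntegral.integral_eq_sub_of_hasDerivAt h
    (Continuous.intervalIntegrable (by fun_prop) _ _)]
  simp [Real.sin_int_mul_pi]

lemma P_cosk (k j : ℕ) (hkj : k ≠ j) : P (cosk k) (cosk j) = 0 := by
  have e : P (cosk k) (cosk j) = ∫ s in (0:ℝ)..1,
      (1/2 * Real.cos (((k : ℤ) + j : ℤ) * Real.pi * s) + 1/2 * Real.cos (((k : ℤ) - j : ℤ) * Real.pi * s)) := by
    unfold P
    apply intervalIntegral.integral_congr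
    intro s hs
    rw [uIcc_of_le zero_le_one] at hs
    simp only [ext_cosk _ hs]
    have e1 : Real.cos (((k : ℤ) + j : ℤ) * Real.pi * s) =
        Real.cos (k * Real.pi * s) * Real.cos (j * Real.pi * s)
        - Real.sin (k * Real.pi * s) * Real.sin (j * Real.pi * s) := by
      rw [← Real.cos_add]; congr 1; push_cast; ring
    have e2 : Real.cos (((k : ℤ) - j : ℤ) * Real.pi * s) =
        Real.cos (k * Real.pi * s) * Real.cos (j * Real.pi * s)
        + Real.sin (k * Real.pi * s) * Real.sin (j * Real.pi * s) := by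
      rw [← Real.cos_sub]; congr 1; push_cast; ring
    rw [e1, e2]; ring
  rw [e, intervalIntegral.integral_add, intervalIntegral.integral_const_mul,
    intervalIntegral.integral_const_mul, integral_cos_int, integral_cos_int]
  · ring
  · omega
  · omega
  · exact Continuous.intervalIntegrable (by fun_prop) _ _
  · exact Continuous.intervalIntegrable (by fun_prop) _ _

lemma P_cosk_self (k : ℕ) (hk : k ≠ 0) : P (cosk k) (cosk k) = 1/2 := by
  have e : P (cosk k) (cosk k) = ∫ s in (0:ℝ)..1,
      (1/2 + 1/2 * Real.cos (((2 * k : ℤ) : ℝ) * Real.pi * s)) := by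
    unfold P
    apply intervalIntegral.integral_congr
    intro s hs
    rw [uIcc_of_le zero_le_one] at hs
    simp only [ext_cosk _ hs]
    have e1 : Real.cos (((2 * k : ℤ) : ℝ) * Real.pi * s) =
        2 * Real.cos (k * Real.pi * s)^2 - 1 := by
      rw [← Real.cos_two_mul]; congr 1; push_cast; ring
    rw [e1]; ring
  rw [e, intervalIntegral.integral_add, intervalIntegral.integral_const_mul, integral_cos_int]
  · simp
  · omega
  · exact Continuous.intervalIntegrable (by fun_prop) _ _
  · exact Continuous.intervalIntegrable (by fun_prop) _ _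

end B595
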