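import Pool.Agent.B595.Pos2

open Set Filter Topology MeasureTheory

namespace B595

section even
variable (m : ℕ)

noncomputable def dd (s : ℝ) : ℝ := Real.cos (2 * Real.pi * s) - Real.cos (2 * Real.pi * m * s)
noncomputable def h1 (s : ℝ) : ℝ :=
  Real.sin (2 * Real.pi * s) / (2 * Real.pi) - Real.sin (2 * Real.pi * m * s) / (2 * Real.pi * m)
noncomputable def h0 (s : ℝ) : ℝ :=
  (1 - Real.cos (2 * Real.pi * s)) / (2 * Real.pi)^2
    - (1 - Real.cos (2 * Real.pi * m * s)) / (2 * Real.pi * m)^2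

@[fun_prop] lemma dd_cont : Continuous (dd m) := by unfold dd; fun_prop
@[fun_prop] lemma h1_cont : Continuous (h1 m) := by unfold h1; fun_prop
@[fun_prop] lemma h0_cont : Continuous (h0 m) := by unfold h0; fun_prop

variable {m}

lemma hasDerivAt_h1 (hm : 1 ≤ m) (s : ℝ) : HasDerivAt (h1 m) (dd m s) s := by
  have hm0 : (m:ℝ) ≠ 0 := by positivity
  have hpi := Real.pi_ne_zero
  have e1 : HasDerivAt (fun r => 2 * Real.pi * r) (2 * Real.pi * 1) s :=
    (hasDerivAt_id s).const_mul _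
  have e2 : HasDerivAt (fun r => 2 * Real.pi * m * r) (2 * Real.pi * m * 1) s :=
    (hasDerivAt_id s).const_mul _
  have h := (e1.sin.div_const (2 * Real.pi)).sub (e2.sin.div_const (2 * Real.pi * m))
  refine h.congr_deriv ?_
  unfold dd
  field_simp

lemma hasDerivAt_h0 (hm : 1 ≤ m) (s : ℝ) : HasDerivAt (h0 m) (h1 m s) s := by
  have hm0 : (m:ℝ) ≠ 0 := by positivity
  have hpi := Real.pi_ne_zero
  have e1 : HasDerivAt (fun r => 2 * Real.pi * r) (2 * Real.pi * 1) s :=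
    (hasDerivAt_id s).const_mul _
  have e2 : HasDerivAt (fun r => 2 * Real.pi * m * r) (2 * Real.pi * m * 1) s :=
    (hasDerivAt_id s).const_mul _
  have h := ((e1.cos.const_sub 1).div_const ((2 * Real.pi)^2)).sub
    ((e2.cos.const_sub 1).div_const ((2 * Real.pi * m)^2))
  refine h.congr_deriv ?_
  unfold h1
  field_simp

lemma h1_zero : h1 m 0 = 0 := by simp [h1]
lemma h0_zero : h0 m 0 = 0 := by simp [h0]
lemma dd_zero : dd m 0 = 0 := by simp [dd]
lemma cos_two_pi_m : Real.cos (2 * Real.pi * m * 1) = 1 := by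
  have : 2 * Real.pi * m * 1 = (m:ℝ) * (2 * Real.pi) := by ring
  rw [this, Real.cos_nat_mul_two_pi]
lemma sin_two_pi_m : Real.sin (2 * Real.pi * m * 1) = 0 := by
  have : 2 * Real.pi * m * 1 = ((2 * m : ℕ) : ℝ) * Real.pi := by push_cast; ring
  rw [this, Real.sin_nat_mul_pi]
lemma dd_one : dd m 1 = 0 := by
  unfold dd; rw [cos_two_pi_m]; simp
lemma h1_one : h1 m 1 = 0 := by
  unfold h1; rw [sin_two_pi_m]; simp
lemma h0_one : h0 m 1 = 0 := by
  unfold h0; rw [cos_two_pi_m]; simp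

lemma h0_symm (s : ℝ) : h0 m (1 - s) = h0 m s := by
  unfold h0
  have e1 : 2 * Real.pi * (1 - s) = 2 * Real.pi - 2 * Real.pi * s := by ring
  have e2 : 2 * Real.pi * m * (1 - s) = (m:ℝ) * (2 * Real.pi) - 2 * Real.pi * m * s := by ring
  rw [e1, e2, Real.cos_two_pi_sub, Real.cos_nat_mul_two_pi_sub]

lemma abs_sin_nat_mul_le (n : ℕ) (x : ℝ) : |Real.sin (n * x)| ≤ n * |Real.sin x| := by
  induction n with
  | zero => simp
  | succ n ih =>
    have : ((n+1 : ℕ) : ℝ) * x = n * x + x := by push_cast; ring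
    rw [this, Real.sin_add]
    calc |Real.sin (n * x) * Real.cos x + Real.cos (n * x) * Real.sin x|
        ≤ |Real.sin (n * x) * Real.cos x| + |Real.cos (n * x) * Real.sin x| := abs_add_le _ _
      _ = |Real.sin (n * x)| * |Real.cos x| + |Real.cos (n * x)| * |Real.sin x| := by
          rw [abs_mul, abs_mul]
      _ ≤ (n * |Real.sin x|) * 1 + 1 * |Real.sin x| := by
          gcongr
          · exact Real.abs_cos_le_one _
          · exact Real.abs_cos_le_one _
      _ = _ := by push_cast; ring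

lemma h0_nonneg (hm : 1 ≤ m) (s : ℝ) : 0 ≤ h0 m s := by
  have hm0 : (0:ℝ) < m := by positivity
  have hpi := Real.pi_pos
  have e1 : 1 - Real.cos (2 * Real.pi * s) = 2 * Real.sin (Real.pi * s)^2 := by
    have : 2 * Real.pi * s = 2 * (Real.pi * s) := by ring
    rw [this, Real.cos_two_mul, Real.sin_sq]; ring
  have e2 : 1 - Real.cos (2 * Real.pi * m * s) = 2 * Real.sin (m * (Real.pi * s))^2 := by
    have : 2 * Real.pi * m * s = 2 * (m * (Real.pi * s)) := by ring
    rw [this, Real.cos_two_mul, Real.sin_sq]; ring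
  unfold h0
  rw [e1, e2]
  have h := abs_sin_nat_mul_le m (Real.pi * s)
  have h2 : Real.sin (m * (Real.pi * s))^2 ≤ m^2 * Real.sin (Real.pi * s)^2 := by
    have := pow_le_pow_left₀ (abs_nonneg _) h 2
    rw [mul_pow, sq_abs, sq_abs] at this
    exact this
  rw [sub_nonneg, div_le_div_iff₀ (by positivity) (by positivity)]
  have : (2 * Real.pi * m)^2 = (2 * Real.pi)^2 * m^2 := by ring
  rw [this]
  have h3 : 0 < (2 * Real.pi)^2 := by positivity
  nlinarith

lemma even_bounds (hm : 1 ≤ m) : ∃ C : ℝ, 0 ≤ C ∧ ∀ s ∈ Icc (0:ℝ) 1,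
    |dd m s| ≤ C * s ∧ |h1 m s| ≤ C * s^2 ∧ |h0 m s| ≤ C * s^3 := by
  set d' : ℝ → ℝ := fun s => -(2 * Real.pi) * Real.sin (2 * Real.pi * s)
    + (2 * Real.pi * m) * Real.sin (2 * Real.pi * m * s) with hd'
  have hd'c : Continuous d' := by rw [hd']; fun_prop
  have hdd : ∀ s, HasDerivAt (dd m) (d' s) s := by
    intro s
    have e1 : HasDerivAt (fun r => 2 * Real.pi * r) (2 * Real.pi * 1) s :=
      (hasDerivAt_id s).const_mul _
    have e2 : HasDerivAt (fun r => 2 * Real.pi * m * r) (2 * Real.pi * m * 1) s :=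
      (hasDerivAt_id s).const_mul _
    have h := (e1.cos).sub (e2.cos)
    refine h.congr_deriv ?_
    rw [hd']; ring
  obtain ⟨C, hC0, hC⟩ := pr_bound hd'c
  have a1 : ∀ s, dd m s = pr d' s :=
    eq_of_deriv_eq (by rw [dd_zero, pr_zero]) hdd (fun x => hasDerivAt_pr hd'c x)
  have a2 : ∀ s, h1 m s = pr (dd m) s :=
    eq_of_deriv_eq (by rw [h1_zero, pr_zero]) (hasDerivAt_h1 hm)
      (fun x => hasDerivAt_pr (dd_cont m) x)
  have a3 : ∀ s, h0 m s = pr (h1 m) s :=
    eq_of_deriv_eq (by rw [h0_zero, pr_zero]) (hasDerivAt_h0 hm)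
      (fun x => hasDerivAt_pr (h1_cont m) x)
  have gen : ∀ (f : ℝ → ℝ) (n : ℕ), (∀ s ∈ Icc (0:ℝ) 1, |f s| ≤ C * s^n) →
      ∀ s ∈ Icc (0:ℝ) 1, |pr f s| ≤ C * s^(n+1) := by
    intro f n hf s hs
    have h : ‖∫ r in (0:ℝ)..s, f r‖ ≤ (C * s^n) * |s - 0| := by
      apply intervalIntegral.norm_integral_le_of_norm_le_const
      intro r hr
      rw [uIoc_of_le hs.1] at hr
      refine (hf r ⟨hr.1.le, hr.2.trans hs.2⟩).trans ?_
      exact mul_le_mul_of_nonneg_left (pow_le_pow_left₀ hr.1.le hr.2 n) hC0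
    rw [sub_zero, abs_of_nonneg hs.1] at h
    calc |pr f s| ≤ C * s^n * s := h
      _ = _ := by ring
  have b1 : ∀ s ∈ Icc (0:ℝ) 1, |dd m s| ≤ C * s^1 := by
    intro s hs; rw [a1, pow_one]; exact hC s hs
  have b2 : ∀ s ∈ Icc (0:ℝ) 1, |h1 m s| ≤ C * s^2 := by
    intro s hs; rw [a2]; exact gen _ 1 b1 s hs
  have b3 : ∀ s ∈ Icc (0:ℝ) 1, |h0 m s| ≤ C * s^3 := by
    intro s hs; rw [a3]; exact gen _ 2 b2 s hs
  exact ⟨C, hC0, fun s hs => ⟨by simpa using b1 s hs, b2 s hs, b3 s hs⟩⟩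

lemma int_dd (hm : 1 ≤ m) {p : ℝ} (hp : -2 < p) :
    IntervalIntegrable (fun s => s ^ p * dd m s) volume 0 1 := by
  obtain ⟨C, _, hC⟩ := even_bounds hm
  refine intInt_of_bound (q := 1) (C := C) (by linarith) (dd_cont m) fun s hs => ?_
  rw [Real.rpow_one]
  exact (hC s ⟨hs.1.le, hs.2⟩).1

lemma int_h1 (hm : 1 ≤ m) {p : ℝ} (hp : -3 < p) :
    IntervalIntegrable (fun s => s ^ p * h1 m s) volume 0 1 := by
  obtain ⟨C, _, hC⟩ := even_bounds hm
  refine intInt_of_bound (q := 2) (C := C) (by linarith) (h1_cont m) fun s hs => ?_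
  have : s ^ (2:ℝ) = s^2 := by exact_mod_cast Real.rpow_natCast s 2
  rw [this]
  exact (hC s ⟨hs.1.le, hs.2⟩).2.1

lemma int_h0 (hm : 1 ≤ m) {p : ℝ} (hp : -4 < p) :
    IntervalIntegrable (fun s => s ^ p * h0 m s) volume 0 1 := by
  obtain ⟨C, _, hC⟩ := even_bounds hm
  refine intInt_of_bound (q := 3) (C := C) (by linarith) (h0_cont m) fun s hs => ?_
  have : s ^ (3:ℝ) = s^3 := by exact_mod_cast Real.rpow_natCast s 3
  rw [this]
  exact (hC s ⟨hs.1.le, hs.2⟩).2.2

/-- continuity on `[0,1]` of `s^p f(s)` when `f = O(s^n)`, `p + n > 0` -/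
lemma contOn_rpow_mul {p : ℝ} {n : ℕ} (hn : 0 < n) (hp : 0 < p + n) {f : ℝ → ℝ} (hf : Continuous f) {C : ℝ}
    (hC0 : 0 ≤ C) (hC : ∀ s ∈ Icc (0:ℝ) 1, |f s| ≤ C * s^n) :
    ContinuousOn (fun s : ℝ => s ^ p * f s) (Icc 0 1) := by
  intro s hs
  rcases eq_or_lt_of_le hs.1 with h0 | h0
  · subst h0
    have hf0 : f 0 = 0 := by
      have := hC 0 hs
      rw [zero_pow hn.ne', mul_zero] at this
      exact abs_nonpos_iff.1 this
    have hz : (0:ℝ) ^ p * f 0 = 0 := by rw [hf0, mul_zero]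
    change Tendsto (fun s => s ^ p * f s) (𝓝[Icc 0 1] 0) (𝓝 ((0:ℝ) ^ p * f 0))
    rw [hz]
    have hlim : Tendsto (fun s : ℝ => C * s ^ (p + n)) (𝓝[Icc 0 1] 0) (𝓝 0) := by
      have : Continuous (fun s : ℝ => C * s ^ (p + n)) :=
        continuous_const.mul (Real.continuous_rpow_const hp.le)
      have h2 := this.tendsto 0
      simp only [Real.zero_rpow hp.ne', mul_zero] at h2
      exact h2.mono_left nhdsWithin_le_nhds
    refine squeeze_zero_norm' ?_ hlim
    filter_upwards [self_mem_nhdsWithin] with s hs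
    rcases eq_or_lt_of_le hs.1 with h1 | h1
    · subst h1
      rw [hz, norm_zero]
      have := Real.rpow_nonneg (le_refl (0:ℝ)) (p + n)
      positivity
    · rw [norm_mul, Real.norm_eq_abs, Real.norm_eq_abs, abs_of_nonneg (Real.rpow_nonneg hs.1 _)]
      have e : s ^ (p + n) = s ^ p * s^n := by
        rw [Real.rpow_add h1, Real.rpow_natCast]
      rw [e]
      have := hC s hs
      have h2 := Real.rpow_nonneg hs.1 p
      calc s ^ p * |f s| ≤ s ^ p * (C * s^n) := by gcongr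
        _ = _ := by ring
  · exact ((Real.continuousAt_rpow_const s _ (Or.inl h0.ne')).mul
      hf.continuousAt).continuousWithinAt

/-- `I(p) = ∫ s^p h0` -/
noncomputable def II (m : ℕ) (p : ℝ) : ℝ := ∫ s in (0:ℝ)..1, s ^ p * h0 m s

lemma ibp_h1 (hm : 1 ≤ m) {p : ℝ} (hp : -3 < p) :
    ∫ s in (0:ℝ)..1, s ^ p * h1 m s = -p * II m (p - 1) := by
  obtain ⟨C, hC0, hC⟩ := even_bounds hm
  have hco := contOn_rpow_mul (p := p) (n := 3) (by norm_num) (by push_cast; linarith) (h0_cont m) hC0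
    (fun s hs => (hC s hs).2.2)
  have hder : ∀ s ∈ Ioo (0:ℝ) 1, HasDerivAt (fun s : ℝ => s ^ p * h0 m s)
      (p * (s ^ (p - 1) * h0 m s) + s ^ p * h1 m s) s := by
    intro s hs
    have h1 := (Real.hasDerivAt_rpow_const (x := s) (p := p) (Or.inl hs.1.ne')).mul
      (hasDerivAt_h0 hm s)
    refine h1.congr_deriv ?_
    ring
  have hi1 := (int_h0 hm (p := p - 1) (by linarith)).const_mul p
  have hi2 := int_h1 hm hp
  have h := intervalIntegral.integral_eq_sub_of_hasDerivAt_of_le zero_le_one hco hder (hi1.add hi2)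
  rw [intervalIntegral.integral_add hi1 hi2, intervalIntegral.integral_const_mul] at h
  simp only [h0_one, h0_zero, mul_zero, sub_zero] at h
  unfold II
  linarith

lemma ibp_dd (hm : 1 ≤ m) {p : ℝ} (hp : -2 < p) :
    ∫ s in (0:ℝ)..1, s ^ p * dd m s = p * (p - 1) * II m (p - 2) := by
  obtain ⟨C, hC0, hC⟩ := even_bounds hm
  have hco := contOn_rpow_mul (p := p) (n := 2) (by norm_num) (by push_cast; linarith) (h1_cont m) hC0
    (fun s hs => (hC s hs).2.1)
  have hder : ∀ s ∈ Ioo (0:ℝ) 1, HasDerivAt (fun s : ℝ => s ^ p * h1 m s)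
      (p * (s ^ (p - 1) * h1 m s) + s ^ p * dd m s) s := by
    intro s hs
    have h1 := (Real.hasDerivAt_rpow_const (x := s) (p := p) (Or.inl hs.1.ne')).mul
      (hasDerivAt_h1 hm s)
    refine h1.congr_deriv ?_
    ring
  have hi1 := (int_h1 hm (p := p - 1) (by linarith)).const_mul p
  have hi2 := int_dd hm hp
  have h := intervalIntegral.integral_eq_sub_of_hasDerivAt_of_le zero_le_one hco hder (hi1.add hi2)
  rw [intervalIntegral.integral_add hi1 hi2, intervalIntegral.integral_const_mul,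
    ibp_h1 hm (by linarith : -3 < p - 1)] at h
  simp only [h1_one, h1_zero, mul_zero, sub_zero] at h
  have : p - 1 - 1 = p - 2 := by ring
  rw [this] at h
  linarith

end even

end B595
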