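import Pool.Agent.B595.Even

open Set Filter Topology MeasureTheory

namespace B595

variable {m : ℕ}

/-- `D = φ_{2m} - φ_2` -/
noncomputable def DD (m : ℕ) : X := phi (2 * m) - phi 2

lemma ext_DD {s : ℝ} (hs : s ∈ Icc (0:ℝ) 1) : ext (DD m) s = dd m s := by
  rw [DD, ext_sub, ext_phi _ hs, ext_phi _ hs, dd]
  push_cast
  have : 2 * (m:ℝ) * Real.pi * s = 2 * Real.pi * m * s := by ring
  rw [this]; ring

lemma ext_aDD (hm : 1 ≤ m) {s : ℝ} (hs : s ∈ Icc (0:ℝ) 1) :
    ext (a (DD m)) s = 1/2 * ((1 - s) * h1 m s + h0 m s) := by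
  rw [ext_a' _ hs]
  congr 1
  have e : pr (fun r => (1 - r) * ext (DD m) r) s = pr (fun r => (1 - r) * dd m r) s :=
    pr_congr hs fun x hx => by rw [ext_DD hx]
  rw [e]
  have hc : Continuous (fun r => (1 - r) * dd m r) := by fun_prop
  symm
  apply eq_of_deriv_eq (f := fun s => (1 - s) * h1 m s + h0 m s) (g := pr _)
    (f' := fun s => (1 - s) * dd m s)
  · simp [h1_zero, h0_zero, pr_zero]
  · intro x
    have h := (((hasDerivAt_id x).const_sub 1).mul (hasDerivAt_h1 hm x)).add (hasDerivAt_h0 hm x)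
    refine h.congr_deriv ?_
    simp
  · intro x; exact hasDerivAt_pr hc x

lemma ext_aaDD (hm : 1 ≤ m) {s : ℝ} (hs : s ∈ Icc (0:ℝ) 1) :
    ext (a (a (DD m))) s = 1/4 * ((1 - s)^2 * h0 m s) + 3/4 * pr (fun r => (1 - r) * h0 m r) s := by
  rw [ext_a' _ hs]
  have e : pr (fun r => (1 - r) * ext (a (DD m)) r) s =
      pr (fun r => (1 - r) * (1/2 * ((1 - r) * h1 m r + h0 m r))) s :=
    pr_congr hs fun x hx => by rw [ext_aDD hm hx]
  rw [e]
  have hc : Continuous (fun r => (1 - r) * (1/2 * ((1 - r) * h1 m r + h0 m r))) := by fun_prop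
  have hc2 : Continuous (fun r => (1 - r) * h0 m r) := by fun_prop
  symm
  apply eq_of_deriv_eq (f := fun s => 1/4 * ((1 - s)^2 * h0 m s) + 3/4 * pr (fun r => (1 - r) * h0 m r) s)
    (g := fun s => 1/2 * pr (fun r => (1 - r) * (1/2 * ((1 - r) * h1 m r + h0 m r))) s)
    (f' := fun r => 1/2 * ((1 - r) * (1/2 * ((1 - r) * h1 m r + h0 m r))))
  · simp [h0_zero, pr_zero]
  · intro x
    have e1 : HasDerivAt (fun s : ℝ => (1 - s)^2) (2 * (1 - x)^(2-1) * (-1)) x :=
      ((hasDerivAt_id x).const_sub 1).pow 2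
    have h := ((e1.mul (hasDerivAt_h0 hm x)).const_mul (1/4)).add
      ((hasDerivAt_pr hc2 x).const_mul (3/4))
    refine h.congr_deriv ?_
    ring
  · intro x; exact (hasDerivAt_pr hc x).const_mul _

lemma Lam_DD (hm : 1 ≤ m) {α : ℝ} (hα : 0 < α) :
    Lam α (DD m) = (1 - α) * ((2 - α) * (3 - α) * II m (α - 4)) := by
  unfold Lam
  rw [ext_DD ⟨zero_le_one, le_refl _⟩, dd_one, zero_add]
  congr 1
  have e : ∫ s in (0:ℝ)..1, s ^ (α - 2) * ext (DD m) s = ∫ s in (0:ℝ)..1, s ^ (α - 2) * dd m s := by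
    apply intervalIntegral.integral_congr
    intro s hs
    rw [uIcc_of_le zero_le_one] at hs
    simp only [ext_DD hs]
  rw [e, ibp_dd hm (by linarith)]
  have : α - 2 - 2 = α - 4 := by ring
  rw [this]; ring

lemma J_DD (hm : 1 ≤ m) {α : ℝ} (hα : 0 < α) :
    J α (DD m) = (1 - α) * (2 - α) * II m (α - 3) + α * (1 - α) * II m (α - 2) := by
  unfold J
  have e : ∫ s in (0:ℝ)..1, s ^ (α - 1) * ((1 - s) * ext (DD m) s) =
      ∫ s in (0:ℝ)..1, (s ^ (α - 1) * dd m s - s ^ α * dd m s) := by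
    apply intervalIntegral.integral_congr_ae
    refine Eventually.of_forall fun s hs => ?_
    rw [uIoc_of_le zero_le_one] at hs
    rw [ext_DD ⟨hs.1.le, hs.2⟩]
    have : s ^ α = s ^ (α - 1) * s := by
      rw [← Real.rpow_add_one hs.1.ne']; ring_nf
    rw [this]; ring
  rw [e, intervalIntegral.integral_sub (int_dd hm (by linarith)) (int_dd hm (by linarith)),
    ibp_dd hm (by linarith), ibp_dd hm (by linarith)]
  have : α - 1 - 2 = α - 3 := by ring
  rw [this]; ring

lemma J_aDD (hm : 1 ≤ m) {α : ℝ} (hα : 0 < α) :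
    J α (a (DD m)) = 1/2 * ((1 - α) * II m (α - 2) + (2 * α + 1) * II m (α - 1)
      - (α + 2) * II m α) := by
  unfold J
  have i1 := int_h1 hm (p := α - 1) (by linarith)
  have i2 := int_h1 hm (p := α) (by linarith)
  have i3 := int_h1 hm (p := α + 1) (by linarith)
  have i4 := int_h0 hm (p := α - 1) (by linarith)
  have i5 := int_h0 hm (p := α) (by linarith)
  have e : ∫ s in (0:ℝ)..1, s ^ (α - 1) * ((1 - s) * ext (a (DD m)) s) =
      ∫ s in (0:ℝ)..1, (1/2) * ((s ^ (α - 1) * h1 m s - 2 * (s ^ α * h1 m s)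
        + s ^ (α + 1) * h1 m s) + (s ^ (α - 1) * h0 m s - s ^ α * h0 m s)) := by
    apply intervalIntegral.integral_congr_ae
    refine Eventually.of_forall fun s hs => ?_
    rw [uIoc_of_le zero_le_one] at hs
    rw [ext_aDD hm ⟨hs.1.le, hs.2⟩]
    have e1 : s ^ α = s ^ (α - 1) * s := by
      rw [← Real.rpow_add_one hs.1.ne']; ring_nf
    have e2 : s ^ (α + 1) = s ^ (α - 1) * s * s := by
      rw [← e1, ← Real.rpow_add_one hs.1.ne']
    rw [e2, e1]; ring
  rw [e, intervalIntegral.integral_const_mul,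
    intervalIntegral.integral_add ((i1.sub (i2.const_mul 2)).add i3) (i4.sub i5),
    intervalIntegral.integral_add (i1.sub (i2.const_mul 2)) i3,
    intervalIntegral.integral_sub i1 (i2.const_mul 2), intervalIntegral.integral_const_mul,
    intervalIntegral.integral_sub i4 i5, ibp_h1 hm (by linarith), ibp_h1 hm (by linarith),
    ibp_h1 hm (by linarith)]
  have e1 : α - 1 - 1 = α - 2 := by ring
  have e2 : α + 1 - 1 = α := by ring
  rw [e1, e2]
  unfold II
  ring

/-- tail weight -/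
noncomputable def VV (α s : ℝ) : ℝ := (1 - s ^ α) / α - (1 - s ^ (α + 1)) / (α + 1)

lemma hasDerivAt_VV {α : ℝ} (hα : 0 < α) {s : ℝ} (hs : 0 < s) :
    HasDerivAt (VV α) (-(s ^ (α - 1) * (1 - s))) s := by
  have h1 := (((Real.hasDerivAt_rpow_const (x := s) (p := α) (Or.inl hs.ne')).const_sub 1).div_const α)
  have h2 := (((Real.hasDerivAt_rpow_const (x := s) (p := α + 1) (Or.inl hs.ne')).const_sub 1).div_const (α+1))
  refine (h1.sub h2).congr_deriv ?_
  have e1 : α + 1 - 1 = α := by ring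
  have e2 : s ^ α = s ^ (α - 1) * s := by
    rw [← Real.rpow_add_one hs.ne']; ring_nf
  have : α + 1 ≠ 0 := by positivity
  rw [e1, e2]
  field_simp
  ring

lemma VV_cont {α : ℝ} (hα : 0 < α) : Continuous (VV α) := by
  unfold VV
  have h1 : Continuous (fun s : ℝ => s ^ α) := Real.continuous_rpow_const hα.le
  have h2 : Continuous (fun s : ℝ => s ^ (α+1)) := Real.continuous_rpow_const (by linarith)
  fun_prop

lemma VV_le {α : ℝ} (hα : 0 < α) (hα1 : α < 1) {s : ℝ} (hs : 0 < s) (hs1 : s ≤ 1) :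
    VV α s ≤ 1/2 * (s ^ (α - 1) * (1 - s)^2) := by
  set g : ℝ → ℝ := fun s => 1/2 * (s ^ (α - 1) * (1 - s)^2) - VV α s with hg
  have hder : ∀ x : ℝ, 0 < x → HasDerivAt g (1/2 * ((α - 1) * x ^ (α - 1 - 1) * (1 - x)^2)) x := by
    intro x hx
    have e1 : HasDerivAt (fun s : ℝ => (1 - s)^2) (2 * (1 - x)^(2-1) * (-1)) x :=
      ((hasDerivAt_id x).const_sub 1).pow 2
    have h1 := (((Real.hasDerivAt_rpow_const (x := x) (p := α - 1) (Or.inl hx.ne')).mul e1).const_mul
      (1/2)).sub (hasDerivAt_VV hα hx)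
    refine h1.congr_deriv ?_
    ring
  have hanti : AntitoneOn g (Icc s 1) := by
    apply antitoneOn_of_deriv_nonpos (convex_Icc s 1)
    · intro x hx
      exact (hder x (hs.trans_le hx.1)).continuousAt.continuousWithinAt
    · intro x hx
      rw [interior_Icc] at hx
      exact (hder x (hs.trans hx.1)).differentiableAt.differentiableWithinAt
    · intro x hx
      rw [interior_Icc] at hx
      rw [(hder x (hs.trans hx.1)).deriv]
      have : 0 ≤ x ^ (α - 1 - 1) := Real.rpow_nonneg (hs.trans hx.1).le _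
      have h2 : 0 ≤ x ^ (α - 1 - 1) * (1 - x)^2 := by positivity
      nlinarith
  have := hanti (left_mem_Icc.2 hs1) (right_mem_Icc.2 hs1) hs1
  have h1 : g 1 = 0 := by
    rw [hg]; simp [VV]
  rw [h1] at this
  rw [hg] at this
  simp only at this
  linarith

lemma J_aaDD (hm : 1 ≤ m) {α : ℝ} (hα : 0 < α) (hα1 : α < 1) :
    J α (a (a (DD m))) ≤ 5/8 * ∫ s in (0:ℝ)..1, s ^ (α - 1) * ((1 - s)^3 * h0 m s) := by
  set w : ℝ → ℝ := fun r => (1 - r) * h0 m r with hw
  have hwc : Continuous w := by rw [hw]; fun_prop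
  have i1 : IntervalIntegrable (fun s => s ^ (α - 1) * ((1 - s)^3 * h0 m s)) volume 0 1 :=
    intInt_rpow_mul (by linarith) (by fun_prop)
  have i2 : IntervalIntegrable (fun s => s ^ (α - 1) * ((1 - s) * pr w s)) volume 0 1 :=
    intInt_rpow_mul (by linarith) (by fun_prop)
  have e : J α (a (a (DD m))) = 1/4 * (∫ s in (0:ℝ)..1, s ^ (α - 1) * ((1 - s)^3 * h0 m s))
      + 3/4 * ∫ s in (0:ℝ)..1, s ^ (α - 1) * ((1 - s) * pr w s) := by
    rw [← intervalIntegral.integral_const_mul, ← intervalIntegral.integral_const_mul,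
      ← intervalIntegral.integral_add (i1.const_mul _) (i2.const_mul _)]
    unfold J
    apply intervalIntegral.integral_congr
    intro s hs
    rw [uIcc_of_le zero_le_one] at hs
    simp only [ext_aaDD hm hs]
    ring
  have key : ∫ s in (0:ℝ)..1, s ^ (α - 1) * ((1 - s) * pr w s) = ∫ s in (0:ℝ)..1, VV α s * w s := by
    have hco : ContinuousOn (fun s => VV α s * pr w s) (Icc 0 1) :=
      ((VV_cont hα).mul (pr_cont hwc)).continuousOn
    have hder : ∀ s ∈ Ioo (0:ℝ) 1, HasDerivAt (fun s : ℝ => VV α s * pr w s)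
        (VV α s * w s - s ^ (α - 1) * ((1 - s) * pr w s)) s := by
      intro s hs
      refine ((hasDerivAt_VV hα hs.1).mul (hasDerivAt_pr hwc s)).congr_deriv ?_
      ring
    have i3 : IntervalIntegrable (fun s => VV α s * w s) volume 0 1 :=
      ((VV_cont hα).mul hwc).intervalIntegrable _ _
    have h := intervalIntegral.integral_eq_sub_of_hasDerivAt_of_le zero_le_one hco hder (i3.sub i2)
    rw [intervalIntegral.integral_sub i3 i2] at h
    have v1 : VV α 1 = 0 := by simp [VV]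
    rw [v1, pr_zero] at h
    linarith
  have bound : ∫ s in (0:ℝ)..1, VV α s * w s ≤
      ∫ s in (0:ℝ)..1, 1/2 * (s ^ (α - 1) * ((1 - s)^3 * h0 m s)) := by
    apply intervalIntegral.integral_mono_on_of_le_Ioo zero_le_one
      (((VV_cont hα).mul hwc).intervalIntegrable _ _) (i1.const_mul _)
    intro s hs
    have h1 := VV_le hα hα1 hs.1 hs.2.le
    have h2 : 0 ≤ w s := mul_nonneg (by linarith [hs.2]) (h0_nonneg hm s)
    calc VV α s * w s ≤ (1/2 * (s ^ (α - 1) * (1 - s)^2)) * w s := mul_le_mul_of_nonneg_right h1 h2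
      _ = _ := by rw [hw]; ring
  rw [intervalIntegral.integral_const_mul] at bound
  rw [e, key]
  linarith

end B595
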