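import Pool.Agent.B595.Even2

open Set Filter Topology MeasureTheory

namespace B595

variable {m : ℕ}

lemma int_nonneg_Ioo {f : ℝ → ℝ} (h : ∀ s ∈ Ioo (0:ℝ) 1, 0 ≤ f s) :
    0 ≤ ∫ s in (0:ℝ)..1, f s := by
  by_cases hi : IntervalIntegrable f volume 0 1
  · have := intervalIntegral.integral_mono_on_of_le_Ioo (f := fun _ => (0:ℝ)) zero_le_one
      intervalIntegrable_const hi h
    simpa using this
  · rw [intervalIntegral.integral_undef hi]

/-- polynomial `q` -/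
noncomputable def qq (α c s : ℝ) : ℝ := (2 - α) * (3 - α) - c/2 * ((2 - α) * s + α * s^2)

lemma sym_point {α c : ℝ} (hα1 : α ≤ 1)
    (hq1 : ∀ s ∈ Icc (0:ℝ) (1/2), 0 ≤ qq α c s)
    (hq2 : ∀ s ∈ Icc (0:ℝ) (1/2), 0 ≤ (1 - s)^3 * qq α c s + s^3 * qq α c (1 - s))
    {s : ℝ} (hs : 0 < s) (hs2 : s ≤ 1/2) :
    0 ≤ s ^ (α - 4) * qq α c s + (1 - s) ^ (α - 4) * qq α c (1 - s) := by
  have h1s : 0 < 1 - s := by linarith
  have a1 := hq1 s ⟨hs.le, hs2⟩
  have a2 := hq2 s ⟨hs.le, hs2⟩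
  -- s^(α-4) ≥ (1-s)^(α-4) * ((1-s)/s)^3
  have key : (1 - s) ^ (α - 4) * ((1 - s)^3 / s^3) ≤ s ^ (α - 4) := by
    have e1 : (1 - s) ^ (α - 4) * (1 - s)^3 = (1 - s) ^ (α - 1) := by
      rw [← Real.rpow_natCast, ← Real.rpow_add h1s]; congr 1; push_cast; ring
    have e2 : s ^ (α - 1) / s^3 = s ^ (α - 4) := by
      rw [← Real.rpow_natCast, ← Real.rpow_sub hs]; congr 1; push_cast; ring
    rw [← mul_div_assoc, e1, ← e2]
    apply div_le_div_of_nonneg_right _ (by positivity)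
    exact Real.rpow_le_rpow_of_nonpos hs (by linarith) (by linarith)
  have hp : 0 ≤ (1 - s) ^ (α - 4) := Real.rpow_nonneg h1s.le _
  calc (0:ℝ) ≤ (1 - s) ^ (α - 4) * (((1 - s)^3 * qq α c s + s^3 * qq α c (1 - s)) / s^3) := by
        positivity
    _ = ((1 - s) ^ (α - 4) * ((1 - s)^3 / s^3)) * qq α c s + (1 - s) ^ (α - 4) * qq α c (1 - s) := by
        field_simp
    _ ≤ _ := by
        have := mul_le_mul_of_nonneg_right key a1
        linarith

lemma sym_point' {α c : ℝ} (hα1 : α ≤ 1)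
    (hq1 : ∀ s ∈ Icc (0:ℝ) (1/2), 0 ≤ qq α c s)
    (hq2 : ∀ s ∈ Icc (0:ℝ) (1/2), 0 ≤ (1 - s)^3 * qq α c s + s^3 * qq α c (1 - s))
    {s : ℝ} (hs : 0 < s) (hs2 : s < 1) :
    0 ≤ s ^ (α - 4) * qq α c s + (1 - s) ^ (α - 4) * qq α c (1 - s) := by
  rcases le_total s (1/2) with h | h
  · exact sym_point hα1 hq1 hq2 hs h
  · have := sym_point hα1 hq1 hq2 (s := 1 - s) (by linarith) (by linarith)
    rw [sub_sub_cancel] at this
    linarith

lemma A_nonneg (hm : 1 ≤ m) {α c : ℝ} (hα : 0 < α) (hα1 : α ≤ 1)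
    (hq1 : ∀ s ∈ Icc (0:ℝ) (1/2), 0 ≤ qq α c s)
    (hq2 : ∀ s ∈ Icc (0:ℝ) (1/2), 0 ≤ (1 - s)^3 * qq α c s + s^3 * qq α c (1 - s)) :
    0 ≤ ∫ s in (0:ℝ)..1, s ^ (α - 4) * h0 m s * qq α c s := by
  have hqc : Continuous (qq α c) := by unfold qq; fun_prop
  set f : ℝ → ℝ := fun s => s ^ (α - 4) * h0 m s * qq α c s with hf
  have hfi : IntervalIntegrable f volume 0 1 :=
    (int_h0 hm (by linarith)).mul_continuousOn hqc.continuousOn
  have hfi2 : IntervalIntegrable (fun s => f (1 - s)) volume 0 1 := by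
    have := hfi.comp_sub_left 1
    simp only [sub_zero, sub_self] at this
    exact this.symm
  have h1 : ∫ s in (0:ℝ)..1, f (1 - s) = ∫ s in (0:ℝ)..1, f s := by
    rw [intervalIntegral.integral_comp_sub_left]; simp
  have h2 : 0 ≤ ∫ s in (0:ℝ)..1, (f s + f (1 - s)) := by
    apply int_nonneg_Ioo
    intro s hs
    rw [hf]
    simp only
    rw [h0_symm]
    have := sym_point' hα1 hq1 hq2 hs.1 hs.2
    have h3 := h0_nonneg hm s
    have h4 := mul_nonneg this h3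
    linarith
  rw [intervalIntegral.integral_add hfi hfi2, h1] at h2
  linarith

lemma LL_DD_nonneg (hm : 1 ≤ m) {α c : ℝ} (hα : 0 < α) (hα1 : α < 1) (hc : 0 ≤ c)
    (hq1 : ∀ s ∈ Icc (0:ℝ) (1/2), 0 ≤ qq α c s)
    (hq2 : ∀ s ∈ Icc (0:ℝ) (1/2), 0 ≤ (1 - s)^3 * qq α c s + s^3 * qq α c (1 - s))
    (hR : ∀ s ∈ Icc (0:ℝ) 1, 0 ≤ (1 - α) + (α + 2) * s - 5 * c / 12 * (s * (1 - s)^2)) :
    0 ≤ LL α c (DD m) := by
  have hA := A_nonneg hm hα hα1.le hq1 hq2
  have i4 := int_h0 hm (p := α - 4) (by linarith)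
  have i3 := int_h0 hm (p := α - 3) (by linarith)
  have i2 := int_h0 hm (p := α - 2) (by linarith)
  have i1 := int_h0 hm (p := α - 1) (by linarith)
  have i0 := int_h0 hm (p := α) (by linarith)
  have i5 : IntervalIntegrable (fun s => s ^ (α - 1) * ((1 - s)^3 * h0 m s)) volume 0 1 :=
    intInt_rpow_mul (by linarith) (by fun_prop)
  have eA : ∫ s in (0:ℝ)..1, s ^ (α - 4) * h0 m s * qq α c s =
      (2 - α) * (3 - α) * II m (α - 4) - c/2 * ((2 - α) * II m (α - 3) + α * II m (α - 2)) := by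
    have : ∫ s in (0:ℝ)..1, s ^ (α - 4) * h0 m s * qq α c s =
        ∫ s in (0:ℝ)..1, ((2 - α) * (3 - α) * (s ^ (α - 4) * h0 m s)
          - c/2 * ((2 - α) * (s ^ (α - 3) * h0 m s) + α * (s ^ (α - 2) * h0 m s))) := by
      apply intervalIntegral.integral_congr_ae
      refine Eventually.of_forall fun s hs => ?_
      rw [uIoc_of_le zero_le_one] at hs
      have e1 : s ^ (α - 3) = s ^ (α - 4) * s := by
        rw [← Real.rpow_add_one hs.1.ne']; ring_nf
      have e2 : s ^ (α - 2) = s ^ (α - 4) * s * s := by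
        rw [← e1, ← Real.rpow_add_one hs.1.ne']; ring_nf
      rw [e2, e1, qq]; ring
    rw [this, intervalIntegral.integral_sub (i4.const_mul _) (((i3.const_mul _).add (i2.const_mul _)).const_mul _),
      intervalIntegral.integral_const_mul, intervalIntegral.integral_const_mul,
      intervalIntegral.integral_add (i3.const_mul _) (i2.const_mul _),
      intervalIntegral.integral_const_mul, intervalIntegral.integral_const_mul]
    rfl
  have hB : 0 ≤ (1 - α) * II m (α - 2) + (2 * α + 1) * II m (α - 1) - (α + 2) * II m α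
      - 5 * c / 12 * ∫ s in (0:ℝ)..1, s ^ (α - 1) * ((1 - s)^3 * h0 m s) := by
    have e : (1 - α) * II m (α - 2) + (2 * α + 1) * II m (α - 1) - (α + 2) * II m α
      - 5 * c / 12 * (∫ s in (0:ℝ)..1, s ^ (α - 1) * ((1 - s)^3 * h0 m s)) =
      ∫ s in (0:ℝ)..1, ((1 - α) * (s ^ (α - 2) * h0 m s) + (2 * α + 1) * (s ^ (α - 1) * h0 m s)
        - (α + 2) * (s ^ α * h0 m s) - 5 * c / 12 * (s ^ (α - 1) * ((1 - s)^3 * h0 m s))) := by
      rw [intervalIntegral.integral_sub (((i2.const_mul _).add (i1.const_mul _)).sub (i0.const_mul _)) (i5.const_mul _),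
        intervalIntegral.integral_sub ((i2.const_mul _).add (i1.const_mul _)) (i0.const_mul _),
        intervalIntegral.integral_add (i2.const_mul _) (i1.const_mul _),
        intervalIntegral.integral_const_mul, intervalIntegral.integral_const_mul,
        intervalIntegral.integral_const_mul, intervalIntegral.integral_const_mul]
      rfl
    rw [e]
    apply int_nonneg_Ioo
    intro s hs
    have e1 : s ^ (α - 1) = s ^ (α - 2) * s := by
      rw [← Real.rpow_add_one hs.1.ne']; ring_nf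
    have e2 : s ^ α = s ^ (α - 2) * s * s := by
      rw [← e1, ← Real.rpow_add_one hs.1.ne']; ring_nf
    have h1 := hR s ⟨hs.1.le, hs.2.le⟩
    have h2 : 0 ≤ s ^ (α - 2) := Real.rpow_nonneg hs.1.le _
    have h3 := h0_nonneg hm s
    have h4 : 0 ≤ 1 - s := by linarith [hs.2]
    have h5 : 0 ≤ s ^ (α - 2) * h0 m s * (1 - s) *
      ((1 - α) + (α + 2) * s - 5 * c / 12 * (s * (1 - s)^2)) := by positivity
    rw [e2, e1]
    calc (0:ℝ) ≤ _ := h5
      _ = _ := by ring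
  have hJ := J_aaDD hm hα hα1
  unfold LL
  rw [Lam_DD hm hα, J_DD hm hα, J_aDD hm hα]
  rw [eA] at hA
  have h1α : 0 ≤ 1 - α := by linarith
  have g1 := mul_nonneg h1α hA
  have g2 := mul_nonneg (by positivity : 0 ≤ c^2/8) hB
  have g3 := mul_le_mul_of_nonneg_left hJ (by positivity : 0 ≤ c^3/12)
  linarith

lemma LL_sub {α : ℝ} (hα : 0 < α) (c : ℝ) {u w : X} {v v' : ℝ → ℝ} (hu : Adm u v) (hw : Adm w v') :
    LL α c (u - w) = LL α c u - LL α c w := by
  have e : u - w = u + (-1:ℝ) • w := by module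
  unfold LL
  rw [map_sub, map_sub, J_sub hα, J_sub hα, J_sub hα, e, Lam_add hα hu (hw.smul (-1)), Lam_smul]
  ring

lemma LL_even (hm : 1 ≤ m) {α c : ℝ} (hα : 0 < α) (hα1 : α < 1) (hc : 0 ≤ c)
    (hq1 : ∀ s ∈ Icc (0:ℝ) (1/2), 0 ≤ qq α c s)
    (hq2 : ∀ s ∈ Icc (0:ℝ) (1/2), 0 ≤ (1 - s)^3 * qq α c s + s^3 * qq α c (1 - s))
    (hR : ∀ s ∈ Icc (0:ℝ) 1, 0 ≤ (1 - α) + (α + 2) * s - 5 * c / 12 * (s * (1 - s)^2)) :
    LL α c (phi 2) ≤ LL α c (phi (2 * m)) := by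
  have h := LL_DD_nonneg hm hα hα1 hc hq1 hq2 hR
  rw [DD, LL_sub hα c (Adm_phi _) (Adm_phi _)] at h
  linarith

end B595
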