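import Pool.Agent.B595.Ops

open Set Filter Topology

namespace B595

lemma hasSum_exp_apply (T : X →L[ℝ] X) (u : X) :
    HasSum (fun n : ℕ => ((n.factorial:ℝ)⁻¹) • ((T^n) u)) (NormedSpace.exp T u) := by
  have h := (NormedSpace.exp_series_hasSum_exp' (𝕂 := ℝ) T).mapL (ContinuousLinearMap.apply ℝ X u)
  simpa using h

lemma P_M_pow (n : ℕ) (u w : X) : P ((M^n) u) w = P u ((a^n) w) := by
  induction n generalizing w with
  | zero => simp
  | succ n ih =>
    rw [pow_succ', pow_succ]
    rw [mul_apply_eq_comp, mul_apply_eq_comp, P_M, ih]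

lemma P_exp (c : ℝ) (u w : X) :
    P (NormedSpace.exp (c • M) u) w = P u (NormedSpace.exp (c • a) w) := by
  have h1 := (hasSum_exp_apply (c • M) u).mapL (PL w)
  have h2 := (hasSum_exp_apply (c • a) w).mapL (PL u)
  have h3 : (fun n : ℕ => PL w (((n.factorial:ℝ)⁻¹) • (((c • M)^n) u))) =
      fun n : ℕ => PL u (((n.factorial:ℝ)⁻¹) • (((c • a)^n) w)) := by
    funext n
    simp only [smul_pow, smul_apply, map_smul, PL_apply]
    rw [P_comm w, P_M_pow]
  rw [h3] at h1
  have := h1.unique h2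
  simp only [PL_apply] at this
  rw [P_comm, this]

lemma exp_neg_mul (T : X →L[ℝ] X) (u : X) :
    NormedSpace.exp (-T) (NormedSpace.exp T u) = u := by
  have h : NormedSpace.exp (-T) * NormedSpace.exp T = 1 := by
    have hc : Commute (-T) T := (Commute.refl T).neg_left
    have : NormedAlgebra ℚ (X →L[ℝ] X) := NormedAlgebra.restrictScalars ℚ ℝ _
    rw [← NormedSpace.exp_add_of_commute hc, neg_add_cancel, NormedSpace.exp_zero]
  rw [← mul_apply_eq_comp, h]; rfl

/-- the curve `z ↦ cos(√z (1-s))` in `X` -/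
noncomputable def Cmap (z : ℝ) : X := mk (fun s => Real.cos (√z * (1 - s))) (by fun_prop)

lemma continuous_curry_X (F : ℝ → ℝ → ℝ) (hF : Continuous (fun p : ℝ × ℝ => F p.1 p.2)) :
    Continuous (fun z => mk (F z) (by fun_prop)) := by
  have h : Continuous (fun p : ℝ × Icc (0:ℝ) 1 => F p.1 p.2) :=
    hF.comp (continuous_fst.prodMk (continuous_subtype_val.comp continuous_snd))
  exact (ContinuousMap.curry ⟨fun p : ℝ × Icc (0:ℝ) 1 => F p.1 p.2, h⟩).continuous

lemma Cmap_cont : Continuous Cmap :=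
  continuous_curry_X (fun z s => Real.cos (√z * (1 - s))) (by fun_prop)

lemma ext_Cmap (z : ℝ) {x : ℝ} (hx : x ∈ Icc (0:ℝ) 1) :
    ext (Cmap z) x = Real.cos (√z * (1 - x)) := ext_mk _ _ hx

lemma integral_cos_aux {w s : ℝ} (hw : w ≠ 0) :
    ∫ r in s..(1:ℝ), Real.cos (w * (1 - r)) = Real.sin (w * (1 - s)) / w := by
  have h : ∀ r ∈ uIcc s (1:ℝ), HasDerivAt (fun r => - Real.sin (w * (1 - r)) / w)
      (Real.cos (w * (1 - r))) r := by
    intro r _
    have h1 : HasDerivAt (fun r => w * (1 - r)) (w * (-1)) r :=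
      ((hasDerivAt_id r).const_sub 1).const_mul w
    have h2 : HasDerivAt (fun r => - Real.sin (w * (1 - r)) / w)
      (-(Real.cos (w * (1 - r)) * (w * (-1))) / w) r := (h1.sin.neg).div_const w
    refine h2.congr_deriv ?_
    rw [div_eq_iff hw]; ring
  rw [intervalIntegral.integral_eq_sub_of_hasDerivAt h
    (Continuous.intervalIntegrable (by fun_prop) _ _)]
  simp
  ring

lemma ext_M_Cmap {z : ℝ} (hz : 0 < z) {s : ℝ} (hs : s ∈ Icc (0:ℝ) 1) :
    ext (M (Cmap z)) s = (1 - s)/2 * (Real.sin (√z * (1 - s)) / √z) := by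
  rw [ext_M _ hs, ← integral_cos_aux (Real.sqrt_ne_zero'.2 hz)]
  congr 1
  apply intervalIntegral.integral_congr
  intro r hr
  rw [uIcc_of_le hs.2] at hr
  exact ext_Cmap z ⟨hs.1.trans hr.1, hr.2⟩

lemma Cmap_sub {z0 z1 : ℝ} (h0 : 0 < z0) (h1 : 0 < z1) :
    Cmap z1 = Cmap z0 + ∫ x in z0..z1, -(M (Cmap x)) := by
  have hcont : Continuous (fun x => -(M (Cmap x))) := (M.continuous.comp Cmap_cont).neg
  apply X_ext
  intro s hs
  rw [ext_add, ext_Cmap _ hs, ext_Cmap _ hs]
  have e : ext (∫ x in z0..z1, -(M (Cmap x))) s = ∫ x in z0..z1, ext (-(M (Cmap x))) s := by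
    have := (ContinuousLinearMap.intervalIntegral_comp_comm (ev s)
      (hcont.intervalIntegrable (μ := MeasureTheory.volume) z0 z1))
    simpa using this.symm
  rw [e]
  have hpos : ∀ x ∈ uIcc z0 z1, 0 < x := by
    intro x hx
    exact lt_of_lt_of_le (lt_min h0 h1) hx.1
  have hd : ∀ x ∈ uIcc z0 z1, HasDerivAt (fun x => Real.cos (√x * (1 - s)))
      (ext (-(M (Cmap x))) s) x := by
    intro x hx
    have hx0 := hpos x hx
    have e2 : ext (-(M (Cmap x))) s = - ((1 - s)/2 * (Real.sin (√x * (1 - s)) / √x)) := by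
      rw [← ext_M_Cmap hx0 hs, ext_neg]
    rw [e2]
    have h2 := ((Real.hasDerivAt_sqrt hx0.ne').mul_const (1 - s)).cos
    convert h2 using 1
    have : √x ≠ 0 := Real.sqrt_ne_zero'.2 hx0
    field_simp
  rw [intervalIntegral.integral_eq_sub_of_hasDerivAt hd]
  · ring
  · apply Continuous.intervalIntegrable
    exact (ev s).continuous.comp hcont

lemma hasDerivAt_Cmap {z : ℝ} (hz : 0 < z) : HasDerivAt (fun x => Cmap x) (-(M (Cmap z))) z := by
  have hcont : Continuous (fun x => -(M (Cmap x))) := (M.continuous.comp Cmap_cont).neg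
  have h := (hcont.integral_hasStrictDerivAt z z).hasDerivAt.const_add (Cmap z)
  apply h.congr_of_eventuallyEq
  filter_upwards [lt_mem_nhds hz] with x hx
  exact Cmap_sub hz hx

lemma evolve_pos {z t : ℝ} (hz : 0 < z) (ht : 0 ≤ t) :
    NormedSpace.exp (t • M) (Cmap (z + t)) = Cmap z := by
  have key : ∀ x : ℝ, 0 ≤ x → HasDerivAt (fun t => NormedSpace.exp (t • M) (Cmap (z + t))) 0 x := by
    intro x hx
    have h1 : HasDerivAt (fun t : ℝ => NormedSpace.exp (t • M)) (NormedSpace.exp (x • M) * M) x :=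
      hasDerivAt_exp_smul_const M x
    have h2 : HasDerivAt (fun t : ℝ => Cmap (z + t)) (-(M (Cmap (z + x)))) x := by
      have := hasDerivAt_Cmap (z := z + x) (by linarith)
      exact HasDerivAt.comp_const_add z x this
    have h3 := h1.clm_apply h2
    convert h3 using 1
    simp
  have h := constant_of_has_deriv_right_zero (a := 0) (b := t)
    (f := fun t => NormedSpace.exp (t • M) (Cmap (z + t)))
    (fun x hx => (key x hx.1).continuousAt.continuousWithinAt)
    (fun x hx => (key x hx.1).hasDerivWithinAt) t ⟨ht, le_refl _⟩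
  simpa using h

lemma evolve {z t : ℝ} (hz : 0 ≤ z) (ht : 0 ≤ t) :
    NormedSpace.exp (t • M) (Cmap (z + t)) = Cmap z := by
  have hclosed : IsClosed {z : ℝ | NormedSpace.exp (t • M) (Cmap (z + t)) = Cmap z} := by
    apply isClosed_eq
    · exact (NormedSpace.exp (t • M)).continuous.comp (Cmap_cont.comp (by fun_prop))
    · exact Cmap_cont
  have hsub : Ioi (0:ℝ) ⊆ {z : ℝ | NormedSpace.exp (t • M) (Cmap (z + t)) = Cmap z} :=
    fun z hz => evolve_pos hz ht
  have := hclosed.closure_subset_iff.2 hsub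
  rw [closure_Ioi] at this
  exact this hz

lemma evolve_neg {z t : ℝ} (hz : 0 ≤ z) (ht : 0 ≤ t) :
    NormedSpace.exp ((-t) • M) (Cmap z) = Cmap (z + t) := by
  rw [← evolve hz ht, neg_smul, exp_neg_mul]

end B595
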