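import Pool.Agent.B595.Lower

open Set Filter Topology MeasureTheory

namespace B595

lemma cos_sqrt_sq (x y : ℝ) : Real.cos (√(x^2) * y) = Real.cos (x * y) := by
  rw [Real.sqrt_sq_eq_abs]
  rcases abs_choice x with h | h
  · rw [h]
  · rw [h, neg_mul, Real.cos_neg]

lemma real_part {ν : Measure ℝ} {h : ℝ → ℂ} (hh : Integrable h ν) {α : ℝ}
    (hrep : ∀ ξ ∈ Icc (-1:ℝ) 1, ∫ x, Complex.exp (-(Complex.I * x * ξ)) * h x ∂ν
      = (((1 - |ξ|) ^ α : ℝ) : ℂ)) {s : ℝ} (hs : s ∈ Icc (0:ℝ) 1) :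
    ∫ x, (h x).re * Real.cos (x * (1 - s)) ∂ν = s ^ α := by
  have hb : ∀ ξ : ℝ, Integrable (fun x : ℝ => Complex.exp (-(Complex.I * x * ξ)) * h x) ν := by
    intro ξ
    refine hh.bdd_mul (c := 1) ?_ ?_
    · exact (Continuous.aestronglyMeasurable (by fun_prop))
    · refine Eventually.of_forall fun x => ?_
      rw [Complex.norm_exp]
      simp
  have h1 := hrep (1 - s) ⟨by linarith [hs.2], by linarith [hs.1]⟩
  have h2 := hrep (-(1 - s)) ⟨by linarith [hs.1], by linarith [hs.2]⟩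
  rw [abs_neg, abs_of_nonneg (by linarith [hs.2])] at h2
  rw [abs_of_nonneg (by linarith [hs.2])] at h1
  have h3 : ∫ x, (Complex.exp (-(Complex.I * x * ((1 - s : ℝ)))) * h x
      + Complex.exp (-(Complex.I * x * ((-(1 - s) : ℝ)))) * h x) ∂ν = 2 * ((s ^ α : ℝ) : ℂ) := by
    rw [integral_add (hb _) (hb _), h1, h2]
    have : 1 - (1 - s) = s := by ring
    rw [this]; ring
  have h4 : ∀ x : ℝ, (Complex.exp (-(Complex.I * x * ((1 - s : ℝ)))) * h x
      + Complex.exp (-(Complex.I * x * ((-(1 - s) : ℝ)))) * h x) =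
      2 * ((Real.cos (x * (1 - s)) : ℂ) * h x) := by
    intro x
    rw [← add_mul, Complex.ofReal_cos, Complex.cos]
    have e1 : -(Complex.I * x * ((1 - s : ℝ))) = -((x * (1 - s) : ℝ) : ℂ) * Complex.I := by
      push_cast; ring
    have e2 : -(Complex.I * x * ((-(1 - s) : ℝ))) = ((x * (1 - s) : ℝ) : ℂ) * Complex.I := by
      push_cast; ring
    rw [e1, e2]; ring
  simp_rw [h4] at h3
  rw [integral_const_mul] at h3
  have h5 : ∫ x, ((Real.cos (x * (1 - s)) : ℂ) * h x) ∂ν = ((s ^ α : ℝ) : ℂ) :=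
    mul_left_cancel₀ two_ne_zero h3
  have h6 : Integrable (fun x : ℝ => (Real.cos (x * (1 - s)) : ℂ) * h x) ν := by
    refine hh.bdd_mul (c := 1) ?_ ?_
    · exact (Continuous.aestronglyMeasurable (by fun_prop))
    · refine Eventually.of_forall fun x => ?_
      rw [Complex.norm_real]
      exact Real.abs_cos_le_one _
  have h7 := Complex.reCLM.integral_comp_comm h6
  rw [h5] at h7
  simp only [Complex.reCLM_apply, Complex.ofReal_re] at h7
  rw [← h7]
  congr 1
  funext x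
  rw [Complex.re_ofReal_mul]
  ring

lemma lower_bound {α : ℝ} (hα : 0 < α) {ν : Measure ℝ} {h : ℝ → ℂ}
    (hh : Integrable h ν)
    (hrep : ∀ ξ ∈ Icc (-1:ℝ) 1, ∫ x, Complex.exp (-(Complex.I * x * ξ)) * h x ∂ν
      = (((1 - |ξ|) ^ α : ℝ) : ℂ)) (b : ℝ) :
    Phi α b ≤ ∫ x, ‖h x‖ ∂ν := by
  have hnC : ∀ z, ‖Cmap z‖ ≤ 1 := by
    intro z
    apply norm_le_of zero_le_one
    intro x hx
    rw [ext_Cmap z hx]
    exact Real.abs_cos_le_one _
  have hF : Integrable (fun x : ℝ => (h x).re • Cmap (x^2)) ν := by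
    have hm : AEStronglyMeasurable (fun x : ℝ => (h x).re • Cmap (x^2)) ν := by
      apply AEStronglyMeasurable.smul hh.re.aestronglyMeasurable
      exact (Cmap_cont.comp (continuous_pow 2)).aestronglyMeasurable
    refine hh.norm.mono' hm (Eventually.of_forall fun x => ?_)
    rw [norm_smul]
    calc ‖(h x).re‖ * ‖Cmap (x^2)‖ ≤ ‖h x‖ * 1 := by
          gcongr
          · exact Complex.abs_re_le_norm _
          · exact hnC _
      _ = _ := mul_one _
  have hτ : ∫ x, (h x).re • Cmap (x^2) ∂ν = tau α hα := by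
    apply X_ext
    intro s hs
    have h1 := (ev s).integral_comp_comm hF
    simp only [ev_apply, map_smul, smul_eq_mul] at h1
    rw [← h1, ext_tau hα hs, ← real_part hh hrep hs]
    congr 1
    funext x
    rw [ext_Cmap _ hs, cos_sqrt_sq]
  set L : X →L[ℝ] ℝ := (ev 0).comp (NormedSpace.exp ((-(b^2)) • M)) with hL
  have hLC : ∀ x : ℝ, L (Cmap (x^2)) = Real.cos (√(x^2 + b^2)) := by
    intro x
    have : NormedSpace.exp ((-(b^2)) • M) (Cmap (x^2)) = Cmap (x^2 + b^2) :=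
      evolve_neg (sq_nonneg x) (sq_nonneg b)
    rw [hL, ContinuousLinearMap.comp_apply, this, ev_apply,
      ext_Cmap _ ⟨le_refl _, zero_le_one⟩]
    simp
  have h2 := L.integral_comp_comm hF
  rw [hτ] at h2
  simp only [map_smul, smul_eq_mul, hLC] at h2
  have h3 : Phi α b = - L (tau α hα) := by rw [Phi_eq hα]; rfl
  rw [h3, ← h2]
  calc -∫ x, (h x).re * Real.cos √(x^2 + b^2) ∂ν ≤ |∫ x, (h x).re * Real.cos √(x^2 + b^2) ∂ν| :=
        neg_le_abs _
    _ = ‖∫ x, (h x).re * Real.cos √(x^2 + b^2) ∂ν‖ := rfl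
    _ ≤ ∫ x, ‖h x‖ ∂ν := by
        apply norm_integral_le_of_norm_le hh.norm
        refine Eventually.of_forall fun x => ?_
        rw [norm_mul]
        calc ‖(h x).re‖ * ‖Real.cos √(x^2 + b^2)‖ ≤ ‖h x‖ * 1 := by
              gcongr
              · exact Complex.abs_re_le_norm _
              · exact Real.abs_cos_le_one _
          _ = _ := mul_one _

end B595
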