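import Pool.Agent.B595.Bk2

open Set Filter Topology MeasureTheory

namespace B595

lemma pr_bound {v : ℝ → ℝ} (hv : Continuous v) :
    ∃ C : ℝ, 0 ≤ C ∧ ∀ s ∈ Icc (0:ℝ) 1, |pr v s| ≤ C * s := by
  obtain ⟨C, hC⟩ := (isCompact_Icc (a := (0:ℝ)) (b := 1)).exists_bound_of_continuousOn hv.continuousOn
  refine ⟨C, (norm_nonneg _).trans (hC 0 ⟨le_refl _, zero_le_one⟩), fun s hs => ?_⟩
  have h : ‖∫ r in (0:ℝ)..s, v r‖ ≤ C * |s - 0| := by
    apply intervalIntegral.norm_integral_le_of_norm_le_const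
    intro r hr
    rw [uIoc_of_le hs.1] at hr
    exact hC r ⟨hr.1.le, hr.2.trans hs.2⟩
  rw [sub_zero, abs_of_nonneg hs.1] at h
  exact h

lemma intInt_rpow_mul {p : ℝ} (hp : -1 < p) {v : ℝ → ℝ} (hv : Continuous v) :
    IntervalIntegrable (fun s => s ^ p * v s) volume 0 1 :=
  (intervalIntegral.intervalIntegrable_rpow' hp).mul_continuousOn hv.continuousOn

lemma intInt_of_bound {p q C : ℝ} (hp : -1 < p + q) {u : ℝ → ℝ} (hu : Continuous u)
    (h : ∀ s ∈ Ioc (0:ℝ) 1, |u s| ≤ C * s ^ q) :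
    IntervalIntegrable (fun s => s ^ p * u s) volume 0 1 := by
  have hg : IntervalIntegrable (fun s : ℝ => C * s ^ (p + q)) volume 0 1 :=
    (intervalIntegral.intervalIntegrable_rpow' hp).const_mul C
  refine hg.mono_fun' ?_ ?_
  · rw [uIoc_of_le zero_le_one]
    apply ContinuousOn.aestronglyMeasurable _ measurableSet_Ioc
    intro s hs
    exact ((Real.continuousAt_rpow_const s p (Or.inl hs.1.ne')).mul hu.continuousAt).continuousWithinAt
  · rw [uIoc_of_le zero_le_one]
    refine (ae_restrict_mem measurableSet_Ioc).mono fun s hs => ?_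
    simp only
    rw [Real.norm_eq_abs, abs_mul, abs_of_nonneg (Real.rpow_nonneg hs.1.le _), Real.rpow_add hs.1]
    have := h s hs
    have h2 := Real.rpow_nonneg hs.1.le p
    calc s ^ p * |u s| ≤ s ^ p * (C * s ^ q) := by gcongr
      _ = _ := by ring

lemma intInt_pr {α : ℝ} (hα : 0 < α) {v : ℝ → ℝ} (hv : Continuous v) :
    IntervalIntegrable (fun s => s ^ (α - 2) * pr v s) volume 0 1 := by
  obtain ⟨C, hC0, hC⟩ := pr_bound hv
  refine intInt_of_bound (q := 1) (C := C) (by linarith) (pr_cont hv) fun s hs => ?_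
  rw [Real.rpow_one]
  exact hC s ⟨hs.1.le, hs.2⟩

lemma ibp {α : ℝ} (hα : 0 < α) (hα1 : α < 1) {v : ℝ → ℝ} (hv : Continuous v) :
    pr v 1 + (1 - α) * ∫ s in (0:ℝ)..1, s ^ (α - 2) * pr v s = ∫ s in (0:ℝ)..1, s ^ (α - 1) * v s := by
  obtain ⟨C, hC0, hC⟩ := pr_bound hv
  have hcont : ContinuousOn (fun s : ℝ => s ^ (α - 1) * pr v s) (Icc 0 1) := by
    intro s hs
    rcases eq_or_lt_of_le hs.1 with h0 | h0
    · subst h0
      have hz : (0:ℝ) ^ (α - 1) * pr v 0 = 0 := by rw [pr_zero, mul_zero]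
      change Tendsto (fun s => s ^ (α - 1) * pr v s) (𝓝[Icc 0 1] 0) (𝓝 ((0:ℝ) ^ (α - 1) * pr v 0))
      rw [hz]
      have hlim : Tendsto (fun s : ℝ => C * s ^ α) (𝓝[Icc 0 1] 0) (𝓝 0) := by
        have : Continuous (fun s : ℝ => C * s ^ α) :=
          continuous_const.mul (Real.continuous_rpow_const hα.le)
        have h2 := this.tendsto 0
        simp only [Real.zero_rpow hα.ne', mul_zero] at h2
        exact h2.mono_left nhdsWithin_le_nhds
      refine squeeze_zero_norm' ?_ hlim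
      filter_upwards [self_mem_nhdsWithin] with s hs
      rcases eq_or_lt_of_le hs.1 with h1 | h1
      · subst h1
        rw [hz, norm_zero]; positivity
      · rw [norm_mul, Real.norm_eq_abs, Real.norm_eq_abs, abs_of_nonneg (Real.rpow_nonneg hs.1 _)]
        have e : s ^ α = s ^ (α - 1) * s := by
          rw [← Real.rpow_add_one h1.ne']; ring_nf
        rw [e]
        have := hC s hs
        have h2 := Real.rpow_nonneg hs.1 (α - 1)
        calc s ^ (α - 1) * |pr v s| ≤ s ^ (α - 1) * (C * s) := by gcongr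
          _ = _ := by ring
    · exact ((Real.continuousAt_rpow_const s _ (Or.inl h0.ne')).mul
        (pr_cont hv).continuousAt).continuousWithinAt
  have hder : ∀ s ∈ Ioo (0:ℝ) 1, HasDerivAt (fun s : ℝ => s ^ (α - 1) * pr v s)
      ((α - 1) * (s ^ (α - 2) * pr v s) + s ^ (α - 1) * v s) s := by
    intro s hs
    have h1 := (Real.hasDerivAt_rpow_const (x := s) (p := α - 1) (Or.inl hs.1.ne')).mul
      (hasDerivAt_pr hv s)
    refine h1.congr_deriv ?_
    have : α - 1 - 1 = α - 2 := by ring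
    rw [this]; ring
  have hi1 := (intInt_pr hα hv).const_mul (α - 1)
  have hi2 := intInt_rpow_mul (p := α - 1) (by linarith) hv
  have h := intervalIntegral.integral_eq_sub_of_hasDerivAt_of_le zero_le_one hcont hder
    (hi1.add hi2)
  rw [intervalIntegral.integral_add hi1 hi2, intervalIntegral.integral_const_mul] at h
  simp only [Real.one_rpow, one_mul, pr_zero, mul_zero, sub_zero] at h
  linarith

lemma alpha_int {α : ℝ} (hα : 0 < α) {f : ℝ → ℝ} (hf : Continuous f) :
    α * ∫ s in (0:ℝ)..1, s ^ (α - 1) * pr f s = pr f 1 - ∫ s in (0:ℝ)..1, s ^ α * f s := by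
  have hder : ∀ s ∈ Ioo (0:ℝ) 1, HasDerivAt (fun s : ℝ => s ^ α * pr f s)
      (α * (s ^ (α - 1) * pr f s) + s ^ α * f s) s := by
    intro s hs
    have h1 := (Real.hasDerivAt_rpow_const (x := s) (p := α) (Or.inl hs.1.ne')).mul
      (hasDerivAt_pr hf s)
    refine h1.congr_deriv ?_
    ring
  have hi1 := (intInt_rpow_mul (p := α - 1) (by linarith) (pr_cont hf)).const_mul α
  have hi2 := intInt_rpow_mul (p := α) (by linarith) hf
  have hco : ContinuousOn (fun s : ℝ => s ^ α * pr f s) (Icc 0 1) :=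
    ((Real.continuous_rpow_const hα.le).mul (pr_cont hf)).continuousOn
  have h := intervalIntegral.integral_eq_sub_of_hasDerivAt_of_le zero_le_one hco hder (hi1.add hi2)
  rw [intervalIntegral.integral_add hi1 hi2, intervalIntegral.integral_const_mul] at h
  simp only [Real.one_rpow, one_mul, pr_zero, mul_zero, sub_zero] at h
  linarith

/-- the functional `Λ` -/
noncomputable def Lam (α : ℝ) (u : X) : ℝ :=
  ext u 1 + (1 - α) * ∫ s in (0:ℝ)..1, s ^ (α - 2) * ext u s

/-- admissible functions: primitives of continuous functions -/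
def Adm (u : X) (v : ℝ → ℝ) : Prop := Continuous v ∧ ∀ s ∈ Icc (0:ℝ) 1, ext u s = pr v s

lemma Adm.intInt {α : ℝ} (hα : 0 < α) {u : X} {v : ℝ → ℝ} (h : Adm u v) :
    IntervalIntegrable (fun s => s ^ (α - 2) * ext u s) volume 0 1 := by
  apply (intInt_pr hα h.1).congr_ae
  rw [uIoc_of_le zero_le_one]
  refine (ae_restrict_mem measurableSet_Ioc).mono fun s hs => ?_
  change s ^ (α - 2) * pr v s = s ^ (α - 2) * ext u s
  rw [h.2 s ⟨hs.1.le, hs.2⟩]

lemma Adm.Lam_eq {α : ℝ} (hα : 0 < α) (hα1 : α < 1) {u : X} {v : ℝ → ℝ} (h : Adm u v) :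
    Lam α u = ∫ s in (0:ℝ)..1, s ^ (α - 1) * v s := by
  rw [← ibp hα hα1 h.1]
  unfold Lam
  rw [h.2 1 ⟨zero_le_one, le_refl _⟩]
  congr 2
  apply intervalIntegral.integral_congr
  intro s hs
  rw [uIcc_of_le zero_le_one] at hs
  simp only [h.2 s hs]

lemma Adm_G (u : X) : Adm (G u) (pr (ext u)) :=
  ⟨pr_cont (ext_cont u), fun _ hs => ext_G' u hs⟩

lemma Adm_a (u : X) : Adm (a u) (fun s => 1/2 * ((1 - s) * ext u s)) := by
  refine ⟨by fun_prop, fun s hs => ?_⟩
  rw [ext_a' u hs]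
  unfold pr
  rw [intervalIntegral.integral_const_mul]

lemma Adm_phi (k : ℕ) : Adm (phi k) (fun s => (k * Real.pi) * Real.sin (k * Real.pi * s)) := by
  refine ⟨by fun_prop, fun s hs => ?_⟩
  rw [ext_phi k hs]
  have hc : Continuous (fun s : ℝ => (k * Real.pi) * Real.sin (k * Real.pi * s)) := by fun_prop
  apply eq_of_deriv_eq (f := fun s => 1 - Real.cos (k * Real.pi * s))
    (f' := fun s => (k * Real.pi) * Real.sin (k * Real.pi * s)) (g := pr _)
  · simp [pr_zero]
  · intro x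
    have h1 : HasDerivAt (fun r => (k * Real.pi) * r) ((k * Real.pi) * 1) x :=
      (hasDerivAt_id x).const_mul _
    refine (h1.cos.const_sub 1).congr_deriv ?_
    ring
  · intro x; exact hasDerivAt_pr hc x

/-- `J(α,w) = ∫ s^(α-1) (1-s) w(s) ds` -/
noncomputable def J (α : ℝ) (w : X) : ℝ := ∫ s in (0:ℝ)..1, s ^ (α - 1) * ((1 - s) * ext w s)

lemma Lam_a {α : ℝ} (hα : 0 < α) (hα1 : α < 1) (w : X) : Lam α (a w) = 1/2 * J α w := by
  rw [(Adm_a w).Lam_eq hα hα1]
  unfold J
  rw [← intervalIntegral.integral_const_mul]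
  congr 1
  funext s
  ring

lemma J_int {α : ℝ} (hα : 0 < α) (w : X) :
    IntervalIntegrable (fun s => s ^ (α - 1) * ((1 - s) * ext w s)) volume 0 1 :=
  intInt_rpow_mul (by linarith) (by fun_prop)

lemma J_add {α : ℝ} (hα : 0 < α) (u w : X) : J α (u + w) = J α u + J α w := by
  unfold J
  rw [← intervalIntegral.integral_add (J_int hα u) (J_int hα w)]
  congr 1
  funext s
  rw [ext_add]; ring

lemma J_smul (α c : ℝ) (w : X) : J α (c • w) = c * J α w := by
  unfold J
  rw [← intervalIntegral.integral_const_mul]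
  congr 1
  funext s
  rw [ext_smul]; ring

lemma J_sub {α : ℝ} (hα : 0 < α) (u w : X) : J α (u - w) = J α u - J α w := by
  have : u - w = u + (-1:ℝ) • w := by module
  rw [this, J_add hα, J_smul]; ring

/-- key identity -/
lemma Lam_B {α : ℝ} (hα : 0 < α) (hα1 : α < 1) {c : ℝ} (hc : 0 < c) {k : ℕ}
    (hk : (k * Real.pi)^2 - c ≠ 0) (hE : P (tau α hα) (E c) = 0) :
    α * Lam α (B c k) = ((k * Real.pi)^2 - c) * P (tau α hα) (B c k) := by
  rw [B_eq_G, (Adm_G _).Lam_eq hα hα1, alpha_int hα (ext_cont _)]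
  have h1 : pr (ext (F c k)) 1 = P one (F c k) := by
    unfold pr P
    congr 1
    funext s
    rw [ext_one, one_mul]
  have h2 : ∫ s in (0:ℝ)..1, s ^ α * ext (F c k) s = P (tau α hα) (F c k) := by
    unfold P
    apply intervalIntegral.integral_congr
    intro s hs
    rw [uIcc_of_le zero_le_one] at hs
    simp only [ext_tau hα hs]
  rw [h1, h2, P_one_F hc k hk, ← B_eq_G]
  unfold F
  rw [P_sub_right, P_smul_right, P_smul_right, hE]
  ring

end B595
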