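import Pool.Agent.B595.Evo

open Set Filter Topology

namespace B595

/-- the curve `exp(-t a) 1` -/
noncomputable def E (t : ℝ) : X := NormedSpace.exp ((-t) • a) one

lemma E_cont : Continuous E := by
  have h : Continuous (fun t : ℝ => NormedSpace.exp ((-t) • a)) := by
    have := (differentiable_exp_smul_const ℝ a).continuous
    exact this.comp continuous_neg
  exact h.clm_apply continuous_const

lemma hasDerivAt_exp_M (u : X) (t : ℝ) :
    HasDerivAt (fun t : ℝ => NormedSpace.exp ((-t) • M) u)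
      (-(M (NormedSpace.exp ((-t) • M) u))) t := by
  have h1 : HasDerivAt (fun t : ℝ => NormedSpace.exp (t • M)) (M * NormedSpace.exp ((-t) • M)) (-t) :=
    hasDerivAt_exp_smul_const' M (-t)
  have h2 := HasDerivAt.scomp t h1 (hasDerivAt_neg t)
  have h3 := h2.clm_apply (hasDerivAt_const t u)
  refine (h3.congr_deriv ?_)
  simp

lemma ext_M_zero (u : X) : ext (M u) 0 = 1/2 * P u one := by
  rw [ext_M _ ⟨le_refl _, zero_le_one⟩]
  unfold P
  simp only [ext_one, mul_one, sub_zero]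

lemma rho_formula (u : X) (c : ℝ) :
    ext (NormedSpace.exp ((-c) • M) u) 0 = ext u 0 - 1/2 * ∫ t in (0:ℝ)..c, P u (E t) := by
  have hd : ∀ t ∈ uIcc (0:ℝ) c, HasDerivAt (fun t => ext (NormedSpace.exp ((-t) • M) u) 0)
      (-(1/2 * P u (E t))) t := by
    intro t _
    have h1 := (ev 0).hasFDerivAt.comp_hasDerivAt t (hasDerivAt_exp_M u t)
    refine h1.congr_deriv ?_
    rw [map_neg, ev_apply, ext_M_zero, P_exp]
    rfl
  have hc : Continuous (fun t => -(1/2 * P u (E t))) := by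
    have : Continuous (fun t => P u (E t)) := (PL u).continuous.comp E_cont
    fun_prop
  have := intervalIntegral.integral_eq_sub_of_hasDerivAt hd (hc.intervalIntegrable _ _)
  rw [intervalIntegral.integral_neg, intervalIntegral.integral_const_mul] at this
  simp only [neg_zero, zero_smul, NormedSpace.exp_zero] at this
  have h1 : (1 : X →L[ℝ] X) u = u := rfl
  rw [h1] at this
  linarith

/-- the Bessel function `J_0` -/
noncomputable def J0 (x : ℝ) : ℝ := ∑' j : ℕ, (-1)^j / ((j.factorial : ℝ))^2 * (x/2)^(2*j)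

lemma a_pow_one (n : ℕ) {s : ℝ} (hs : s ∈ Icc (0:ℝ) 1) :
    ext ((a^n) one) s = (s * (2 - s) / 4)^n / n.factorial := by
  induction n generalizing s with
  | zero => simp [ext_one]
  | succ n ih =>
    rw [pow_succ', mul_apply_eq_comp, ext_a _ hs]
    have h1 : ∫ r in (0:ℝ)..s, (1 - r) * ext ((a^n) one) r =
        ∫ r in (0:ℝ)..s, (1 - r) * ((r * (2 - r) / 4)^n / n.factorial) := by
      apply intervalIntegral.integral_congr
      intro r hr
      rw [uIcc_of_le hs.1] at hr
      simp only [ih ⟨hr.1, hr.2.trans hs.2⟩]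
    rw [h1]
    have h2 : ∀ r ∈ uIcc (0:ℝ) s, HasDerivAt
        (fun r : ℝ => 2 * ((r * (2 - r) / 4)^(n+1) / (n+1).factorial))
        ((1 - r) * ((r * (2 - r) / 4)^n / n.factorial)) r := by
      intro r _
      have h3 : HasDerivAt (fun r : ℝ => r * (2 - r) / 4) ((1 * (2 - r) + r * (-1)) / 4) r :=
        (((hasDerivAt_id r).mul ((hasDerivAt_id r).const_sub 2))).div_const 4
      have h4 := ((h3.pow (n+1)).div_const ((n+1).factorial : ℝ)).const_mul 2
      refine h4.congr_deriv ?_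
      rw [Nat.factorial_succ]
      have : (n.factorial : ℝ) ≠ 0 := by positivity
      push_cast
      field_simp
      ring
    rw [intervalIntegral.integral_eq_sub_of_hasDerivAt h2
      (Continuous.intervalIntegrable (by fun_prop) _ _)]
    simp

lemma E_hasSum (t : ℝ) {s : ℝ} (hs : s ∈ Icc (0:ℝ) 1) :
    HasSum (fun j : ℕ => (-1)^j / ((j.factorial : ℝ))^2 * (t * (s * (2 - s)) / 4)^j)
      (ext (E t) s) := by
  have h := (hasSum_exp_apply ((-t) • a) one).mapL (ev s)
  have e : (fun j : ℕ => (-1)^j / ((j.factorial : ℝ))^2 * (t * (s * (2 - s)) / 4)^j) =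
      fun n : ℕ => ev s (((n.factorial:ℝ)⁻¹) • ((((-t) • a)^n) one)) := by
    funext n
    simp only [smul_pow, smul_apply, map_smul, ev_apply, a_pow_one n hs, smul_eq_mul]
    have : (n.factorial : ℝ) ≠ 0 := by positivity
    have h2 : (-t)^n = (-1)^n * t^n := by rw [← mul_pow]; ring
    rw [h2, show t * (s * (2 - s)) / 4 = t * (s * (2 - s) / 4) by ring, mul_pow]
    field_simp
  rw [e]; exact h

lemma E_eq_J0 (β : ℝ) {s : ℝ} (hs : s ∈ Icc (0:ℝ) 1) :
    ext (E (β^2)) s = J0 (β * √(s * (2 - s))) := by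
  rw [← (E_hasSum (β^2) hs).tsum_eq]
  unfold J0
  congr 1
  funext j
  congr 1
  have h0 : (β * √(s * (2 - s)) / 2)^2 = β^2 * (s * (2 - s)) / 4 := by
    rw [div_pow, mul_pow, Real.sq_sqrt (mul_nonneg hs.1 (by linarith [hs.2]))]
    norm_num
  rw [pow_mul, h0]

/-- the function `s ^ α` as an element of `X` -/
noncomputable def tau (α : ℝ) (hα : 0 < α) : X := mk (fun s => s ^ α) (Real.continuous_rpow_const hα.le)

lemma ext_tau {α : ℝ} (hα : 0 < α) {s : ℝ} (hs : s ∈ Icc (0:ℝ) 1) :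
    ext (tau α hα) s = s ^ α := ext_mk _ _ hs

/-- `K(α,β) = ∫_0^1 (1-ξ)^α J_0(β √(1-ξ²)) dξ` -/
noncomputable def K (α β : ℝ) : ℝ := ∫ ξ in (0:ℝ)..1, (1 - ξ) ^ α * J0 (β * √(1 - ξ^2))

lemma K_eq {α : ℝ} (hα : 0 < α) (β : ℝ) : K α β = P (tau α hα) (E (β^2)) := by
  unfold K P
  have h := intervalIntegral.integral_comp_sub_left (a := 0) (b := 1)
    (fun s => ext (tau α hα) s * ext (E (β^2)) s) 1
  simp only [sub_self, sub_zero] at h
  rw [← h]
  apply intervalIntegral.integral_congr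
  intro ξ hξ
  rw [uIcc_of_le zero_le_one] at hξ
  have hs : 1 - ξ ∈ Icc (0:ℝ) 1 := ⟨by linarith [hξ.2], by linarith [hξ.1]⟩
  simp only [ext_tau hα hs, E_eq_J0 β hs]
  congr 4
  ring

/-- `Φ(α,b) = ∫_0^b β K(α,β) dβ` -/
noncomputable def Phi (α b : ℝ) : ℝ := ∫ β in (0:ℝ)..b, β * K α β

lemma Phi_eq {α : ℝ} (hα : 0 < α) (b : ℝ) :
    Phi α b = - ext (NormedSpace.exp ((-(b^2)) • M) (tau α hα)) 0 := by
  rw [rho_formula, ext_tau hα ⟨le_refl _, zero_le_one⟩, Real.zero_rpow hα.ne']
  have hc : Continuous (fun t => P (tau α hα) (E t)) := (PL (tau α hα)).continuous.comp E_cont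
  have h := intervalIntegral.integral_comp_mul_deriv (a := 0) (b := b)
    (f := fun β : ℝ => β^2) (f' := fun β => 2 * β) (g := fun t => P (tau α hα) (E t))
    (fun x _ => by simpa using hasDerivAt_pow 2 x) (by fun_prop) hc
  simp only [Function.comp_def] at h
  have e : Phi α b = 1/2 * ∫ x in (0:ℝ)..b, P (tau α hα) (E (x^2)) * (2 * x) := by
    unfold Phi
    rw [← intervalIntegral.integral_const_mul]
    congr 1
    funext β
    rw [K_eq hα]; ring
  rw [e, h]
  norm_num

end B595
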