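import Pool.Agent.B595.Even3

open Set Filter Topology MeasureTheory

namespace B595

lemma odd_point {C κ c β s R y : ℝ} (hR : 0 ≤ R) (hy0 : 0 ≤ y) (hy2 : y ≤ 2)
    (f1 : κ ≤ C/2 * (s * (1 - s))) (f2 : c/2 * (s * (1 - s)) ≤ C/2 * (s * (1 - s)))
    (f5 : κ ≤ β) :
    -2 * (C/2 * (R * s - R * s * s) - κ * R) ≤ R * (β - c/2 * (s * (1 - s))) * y := by
  set T := C/2 * (s * (1 - s)) with hTd
  have g1 : -(T - κ) ≤ β - c/2 * (s * (1 - s)) := by linarith
  have g2 : -(T - κ) * y ≤ (β - c/2 * (s * (1 - s))) * y := mul_le_mul_of_nonneg_right g1 hy0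
  have g3 : -2 * (T - κ) ≤ -(T - κ) * y := by
    have : 0 ≤ T - κ := by linarith
    nlinarith
  have g4 := mul_le_mul_of_nonneg_left (g3.trans g2) hR
  have e1 : -2 * (C/2 * (R * s - R * s * s) - κ * R) = R * (-2 * (T - κ)) := by
    rw [hTd]; ring
  have e2 : R * (β - c/2 * (s * (1 - s))) * y = R * ((β - c/2 * (s * (1 - s))) * y) := by ring
  rw [e1, e2]
  exact g4

lemma odd_aux {α C κ s1 s2 : ℝ} (hα : 0 < α) (hα1 : α < 1) (hC2 : C ≤ 12)
    (h1 : 0 < s1) (h12 : s1 ≤ 1/2) (h2 : 1/2 ≤ s2) (h22 : s2 < 1)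
    (ha : C/2 * (s1 * (1 - s1)) ≤ 1 - α) (hb : C/2 * (s2 * (1 - s2)) ≤ 1 - α)
    (hκ1 : κ ≤ C/2 * (s1 * (1 - s1))) (hκ2 : κ ≤ C/2 * (s2 * (1 - s2)))
    (hT : C/2 * ((s2 ^ α - s1 ^ α) / α - (s2 ^ (α + 1) - s1 ^ (α + 1)) / (α + 1))
      - κ * ((s2 ^ (α - 1) - s1 ^ (α - 1)) / (α - 1)) ≤ 1)
    {c : ℝ} (hc : 0 ≤ c) (hcC : c ≤ C) {k : ℕ} (hk : Odd k) :
    0 ≤ LL α c (phi k) := by
  have hC : 0 ≤ C := hc.trans hcC
  rw [LL_eq hα c (Adm_phi k), second_eq hα]
  have hJ := J_nonneg (α := α) (NN_comb (NN_phi k) hc (hcC.trans hC2))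
  have hJ2 : 0 ≤ c^2/4 * J α (a (phi k) - (c/3) • a (a (phi k))) := by positivity
  have hphi1 : ext (phi k) 1 = 2 := by
    rw [ext_phi k ⟨zero_le_one, le_refl _⟩, mul_one, Real.cos_nat_mul_pi, hk.neg_one_pow]
    norm_num
  have hφ2 : ∀ s ∈ Icc (0:ℝ) 1, ext (phi k) s ≤ 2 := by
    intro s hs
    rw [ext_phi k hs]
    linarith [Real.neg_one_le_cos (k * Real.pi * s)]
  have hint := wt_int hα c (Adm_phi k)
  have hs1s2 : s1 ≤ s2 := h12.trans h2
  have i1 : IntervalIntegrable (fun s => wt α c s * ext (phi k) s) volume 0 s1 := by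
    apply hint.mono_set
    rw [uIcc_of_le h1.le, uIcc_of_le zero_le_one]
    exact Icc_subset_Icc le_rfl (by linarith)
  have i2 : IntervalIntegrable (fun s => wt α c s * ext (phi k) s) volume s1 s2 := by
    apply hint.mono_set
    rw [uIcc_of_le hs1s2, uIcc_of_le zero_le_one]
    exact Icc_subset_Icc h1.le h22.le
  have i3 : IntervalIntegrable (fun s => wt α c s * ext (phi k) s) volume s2 1 := by
    apply hint.mono_set
    rw [uIcc_of_le h22.le, uIcc_of_le zero_le_one]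
    exact Icc_subset_Icc (by linarith) le_rfl
  have hsplit : ∫ s in (0:ℝ)..1, wt α c s * ext (phi k) s =
      (∫ s in (0:ℝ)..s1, wt α c s * ext (phi k) s) + (∫ s in s1..s2, wt α c s * ext (phi k) s)
        + ∫ s in s2..1, wt α c s * ext (phi k) s := by
    rw [intervalIntegral.integral_add_adjacent_intervals i1 i2,
      intervalIntegral.integral_add_adjacent_intervals (i1.trans i2) i3]
  have hmul : ∀ s ∈ Icc (0:ℝ) 1, c/2 * (s * (1 - s)) ≤ C/2 * (s * (1 - s)) := by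
    intro s hs
    have : 0 ≤ s * (1 - s) := mul_nonneg hs.1 (by linarith [hs.2])
    nlinarith
  have p1 : 0 ≤ ∫ s in (0:ℝ)..s1, wt α c s * ext (phi k) s := by
    apply intervalIntegral.integral_nonneg h1.le
    intro s hs
    have hs' : s ∈ Icc (0:ℝ) 1 := ⟨hs.1, by linarith [hs.2]⟩
    apply mul_nonneg _ (NN_phi k s hs')
    unfold wt
    apply mul_nonneg (Real.rpow_nonneg hs.1 _)
    have e1 := hmul s hs'
    have e2 : s * (1 - s) ≤ s1 * (1 - s1) := by nlinarith [hs.1, hs.2]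
    nlinarith
  have p3 : 0 ≤ ∫ s in s2..1, wt α c s * ext (phi k) s := by
    apply intervalIntegral.integral_nonneg h22.le
    intro s hs
    have hs' : s ∈ Icc (0:ℝ) 1 := ⟨by linarith [hs.1], hs.2⟩
    apply mul_nonneg _ (NN_phi k s hs')
    unfold wt
    apply mul_nonneg (Real.rpow_nonneg hs'.1 _)
    have e1 := hmul s hs'
    have e2 : s * (1 - s) ≤ s2 * (1 - s2) := by nlinarith [hs.1, hs.2]
    nlinarith
  have h0 : (0:ℝ) ∉ uIcc s1 s2 := by
    rw [uIcc_of_le hs1s2]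
    intro h
    linarith [h.1]
  have j1 : IntervalIntegrable (fun s : ℝ => s ^ (α - 1)) volume s1 s2 :=
    intervalIntegral.intervalIntegrable_rpow (Or.inr h0)
  have j2 : IntervalIntegrable (fun s : ℝ => s ^ α) volume s1 s2 :=
    intervalIntegral.intervalIntegrable_rpow (Or.inr h0)
  have j3 : IntervalIntegrable (fun s : ℝ => s ^ (α - 2)) volume s1 s2 :=
    intervalIntegral.intervalIntegrable_rpow (Or.inr h0)
  have hTint : ∫ s in s1..s2, (C/2 * (s ^ (α - 1) - s ^ α) - κ * s ^ (α - 2)) =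
      C/2 * ((s2 ^ α - s1 ^ α) / α - (s2 ^ (α + 1) - s1 ^ (α + 1)) / (α + 1))
      - κ * ((s2 ^ (α - 1) - s1 ^ (α - 1)) / (α - 1)) := by
    rw [intervalIntegral.integral_sub ((j1.sub j2).const_mul _) (j3.const_mul _),
      intervalIntegral.integral_const_mul, intervalIntegral.integral_const_mul,
      intervalIntegral.integral_sub j1 j2,
      integral_rpow (Or.inr ⟨by linarith, h0⟩), integral_rpow (Or.inr ⟨by linarith, h0⟩),
      integral_rpow (Or.inr ⟨by linarith, h0⟩)]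
    have e1 : α - 1 + 1 = α := by ring
    have e2 : α - 2 + 1 = α - 1 := by ring
    rw [e1, e2]
  have p2 : -2 * 1 ≤ ∫ s in s1..s2, wt α c s * ext (phi k) s := by
    rw [← hTint] at hT
    have q1 : -2 * (∫ s in s1..s2, (C/2 * (s ^ (α - 1) - s ^ α) - κ * s ^ (α - 2))) ≤
        ∫ s in s1..s2, wt α c s * ext (phi k) s := by
      rw [← intervalIntegral.integral_const_mul]
      apply intervalIntegral.integral_mono_on hs1s2
        ((((j1.sub j2).const_mul _).sub (j3.const_mul _)).const_mul _) i2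
      intro s hs
      have hs0 : 0 < s := h1.trans_le hs.1
      have hs' : s ∈ Icc (0:ℝ) 1 := ⟨hs0.le, by linarith [hs.2]⟩
      have e1 : s ^ (α - 1) = s ^ (α - 2) * s := by
        rw [← Real.rpow_add_one hs0.ne']; ring_nf
      have e2 : s ^ α = s ^ (α - 2) * s * s := by
        rw [← e1, ← Real.rpow_add_one hs0.ne']; ring_nf
      have f1 : κ ≤ C/2 * (s * (1 - s)) := by
        rcases le_total s (1/2) with h | h
        · have h5 : s1 * (1 - s1) ≤ s * (1 - s) := by nlinarith [hs.1]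
          exact hκ1.trans (mul_le_mul_of_nonneg_left h5 (by positivity))
        · have h5 : s2 * (1 - s2) ≤ s * (1 - s) := by nlinarith [hs.2]
          exact hκ2.trans (mul_le_mul_of_nonneg_left h5 (by positivity))
      have := odd_point (R := s ^ (α - 2)) (Real.rpow_nonneg hs0.le _) (NN_phi k s hs')
        (hφ2 s hs') f1 (hmul s hs') (hκ1.trans ha)
      rw [e2, e1]
      exact this
    linarith
  rw [hsplit, hphi1]
  linarith

lemma rpow5 {r : ℝ} (hr : 0 < r) (p : ℝ) : (r^5) ^ p = r ^ (5 * p) := by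
  rw [← Real.rpow_natCast, ← Real.rpow_mul hr.le]; norm_num

lemma odd_fifth {c : ℝ} (hc : 0 ≤ c) (hcC : c ≤ 987/100) {k : ℕ} (hk : Odd k) :
    0 ≤ LL (1/5) c (phi k) := by
  refine odd_aux (α := 1/5) (C := 987/100) (κ := 7986/10000) (s1 := (727/1000)^5)
    (s2 := (9556/10000)^5) (by norm_num) (by norm_num) (by norm_num) (by norm_num) (by norm_num)
    (by norm_num) (by norm_num) (by norm_num) (by norm_num) (by norm_num) (by norm_num) ?_ hc hcC hk
  rw [rpow5 (by norm_num), rpow5 (by norm_num), rpow5 (by norm_num), rpow5 (by norm_num),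
    rpow5 (by norm_num), rpow5 (by norm_num)]
  have e1 : (5:ℝ) * (1/5) = 1 := by norm_num
  have e2 : (5:ℝ) * (1/5 + 1) = (6:ℕ) := by norm_num
  have e3 : (5:ℝ) * (1/5 - 1) = -((4:ℕ):ℝ) := by norm_num
  rw [e1, e2, e3, Real.rpow_one, Real.rpow_one, Real.rpow_natCast, Real.rpow_natCast,
    Real.rpow_neg (by norm_num), Real.rpow_neg (by norm_num), Real.rpow_natCast, Real.rpow_natCast]
  norm_num

lemma odd_two_fifths {c : ℝ} (hc : 0 ≤ c) (hcC : c ≤ 885/100) {k : ℕ} (hk : Odd k) :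
    0 ≤ LL (2/5) c (phi k) := by
  refine odd_aux (α := 2/5) (C := 885/100) (κ := 5976/10000) (s1 := (694/1000)^5)
    (s2 := (9654/10000)^5) (by norm_num) (by norm_num) (by norm_num) (by norm_num) (by norm_num)
    (by norm_num) (by norm_num) (by norm_num) (by norm_num) (by norm_num) (by norm_num) ?_ hc hcC hk
  rw [rpow5 (by norm_num), rpow5 (by norm_num), rpow5 (by norm_num), rpow5 (by norm_num),
    rpow5 (by norm_num), rpow5 (by norm_num)]
  have e1 : (5:ℝ) * (2/5) = (2:ℕ) := by norm_num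
  have e2 : (5:ℝ) * (2/5 + 1) = (7:ℕ) := by norm_num
  have e3 : (5:ℝ) * (2/5 - 1) = -((3:ℕ):ℝ) := by norm_num
  rw [e1, e2, e3, Real.rpow_natCast, Real.rpow_natCast, Real.rpow_natCast, Real.rpow_natCast,
    Real.rpow_neg (by norm_num), Real.rpow_neg (by norm_num), Real.rpow_natCast, Real.rpow_natCast]
  norm_num

end B595
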