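import Pool.Agent.B595.Num
import Pool.Agent.B595.Odd

open Set Filter Topology MeasureTheory

namespace B595

lemma qq_mono {α c C s : ℝ} (hα : 0 ≤ α) (hα1 : α ≤ 1) (hcC : c ≤ C) (hs : 0 ≤ s) :
    qq α C s ≤ qq α c s := by
  unfold qq
  have : 0 ≤ (2 - α) * s + α * s^2 := by
    have : 0 ≤ 2 - α := by linarith
    positivity
  nlinarith

lemma sq_cub_nonneg {s : ℝ} (hs : s ∈ Icc (0:ℝ) 1) : 0 ≤ s * (1 - s)^2 ∧ s * (1 - s)^2 ≤ 4/27 := by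
  constructor
  · exact mul_nonneg hs.1 (sq_nonneg _)
  · nlinarith [mul_nonneg hs.1 (sq_nonneg (s - 1/3)), sq_nonneg (s - 1/3), hs.1, hs.2,
      mul_nonneg (by linarith [hs.2] : (0:ℝ) ≤ 1 - s) (sq_nonneg (s - 1/3))]

lemma hp_fifth {c : ℝ} (hcC : c ≤ 987/100) : ∀ s ∈ Icc (0:ℝ) 1,
    0 ≤ s + (1 - 1/5) * (1 - s) - c/2 * (s * (1 - s)^2) := by
  intro s hs
  obtain ⟨h1, h2⟩ := sq_cub_nonneg hs
  have h3 : c/2 * (s * (1 - s)^2) ≤ (987/100)/2 * (s * (1 - s)^2) :=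
    mul_le_mul_of_nonneg_right (by linarith) h1
  nlinarith [hs.1]

lemma hp_two_fifths {c : ℝ} (hcC : c ≤ 885/100) : ∀ s ∈ Icc (0:ℝ) 1,
    0 ≤ s + (1 - 2/5) * (1 - s) - c/2 * (s * (1 - s)^2) := by
  intro s hs
  obtain ⟨h1, h2⟩ := sq_cub_nonneg hs
  have h3 : c/2 * (s * (1 - s)^2) ≤ (885/100)/2 * (s * (1 - s)^2) :=
    mul_le_mul_of_nonneg_right (by linarith) h1
  nlinarith [hs.1, mul_nonneg hs.1 (sq_nonneg (s - 3/10)),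
    mul_nonneg (by linarith [hs.2] : (0:ℝ) ≤ 1 - s) (sq_nonneg (s - 3/10))]

lemma hR_fifth {c : ℝ} (hcC : c ≤ 987/100) : ∀ s ∈ Icc (0:ℝ) 1,
    0 ≤ (1 - 1/5) + (1/5 + 2) * s - 5 * c / 12 * (s * (1 - s)^2) := by
  intro s hs
  obtain ⟨h1, h2⟩ := sq_cub_nonneg hs
  have h3 : 5 * c/12 * (s * (1 - s)^2) ≤ 5 * (987/100)/12 * (s * (1 - s)^2) :=
    mul_le_mul_of_nonneg_right (by linarith) h1
  nlinarith [hs.1]

lemma hR_two_fifths {c : ℝ} (hcC : c ≤ 885/100) : ∀ s ∈ Icc (0:ℝ) 1,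
    0 ≤ (1 - 2/5) + (2/5 + 2) * s - 5 * c / 12 * (s * (1 - s)^2) := by
  intro s hs
  obtain ⟨h1, h2⟩ := sq_cub_nonneg hs
  have h3 : 5 * c/12 * (s * (1 - s)^2) ≤ 5 * (885/100)/12 * (s * (1 - s)^2) :=
    mul_le_mul_of_nonneg_right (by linarith) h1
  nlinarith [hs.1]

lemma hq1_fifth {c : ℝ} (hcC : c ≤ 987/100) : ∀ s ∈ Icc (0:ℝ) (1/2), 0 ≤ qq (1/5) c s := by
  intro s hs
  refine le_trans ?_ (qq_mono (by norm_num) (by norm_num) hcC hs.1)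
  unfold qq
  nlinarith [hs.1, hs.2]

lemma hq1_two_fifths {c : ℝ} (hcC : c ≤ 885/100) : ∀ s ∈ Icc (0:ℝ) (1/2), 0 ≤ qq (2/5) c s := by
  intro s hs
  refine le_trans ?_ (qq_mono (by norm_num) (by norm_num) hcC hs.1)
  unfold qq
  nlinarith [hs.1, hs.2]

lemma hq2_aux {α c C : ℝ} (hα : 0 ≤ α) (hα1 : α ≤ 1) (hcC : c ≤ C)
    (h : ∀ s ∈ Icc (0:ℝ) (1/2), 0 ≤ (1 - s)^3 * qq α C s + s^3 * qq α C (1 - s)) :
    ∀ s ∈ Icc (0:ℝ) (1/2), 0 ≤ (1 - s)^3 * qq α c s + s^3 * qq α c (1 - s) := by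
  intro s hs
  refine (h s hs).trans ?_
  have h1 := qq_mono hα hα1 hcC hs.1
  have h2 := qq_mono (s := 1 - s) hα hα1 hcC (by linarith [hs.2])
  have h3 : 0 ≤ (1 - s)^3 := pow_nonneg (by linarith [hs.2]) 3
  have h4 : 0 ≤ s^3 := pow_nonneg hs.1 3
  have := mul_le_mul_of_nonneg_left h1 h3
  have := mul_le_mul_of_nonneg_left h2 h4
  linarith

lemma hq2_fifth : ∀ s ∈ Icc (0:ℝ) (1/2),
    0 ≤ (1 - s)^3 * qq (1/5) (987/100) s + s^3 * qq (1/5) (987/100) (1 - s) := by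
  intro s hs
  unfold qq
  have h1 : 0 ≤ 1/2 - s := by linarith [hs.2]
  have h0 := hs.1
  -- substitute t = 1/2 - s
  obtain ⟨t, rfl⟩ : ∃ t, s = 1/2 - t := ⟨1/2 - s, by ring⟩
  have ht0 : 0 ≤ t := by linarith
  have ht1 : t ≤ 1/2 := by linarith
  ring_nf
  nlinarith [mul_nonneg ht0 h0, mul_nonneg (mul_nonneg ht0 ht0) h0, pow_nonneg ht0 3, pow_nonneg ht0 4,
    mul_nonneg (pow_nonneg ht0 3) h0, mul_nonneg (pow_nonneg ht0 4) h0]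

lemma hq2_two_fifths : ∀ s ∈ Icc (0:ℝ) (1/2),
    0 ≤ (1 - s)^3 * qq (2/5) (885/100) s + s^3 * qq (2/5) (885/100) (1 - s) := by
  intro s hs
  unfold qq
  have h1 : 0 ≤ 1/2 - s := by linarith [hs.2]
  have h0 := hs.1
  obtain ⟨t, rfl⟩ : ∃ t, s = 1/2 - t := ⟨1/2 - s, by ring⟩
  have ht0 : 0 ≤ t := by linarith
  have ht1 : t ≤ 1/2 := by linarith
  ring_nf
  nlinarith [mul_nonneg ht0 h0, mul_nonneg (mul_nonneg ht0 ht0) h0, pow_nonneg ht0 3, pow_nonneg ht0 4,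
    mul_nonneg (pow_nonneg ht0 3) h0, mul_nonneg (pow_nonneg ht0 4) h0]

lemma LL_nonneg_fifth {c : ℝ} (hc : 0 ≤ c) (hcC : c ≤ 987/100) {k : ℕ} (hk : 1 ≤ k) :
    0 ≤ LL (1/5) c (phi k) := by
  rcases Nat.even_or_odd' k with ⟨m, h | h⟩
  · have hm : 1 ≤ m := by omega
    rw [h]
    exact (two_fifth hc hcC).trans (LL_even hm (by norm_num) (by norm_num) hc (hq1_fifth hcC)
      (hq2_aux (by norm_num) (by norm_num) hcC hq2_fifth) (hR_fifth hcC))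
  · exact odd_fifth hc hcC ⟨m, h⟩

lemma LL_nonneg_two_fifths {c : ℝ} (hc : 0 ≤ c) (hcC : c ≤ 885/100) {k : ℕ} (hk : 1 ≤ k) :
    0 ≤ LL (2/5) c (phi k) := by
  rcases Nat.even_or_odd' k with ⟨m, h | h⟩
  · have hm : 1 ≤ m := by omega
    rw [h]
    exact (two_two_fifths hc hcC).trans (LL_even hm (by norm_num) (by norm_num) hc (hq1_two_fifths hcC)
      (hq2_aux (by norm_num) (by norm_num) hcC hq2_two_fifths) (hR_two_fifths hcC))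
  · exact odd_two_fifths hc hcC ⟨m, h⟩

/-- positivity for `α ≤ 1/5` -/
lemma LL_nonneg_1 {α c : ℝ} (hα : 0 < α) (hα1 : α ≤ 1/5) (hc : 0 ≤ c) (hcC : c ≤ 987/100)
    {k : ℕ} (hk : 1 ≤ k) : 0 ≤ LL α c (phi k) :=
  (LL_nonneg_fifth hc hcC hk).trans (LL_anti hα hα1 hc (by linarith) (hp_fifth hcC) k)

/-- positivity for `α ≤ 2/5` -/
lemma LL_nonneg_2 {α c : ℝ} (hα : 0 < α) (hα1 : α ≤ 2/5) (hc : 0 ≤ c) (hcC : c ≤ 885/100)
    {k : ℕ} (hk : 1 ≤ k) : 0 ≤ LL α c (phi k) :=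
  (LL_nonneg_two_fifths hc hcC hk).trans (LL_anti hα hα1 hc (by linarith) (hp_two_fifths hcC) k)

end B595
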