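import Pool.Agent.B595.Upper

open Set Filter Topology MeasureTheory

namespace B595

lemma cosk_zero : cosk 0 = one := by
  apply X_ext
  intro s hs
  rw [ext_cosk 0 hs, ext_one]; simp

lemma norm_cosk (k : ℕ) : ‖cosk k‖ ≤ 1 := by
  apply norm_le_of zero_le_one
  intro s hs
  rw [ext_cosk k hs]
  exact Real.abs_cos_le_one _

lemma P_g_cosk {α : ℝ} (hα : 0 < α) {c : ℝ} (hE : P (tau α hα) (E c) = 0) (j : ℕ) :
    P (NormedSpace.exp ((-c) • M) (tau α hα)) (cosk j) = -(1/2) * (if j = 0 then 0 else nk α hα c j) := by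
  have h1 : P (NormedSpace.exp ((-c) • M) (tau α hα)) one = 0 := by
    rw [P_exp]; exact hE
  rcases eq_or_ne j 0 with h | h
  · rw [h, cosk_zero, h1]; simp
  · have h2 : P (NormedSpace.exp ((-c) • M) (tau α hα)) (phi j) = P (tau α hα) (B c j) := by
      rw [P_exp]; rfl
    rw [phi, P_sub_right, h1] at h2
    rw [if_neg h, nk]
    linarith

lemma g_hasSum {α : ℝ} (hα : 0 < α) {c : ℝ} (hE : P (tau α hα) (E c) = 0)
    (hs : Summable (fun k : ℕ => |nk α hα c (k+1)|)) :
    HasSum (fun k : ℕ => (-(nk α hα c (k+1))) • cosk (k+1))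
      (NormedSpace.exp ((-c) • M) (tau α hα)) := by
  have hsum : Summable (fun k : ℕ => (-(nk α hα c (k+1))) • cosk (k+1)) := by
    apply Summable.of_norm_bounded hs
    intro k
    rw [norm_smul, Real.norm_eq_abs, abs_neg]
    calc _ ≤ |nk α hα c (k+1)| * 1 := by gcongr; exact norm_cosk _
      _ = _ := mul_one _
  obtain ⟨S, hS⟩ := hsum
  have : NormedSpace.exp ((-c) • M) (tau α hα) - S = 0 := by
    apply complete
    intro j
    rw [P_sub_left, P_g_cosk hα hE]
    have h1 := hS.mapL (PL (cosk j))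
    simp only [map_smul, PL_apply, smul_eq_mul] at h1
    have h2 : P (cosk j) S = -(1/2) * (if j = 0 then 0 else nk α hα c j) := by
      rcases eq_or_ne j 0 with h | h
      · have : (fun k : ℕ => -(nk α hα c (k+1)) * P (cosk j) (cosk (k+1))) = fun _ => 0 := by
          funext k
          rw [P_cosk _ _ (by omega), mul_zero]
        rw [this] at h1
        rw [if_pos h, mul_zero]
        exact h1.unique hasSum_zero
      · obtain ⟨i, rfl⟩ := Nat.exists_eq_succ_of_ne_zero h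
        have h3 : HasSum (fun k : ℕ => -(nk α hα c (k+1)) * P (cosk (i+1)) (cosk (k+1)))
            (-(nk α hα c (i+1)) * P (cosk (i+1)) (cosk (i+1))) := by
          apply hasSum_single i
          intro k hk
          rw [P_cosk _ _ (by omega), mul_zero]
        rw [Nat.succ_eq_add_one] at h1 ⊢
        have := h1.unique h3
        rw [this, P_cosk_self _ (by omega), if_neg (by omega)]
        ring
    rw [P_comm S, h2]; ring
  rw [sub_eq_zero] at this
  rw [this]; exact hS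

lemma cosk_eq_Cmap (k : ℕ) : cosk k = ((-1:ℝ)^k) • Cmap ((k * Real.pi)^2) := by
  apply X_ext
  intro s hs
  rw [ext_smul, ext_cosk k hs, ext_Cmap _ hs, Real.sqrt_sq (by positivity)]
  have : (k:ℝ) * Real.pi * (1 - s) = k * Real.pi - k * Real.pi * s := by ring
  rw [this, Real.cos_nat_mul_pi_sub, ← mul_assoc, ← mul_pow]
  norm_num

lemma tau_hasSum {α : ℝ} (hα : 0 < α) {c : ℝ} (hc : 0 < c) (hc2 : c < Real.pi^2)
    (hE : P (tau α hα) (E c) = 0)
    (hs : Summable (fun k : ℕ => |nk α hα c (k+1)|)) :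
    HasSum (fun k : ℕ => ((-1:ℝ)^k * nk α hα c (k+1)) • Cmap ((((k+1 : ℕ) : ℝ) * Real.pi)^2 - c))
      (tau α hα) := by
  have h := (g_hasSum hα hE hs).mapL (NormedSpace.exp (c • M))
  have h2 : NormedSpace.exp (c • M) (NormedSpace.exp ((-c) • M) (tau α hα)) = tau α hα := by
    have := exp_neg_mul (-(c • M)) (tau α hα)
    rw [neg_neg] at this
    rw [neg_smul]; exact this
  rw [h2] at h
  convert h using 1
  funext k
  rw [cosk_eq_Cmap, map_smul, map_smul]
  have h3 : NormedSpace.exp (c • M) (Cmap ((((k+1 : ℕ) : ℝ) * Real.pi)^2)) =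
      Cmap ((((k+1 : ℕ) : ℝ) * Real.pi)^2 - c) := by
    have := evolve (z := (((k+1 : ℕ) : ℝ) * Real.pi)^2 - c) (t := c)
      (lamk_gt hc hc2 (by omega)).le hc.le
    rwa [sub_add_cancel] at this
  rw [h3, smul_smul]
  congr 1
  rw [pow_succ]; ring

lemma Phi_eq_sum {α : ℝ} (hα : 0 < α) {b : ℝ} (hE : P (tau α hα) (E (b^2)) = 0)
    (hs : Summable (fun k : ℕ => |nk α hα (b^2) (k+1)|)) :
    HasSum (fun k : ℕ => nk α hα (b^2) (k+1)) (Phi α b) := by
  have h := ((g_hasSum hα hE hs).mapL (ev 0)).neg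
  rw [Phi_eq hα]
  simp only [map_smul, ev_apply, smul_eq_mul] at h
  have e : (fun k : ℕ => -(-nk α hα (b^2) (k+1) * ext (cosk (k+1)) 0)) =
      fun k => nk α hα (b^2) (k+1) := by
    funext k
    rw [ext_cosk _ ⟨le_refl _, zero_le_one⟩]
    simp
  rw [e] at h
  exact h

/-- `V` is the total variation of a complex measure `μ = h ν` whose Fourier transform is
`(1-|ξ|)^α` on `[-1,1]` -/
def Rep (α V : ℝ) : Prop :=
  ∃ (ν : Measure ℝ) (h : ℝ → ℂ), Integrable h ν ∧
    (∀ ξ ∈ Icc (-1:ℝ) 1, ∫ x, Complex.exp (-(Complex.I * x * ξ)) * h x ∂ν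
      = (((1 - |ξ|) ^ α : ℝ) : ℂ)) ∧ V = ∫ x, ‖h x‖ ∂ν

lemma upper {α : ℝ} (hα : 0 < α) {b : ℝ} (hb : 0 < b) (hb2 : b < Real.pi)
    (hE : P (tau α hα) (E (b^2)) = 0)
    (hs : Summable (fun k : ℕ => |nk α hα (b^2) (k+1)|))
    (hnn : ∀ k : ℕ, 0 ≤ nk α hα (b^2) (k+1)) :
    ∃ (ν : Measure ℝ) (h : ℝ → ℂ), IsFiniteMeasure ν ∧ Integrable h ν ∧
    (∀ ξ ∈ Icc (-1:ℝ) 1, ∫ x, Complex.exp (-(Complex.I * x * ξ)) * h x ∂ν
      = (((1 - |ξ|) ^ α : ℝ) : ℂ)) ∧ Phi α b = ∫ x, ‖h x‖ ∂ν := by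
  have hc : 0 < b^2 := by positivity
  have hc2 : b^2 < Real.pi^2 := by nlinarith [Real.pi_pos]
  set l : ℕ → ℝ := fun k => √((((k+1 : ℕ) : ℝ) * Real.pi)^2 - b^2) with hl
  set w : ℕ → ENNReal := fun k => ENNReal.ofReal (nk α hα (b^2) (k+1) / 2) with hw
  set μk : ℕ → Measure ℝ := fun k => w k • (Measure.dirac (l k) + Measure.dirac (-(l k))) with hμ
  set ν : Measure ℝ := Measure.sum μk with hν
  have hsum : Summable (fun k : ℕ => nk α hα (b^2) (k+1)) := by
    convert hs using 1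
    funext k
    rw [abs_of_nonneg (hnn k)]
  have hfin : IsFiniteMeasure ν := by
    constructor
    rw [hν, Measure.sum_apply _ MeasurableSet.univ]
    have : ∀ k, μk k univ = ENNReal.ofReal (nk α hα (b^2) (k+1)) := by
      intro k
      rw [hμ]
      simp only [Measure.smul_apply, Measure.add_apply, measure_univ, smul_eq_mul, hw]
      rw [show (1:ENNReal) + 1 = ENNReal.ofReal 2 by norm_num, ← ENNReal.ofReal_mul
        (by have := hnn k; positivity)]
      congr 1; ring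
    simp_rw [this]
    rw [← ENNReal.ofReal_tsum_of_nonneg hnn hsum]
    exact ENNReal.ofReal_lt_top
  set h : ℝ → ℂ := fun x => ((-(Real.cos √(x^2 + b^2)) : ℝ) : ℂ) with hh
  have hhc : Continuous h := by
    rw [hh]; fun_prop
  have hnorm : ∀ x, ‖h x‖ ≤ 1 := by
    intro x
    rw [hh, Complex.norm_real, norm_neg]
    exact Real.abs_cos_le_one _
  have hint : ∀ f : ℝ → ℂ, Continuous f → (∀ x, ‖f x‖ ≤ 1) → Integrable f ν := by
    intro f hf hb
    exact Integrable.of_bound hf.aestronglyMeasurable 1 (Eventually.of_forall hb)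
  have hlk : ∀ k, (l k)^2 + b^2 = (((k+1 : ℕ) : ℝ) * Real.pi)^2 := by
    intro k
    rw [hl]
    simp only
    rw [Real.sq_sqrt (lamk_gt hc hc2 (by omega)).le]; ring
  have hhl : ∀ k, Real.cos √((l k)^2 + b^2) = (-1)^(k+1) := by
    intro k
    rw [hlk, Real.sqrt_sq (by positivity), Real.cos_nat_mul_pi]
  have hintk : ∀ (f : ℝ → ℂ) (k : ℕ), Continuous f → ∫ x, f x ∂(μk k) =
      ((nk α hα (b^2) (k+1) / 2 : ℝ) : ℂ) * (f (l k) + f (-(l k))) := by
    intro f k hf
    have hi : ∀ y : ℝ, Integrable f (Measure.dirac y) := by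
      intro y
      apply integrable_dirac
      exact enorm_lt_top
    rw [hμ]
    simp only
    rw [integral_smul_measure, integral_add_measure (hi _) (hi _), integral_dirac, integral_dirac,
      ENNReal.toReal_ofReal (by have := hnn k; positivity)]
    rw [Complex.real_smul]
  refine ⟨ν, h, hfin, hint h hhc hnorm, ?_, ?_⟩
  · intro ξ hξ
    have hs' : 1 - |ξ| ∈ Icc (0:ℝ) 1 := by
      have := abs_le.2 hξ
      exact ⟨by linarith, by linarith [abs_nonneg ξ]⟩
    set f : ℝ → ℂ := fun x => Complex.exp (-(Complex.I * x * ξ)) * h x with hf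
    have hfc : Continuous f := by rw [hf]; fun_prop
    have hfb : ∀ x, ‖f x‖ ≤ 1 := by
      intro x
      rw [hf]
      simp only
      rw [norm_mul, Complex.norm_exp]
      have : (-(Complex.I * (x:ℂ) * (ξ:ℂ))).re = 0 := by simp
      rw [this, Real.exp_zero, one_mul]
      exact hnorm x
    have h1 := hasSum_integral_measure (hint f hfc hfb)
    have h2 : HasSum (fun k : ℕ => ((((-1:ℝ)^k * nk α hα (b^2) (k+1)) *
        Real.cos (l k * |ξ|) : ℝ) : ℂ)) (((1 - |ξ|) ^ α : ℝ) : ℂ) := by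
      have h3 := (tau_hasSum hα hc hc2 hE hs).mapL (ev (1 - |ξ|))
      simp only [map_smul, ev_apply, smul_eq_mul] at h3
      rw [ext_tau hα hs'] at h3
      have h4 : (fun k : ℕ => ((-1:ℝ)^k * nk α hα (b^2) (k+1)) *
          ext (Cmap ((((k+1 : ℕ) : ℝ) * Real.pi)^2 - b^2)) (1 - |ξ|)) =
          fun k : ℕ => ((-1:ℝ)^k * nk α hα (b^2) (k+1)) * Real.cos (l k * |ξ|) := by
        funext k
        rw [ext_Cmap _ hs']
        congr 3
        ring
      rw [h4] at h3
      exact_mod_cast h3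
    refine h1.unique ?_
    have e : (fun k : ℕ => ∫ x, f x ∂(μk k)) = fun k : ℕ => ((((-1:ℝ)^k * nk α hα (b^2) (k+1)) *
        Real.cos (l k * |ξ|) : ℝ) : ℂ) := by
      funext k
      rw [hintk f k hfc, hf]
      simp only [hh]
      rw [neg_sq, hhl]
      have hcos : Real.cos (l k * |ξ|) = Real.cos (l k * ξ) := by
        rcases abs_choice ξ with h | h
        · rw [h]
        · rw [h, mul_neg, Real.cos_neg]
      rw [hcos]
      push_cast
      have e1 : Complex.cos ((l k : ℂ) * ξ) = (Complex.exp ((l k : ℂ) * ξ * Complex.I)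
          + Complex.exp (-((l k : ℂ) * ξ) * Complex.I)) / 2 := rfl
      have e2 : -(Complex.I * (l k : ℂ) * ξ) = -((l k : ℂ) * ξ) * Complex.I := by ring
      have e3 : -(Complex.I * (-(l k : ℂ)) * ξ) = (l k : ℂ) * ξ * Complex.I := by ring
      rw [e1, e2, e3, pow_succ]
      ring
    rw [e]
    exact h2
  · have h1 := hasSum_integral_measure (hint (fun x => (‖h x‖ : ℂ)) (by fun_prop) (by
      intro x
      rw [Complex.norm_real, norm_norm]; exact hnorm x))
    have h2 := Phi_eq_sum hα hE hs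
    have h3 : HasSum (fun k : ℕ => ∫ x, (‖h x‖ : ℂ) ∂(μk k)) ((Phi α b : ℝ) : ℂ) := by
      have h4 : HasSum (fun k : ℕ => ((nk α hα (b^2) (k+1) : ℝ) : ℂ)) ((Phi α b : ℝ) : ℂ) := by
        exact_mod_cast h2
      convert h4 using 1
      funext k
      rw [hintk (fun x => (‖h x‖ : ℂ)) k (by fun_prop)]
      simp only [hh, Complex.norm_real, norm_neg, neg_sq, hhl]
      rw [norm_pow, norm_neg, norm_one, one_pow]
      push_cast
      ring
    have h5 := h3.unique h1
    have h6 : ∫ x, ((‖h x‖ : ℝ) : ℂ) ∂ν = ((∫ x, ‖h x‖ ∂ν : ℝ) : ℂ) := integral_ofReal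
    rw [← hν] at h5
    rw [h6] at h5
    exact_mod_cast h5

end B595
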