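import Pool.Agent.B595.Root2
import Pool.Agent.B595.PosAll
import Pool.Agent.B595.Upper2
import Pool.Agent.B595.LB

open Set Filter Topology MeasureTheory

namespace B595

theorem exact_density {α : ℝ} (hα : 0 < α) (hα2 : α ≤ 2/5) :
    ∃ b, 0 < b ∧ b < Real.pi ∧ K α b = 0 ∧
      ∃ (ν : Measure ℝ) (h : ℝ → ℂ), IsFiniteMeasure ν ∧ Integrable h ν ∧
      (∀ ξ ∈ Icc (-1:ℝ) 1, ∫ x, Complex.exp (-(Complex.I * x * ξ)) * h x ∂ν
        = (((1 - |ξ|) ^ α : ℝ) : ℂ)) ∧ Phi α b = ∫ x, ‖h x‖ ∂ν := by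
  have hα1 : α < 1 := by linarith
  have hpi2 : Real.pi^2 ≤ 987/100 := by nlinarith [Real.pi_lt_d4, Real.pi_pos]
  have hpi2' : (885:ℝ)/100 < Real.pi^2 := by nlinarith [Real.pi_gt_d4, Real.pi_pos]
  have key : ∃ b, 0 < b ∧ b < Real.pi ∧ P (tau α hα) (E (b^2)) = 0 ∧
      ∀ k : ℕ, 1 ≤ k → 0 ≤ LL α (b^2) (phi k) := by
    rcases le_or_gt α (1/5) with h | h
    · obtain ⟨b, hb0, hb1, hb2⟩ := exists_root hα (C := Real.pi^2) (by positivity) (neg_at_pi hα)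
      rw [Real.sqrt_sq Real.pi_pos.le] at hb1
      refine ⟨b, hb0, hb1, hb2, fun k hk => ?_⟩
      have : b^2 ≤ Real.pi^2 := by nlinarith
      exact LL_nonneg_1 hα h (sq_nonneg b) (this.trans hpi2) hk
    · have hneg : P (tau α hα) (E (885/100)) < 0 := by
        rw [P_tau_E hα]
        exact sign_compare (by norm_num) hpi2'.le (by norm_num) h neg_at_mid
      obtain ⟨b, hb0, hb1, hb2⟩ := exists_root hα (by norm_num) hneg
      have hbb : b^2 ≤ 885/100 := by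
        have h1 : √(885/100 : ℝ)^2 = 885/100 := Real.sq_sqrt (by norm_num)
        nlinarith
      have hbpi : b < Real.pi := lt_of_pow_lt_pow_left₀ 2 Real.pi_pos.le (by linarith)
      exact ⟨b, hb0, hbpi, hb2, fun k hk => LL_nonneg_2 hα hα2 (sq_nonneg b) hbb hk⟩
  obtain ⟨b, hb0, hb1, hb2, hLL⟩ := key
  have hc : 0 < b^2 := by positivity
  have hc2 : b^2 < Real.pi^2 := by nlinarith
  refine ⟨b, hb0, hb1, ?_, upper hα hb0 hb1 hb2 (nk_summable hα hα1 hc hc2 hb2) fun k =>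
    nk_nonneg hα hα1 hc hc2 hb2 (by omega) (hLL (k+1) (by omega))⟩
  rw [K_eq hα]; exact hb2

end B595
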