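import Pool.Agent.B595.Two

open Set Filter Topology MeasureTheory

namespace B595

/-- lower bound for `LL` at `phi 2` -/
lemma LL_two_lower {α C : ℝ} (hα : 0 < α) (hα1 : α < 1) (hC : 0 ≤ C) :
    Lam α (PP 10 cL) - C/2 * J α (PP 9 cU) + C^2/4 * J α (a (PP 10 cL))
      - C^3/12 * J α (a (a (PP 9 cU))) ≤ LL α C (phi 2) := by
  obtain ⟨v, hv⟩ := Adm_PP 10 cL
  have h1 := Lam_mono hα hα1 hv (Adm_phi 2) fun s hs => (phi_two_bounds hs).1
  have h2 := J_mono hα (u := phi 2) (w := PP 9 cU) fun s hs => (phi_two_bounds hs).2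
  have h3 := J_mono hα (a_le (u := PP 10 cL) (w := phi 2) fun s hs => (phi_two_bounds hs).1)
  have h4 := J_mono hα (a_le (a_le (u := phi 2) (w := PP 9 cU) fun s hs => (phi_two_bounds hs).2))
  have g2 := mul_le_mul_of_nonneg_left h2 (by positivity : 0 ≤ C/2)
  have g3 := mul_le_mul_of_nonneg_left h3 (by positivity : 0 ≤ C^2/4)
  have g4 := mul_le_mul_of_nonneg_left h4 (by positivity : 0 ≤ C^3/12)
  unfold LL
  linarith

/-- monotonicity in `c` -/
lemma LL_two_c {α c C : ℝ} (hα : 0 < α) (hc : 0 ≤ c) (hcC : c ≤ C)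
    (hJ : 0 ≤ J α (PP 10 cL) - C * J α (a (PP 9 cU))) :
    LL α C (phi 2) ≤ LL α c (phi 2) := by
  have h1 := J_mono hα (u := PP 10 cL) (w := phi 2) fun s hs => (phi_two_bounds hs).1
  have h2 := J_mono hα (a_le (u := phi 2) (w := PP 9 cU) fun s hs => (phi_two_bounds hs).2)
  have h3 : 0 ≤ J α (a (a (phi 2))) := J_nonneg (NN_a (NN_a (NN_phi 2)))
  have h4 : 0 ≤ J α (a (phi 2)) := J_nonneg (NN_a (NN_phi 2))
  have hC : 0 ≤ C := hc.trans hcC
  unfold LL
  set A := J α (phi 2)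
  set B := J α (a (phi 2))
  set D := J α (a (a (phi 2)))
  have hAB : C * B ≤ A := by nlinarith
  have hd : 0 ≤ C - c := by linarith
  have e1 : 0 ≤ (C - c)/2 * (A - C * B) := by
    apply mul_nonneg (by linarith) (by linarith)
  have e2 : 0 ≤ (C - c)/4 * ((C - c) * B) := by positivity
  have e3 : 0 ≤ (C^3 - c^3)/12 * D := by
    have : c^3 ≤ C^3 := pow_le_pow_left₀ hc hcC 3
    apply mul_nonneg _ h3
    linarith
  linarith

lemma num_fifth : 0 ≤ Lam (1/5) (PP 10 cL) - (987/100)/2 * J (1/5) (PP 9 cU)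
    + (987/100)^2/4 * J (1/5) (a (PP 10 cL)) - (987/100)^3/12 * J (1/5) (a (a (PP 9 cU))) := by
  rw [Lam_PP (by norm_num), J_PP (by norm_num), J_a_PP (by norm_num), J_aa_PP (by norm_num)]
  simp only [Finset.sum_range_succ, Finset.sum_range_zero, cL, cU, j1, j2, j3]
  norm_num [Nat.factorial, Nat.even_iff]

lemma num_fifth' : 0 ≤ J (1/5) (PP 10 cL) - (987/100) * J (1/5) (a (PP 9 cU)) := by
  rw [J_PP (by norm_num), J_a_PP (by norm_num)]
  simp only [Finset.sum_range_succ, Finset.sum_range_zero, cL, cU, j1, j2, j3]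
  norm_num [Nat.factorial, Nat.even_iff]

lemma num_two_fifths : 0 ≤ Lam (2/5) (PP 10 cL) - (885/100)/2 * J (2/5) (PP 9 cU)
    + (885/100)^2/4 * J (2/5) (a (PP 10 cL)) - (885/100)^3/12 * J (2/5) (a (a (PP 9 cU))) := by
  rw [Lam_PP (by norm_num), J_PP (by norm_num), J_a_PP (by norm_num), J_aa_PP (by norm_num)]
  simp only [Finset.sum_range_succ, Finset.sum_range_zero, cL, cU, j1, j2, j3]
  norm_num [Nat.factorial, Nat.even_iff]

lemma num_two_fifths' : 0 ≤ J (2/5) (PP 10 cL) - (885/100) * J (2/5) (a (PP 9 cU)) := by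
  rw [J_PP (by norm_num), J_a_PP (by norm_num)]
  simp only [Finset.sum_range_succ, Finset.sum_range_zero, cL, cU, j1, j2, j3]
  norm_num [Nat.factorial, Nat.even_iff]

lemma two_fifth {c : ℝ} (hc : 0 ≤ c) (hcC : c ≤ 987/100) : 0 ≤ LL (1/5) c (phi 2) :=
  (num_fifth.trans (LL_two_lower (by norm_num) (by norm_num) (by norm_num))).trans
    (LL_two_c (by norm_num) hc hcC num_fifth')

lemma two_two_fifths {c : ℝ} (hc : 0 ≤ c) (hcC : c ≤ 885/100) : 0 ≤ LL (2/5) c (phi 2) :=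
  (num_two_fifths.trans (LL_two_lower (by norm_num) (by norm_num) (by norm_num))).trans
    (LL_two_c (by norm_num) hc hcC num_two_fifths')

end B595
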