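import Mathlib

open Set Filter Topology

namespace B595

/-- continuous real functions on `[0,1]`, with the supremum norm -/
def X : Type := C(Icc (0:ℝ) 1, ℝ)

noncomputable instance : NormedAddCommGroup X :=
  inferInstanceAs (NormedAddCommGroup C(Icc (0:ℝ) 1, ℝ))
noncomputable instance : NormedSpace ℝ X :=
  inferInstanceAs (NormedSpace ℝ C(Icc (0:ℝ) 1, ℝ))
instance : CompleteSpace X := inferInstanceAs (CompleteSpace C(Icc (0:ℝ) 1, ℝ))

/-- the underlying continuous map -/
def toC (u : X) : C(Icc (0:ℝ) 1, ℝ) := u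

/-- extension of an element of `X` to the line, constant outside `[0,1]` -/
noncomputable def ext (u : X) : ℝ → ℝ := IccExtend zero_le_one (toC u)

@[fun_prop]
lemma ext_cont (u : X) : Continuous (ext u) := (toC u).continuous.Icc_extend'

lemma ext_of_mem (u : X) {x : ℝ} (hx : x ∈ Icc (0:ℝ) 1) : ext u x = toC u ⟨x, hx⟩ :=
  IccExtend_of_mem _ _ hx

lemma ext_add (u w : X) (x : ℝ) : ext (u + w) x = ext u x + ext w x := rfl
lemma ext_sub (u w : X) (x : ℝ) : ext (u - w) x = ext u x - ext w x := rfl
lemma ext_neg (u : X) (x : ℝ) : ext (-u) x = - ext u x := rfl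
lemma ext_smul (c : ℝ) (u : X) (x : ℝ) : ext (c • u) x = c * ext u x := rfl
lemma ext_zero (x : ℝ) : ext (0 : X) x = 0 := rfl

lemma abs_ext_le (u : X) (x : ℝ) : |ext u x| ≤ ‖u‖ := by
  have := (toC u).norm_coe_le_norm (projIcc 0 1 zero_le_one x)
  rwa [Real.norm_eq_abs] at this

/-- the element of `X` given by a continuous function on the line -/
def mk (f : ℝ → ℝ) (hf : Continuous f) : X :=
  (⟨fun x => f x, hf.comp continuous_subtype_val⟩ : C(Icc (0:ℝ) 1, ℝ))

lemma ext_mk (f : ℝ → ℝ) (hf : Continuous f) {x : ℝ} (hx : x ∈ Icc (0:ℝ) 1) :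
    ext (mk f hf) x = f x := by
  rw [ext_of_mem _ hx]; rfl

lemma X_ext {u w : X} (h : ∀ x ∈ Icc (0:ℝ) 1, ext u x = ext w x) : u = w := by
  apply ContinuousMap.ext
  intro x
  have := h x x.2
  rw [ext_of_mem _ x.2, ext_of_mem _ x.2] at this
  exact this

lemma norm_le_of {u : X} {C : ℝ} (hC : 0 ≤ C) (h : ∀ x ∈ Icc (0:ℝ) 1, |ext u x| ≤ C) :
    ‖u‖ ≤ C := by
  refine (ContinuousMap.norm_le (toC u) hC).2 ?_
  intro x
  have := h x x.2
  rw [ext_of_mem _ x.2] at this
  rwa [Real.norm_eq_abs]

/-- operators on `X` from integral formulas -/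
noncomputable def mkOp (T : X → ℝ → ℝ) (hc : ∀ u, Continuous (T u))
    (hadd : ∀ u w x, T (u + w) x = T u x + T w x) (hsmul : ∀ (c : ℝ) u x, T (c • u) x = c * T u x)
    (hbd : ∀ u, ∀ x ∈ Icc (0:ℝ) 1, |T u x| ≤ ‖u‖) : X →L[ℝ] X :=
  LinearMap.mkContinuous
    { toFun := fun u => mk (T u) (hc u)
      map_add' := fun u w => ContinuousMap.ext fun x => hadd u w x
      map_smul' := fun c u => ContinuousMap.ext fun x => hsmul c u x } 1
    (fun u => by
      rw [one_mul]
      apply norm_le_of (norm_nonneg _)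
      intro x hx
      have : ext (mk (T u) (hc u)) x = T u x := ext_mk _ _ hx
      change |ext (mk (T u) (hc u)) x| ≤ ‖u‖
      rw [this]
      exact hbd u x hx)

lemma ext_mkOp (T : X → ℝ → ℝ) (hc hadd hsmul hbd) (u : X) {x : ℝ} (hx : x ∈ Icc (0:ℝ) 1) :
    ext (mkOp T hc hadd hsmul hbd u) x = T u x := ext_mk (T u) (hc u) hx

lemma cont_prim {f : ℝ → ℝ} (hf : Continuous f) (a : ℝ) :
    Continuous (fun x => ∫ r in a..x, f r) :=
  continuous_iff_continuousAt.2 fun x => (hf.integral_hasStrictDerivAt a x).hasDerivAt.continuousAt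

lemma cont_prim' {f : ℝ → ℝ} (hf : Continuous f) (b : ℝ) :
    Continuous (fun x => ∫ r in x..b, f r) := by
  have : (fun x => ∫ r in x..b, f r) = fun x => - ∫ r in b..x, f r := by
    ext x; rw [intervalIntegral.integral_symm]
  rw [this]; exact (cont_prim hf b).neg

/-- `(a u)(s) = 1/2 ∫_0^s (1-r) u(r) dr` -/
noncomputable def a : X →L[ℝ] X :=
  mkOp (fun u s => 1/2 * ∫ r in (0:ℝ)..s, (1 - r) * ext u r)
    (fun u => continuous_const.mul (cont_prim (by fun_prop) _))
    (fun u w x => by
      rw [← mul_add, ← intervalIntegral.integral_add]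
      · congr 2; ext r; rw [ext_add]; ring
      · exact Continuous.intervalIntegrable (by fun_prop) _ _
      · exact Continuous.intervalIntegrable (by fun_prop) _ _)
    (fun c u x => by
      rw [mul_left_comm, ← intervalIntegral.integral_const_mul c]
      congr 2; ext r; rw [ext_smul]; ring)
    (fun u x hx => by
      have h1 : |∫ r in (0:ℝ)..x, (1 - r) * ext u r| ≤ ‖u‖ * |x - 0| := by
        rw [← Real.norm_eq_abs]
        apply intervalIntegral.norm_integral_le_of_norm_le_const
        intro r hr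
        rw [uIoc_of_le hx.1] at hr
        rw [Real.norm_eq_abs, abs_mul]
        have : |1 - r| ≤ 1 := by rw [abs_le]; constructor <;> linarith [hr.1, hr.2, hx.2]
        calc |1 - r| * |ext u r| ≤ 1 * ‖u‖ := by
              gcongr
              exact abs_ext_le u r
          _ = ‖u‖ := one_mul _
      rw [abs_mul, abs_of_pos (by norm_num : (0:ℝ) < 1/2)]
      have h2 : |x - 0| ≤ 1 := by rw [abs_le]; constructor <;> linarith [hx.1, hx.2]
      have h3 : ‖u‖ * |x - 0| ≤ ‖u‖ := by
        calc _ ≤ ‖u‖ * 1 := by gcongr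
          _ = _ := mul_one _
      have := norm_nonneg u
      linarith)

lemma ext_a (u : X) {x : ℝ} (hx : x ∈ Icc (0:ℝ) 1) :
    ext (a u) x = 1/2 * ∫ r in (0:ℝ)..x, (1 - r) * ext u r := ext_mkOp _ _ _ _ _ u hx

/-- `(G u)(s) = ∫_0^s (s-r) u(r) dr` -/
noncomputable def G : X →L[ℝ] X :=
  mkOp (fun u s => s * (∫ r in (0:ℝ)..s, ext u r) - ∫ r in (0:ℝ)..s, r * ext u r)
    (fun u => (continuous_id.mul (cont_prim (by fun_prop) _)).sub (cont_prim (by fun_prop) _))
    (fun u w x => by
      have h1 : ∫ r in (0:ℝ)..x, ext (u + w) r = (∫ r in (0:ℝ)..x, ext u r) + ∫ r in (0:ℝ)..x, ext w r := by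
        rw [← intervalIntegral.integral_add]
        · rfl
        · exact Continuous.intervalIntegrable (by fun_prop) _ _
        · exact Continuous.intervalIntegrable (by fun_prop) _ _
      have h2 : ∫ r in (0:ℝ)..x, r * ext (u + w) r = (∫ r in (0:ℝ)..x, r * ext u r) + ∫ r in (0:ℝ)..x, r * ext w r := by
        rw [← intervalIntegral.integral_add]
        · congr 1; ext r; rw [ext_add]; ring
        · exact Continuous.intervalIntegrable (by fun_prop) _ _
        · exact Continuous.intervalIntegrable (by fun_prop) _ _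
      rw [h1, h2]; ring)
    (fun c u x => by
      have h1 : ∫ r in (0:ℝ)..x, ext (c • u) r = c * (∫ r in (0:ℝ)..x, ext u r) := by
        rw [← intervalIntegral.integral_const_mul]; rfl
      have h2 : ∫ r in (0:ℝ)..x, r * ext (c • u) r = c * (∫ r in (0:ℝ)..x, r * ext u r) := by
        rw [← intervalIntegral.integral_const_mul]
        congr 1; ext r; rw [ext_smul]; ring
      rw [h1, h2]; ring)
    (fun u x hx => by
      have h1 : x * (∫ r in (0:ℝ)..x, ext u r) - ∫ r in (0:ℝ)..x, r * ext u r =
          ∫ r in (0:ℝ)..x, (x - r) * ext u r := by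
        rw [← intervalIntegral.integral_const_mul, ← intervalIntegral.integral_sub]
        · congr 1; ext r; ring
        · exact Continuous.intervalIntegrable (by fun_prop) _ _
        · exact Continuous.intervalIntegrable (by fun_prop) _ _
      rw [h1]
      have h2 : |∫ r in (0:ℝ)..x, (x - r) * ext u r| ≤ ‖u‖ * |x - 0| := by
        rw [← Real.norm_eq_abs]
        apply intervalIntegral.norm_integral_le_of_norm_le_const
        intro r hr
        rw [uIoc_of_le hx.1] at hr
        rw [Real.norm_eq_abs, abs_mul]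
        have : |x - r| ≤ 1 := by rw [abs_le]; constructor <;> linarith [hr.1, hr.2, hx.2]
        calc |x - r| * |ext u r| ≤ 1 * ‖u‖ := by
              gcongr
              exact abs_ext_le u r
          _ = ‖u‖ := one_mul _
      have h3 : |x - 0| ≤ 1 := by rw [abs_le]; constructor <;> linarith [hx.1, hx.2]
      have h4 : ‖u‖ * |x - 0| ≤ ‖u‖ := by
        calc _ ≤ ‖u‖ * 1 := by gcongr
          _ = _ := mul_one _
      linarith)

lemma ext_G (u : X) {x : ℝ} (hx : x ∈ Icc (0:ℝ) 1) :
    ext (G u) x = x * (∫ r in (0:ℝ)..x, ext u r) - ∫ r in (0:ℝ)..x, r * ext u r :=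
  ext_mkOp _ _ _ _ _ u hx

/-- `(M u)(s) = (1-s)/2 ∫_s^1 u(r) dr` -/
noncomputable def M : X →L[ℝ] X :=
  mkOp (fun u s => (1 - s)/2 * ∫ r in s..(1:ℝ), ext u r)
    (fun u => Continuous.mul (by fun_prop) (cont_prim' (by fun_prop) _))
    (fun u w x => by
      rw [← mul_add, ← intervalIntegral.integral_add]
      · rfl
      · exact Continuous.intervalIntegrable (by fun_prop) _ _
      · exact Continuous.intervalIntegrable (by fun_prop) _ _)
    (fun c u x => by
      rw [mul_left_comm, ← intervalIntegral.integral_const_mul c]; rfl)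
    (fun u x hx => by
      have h1 : |∫ r in x..(1:ℝ), ext u r| ≤ ‖u‖ * |1 - x| := by
        rw [← Real.norm_eq_abs]
        apply intervalIntegral.norm_integral_le_of_norm_le_const
        intro r hr
        rw [Real.norm_eq_abs]
        exact abs_ext_le u r
      have h2 : |1 - x| ≤ 1 := by rw [abs_le]; constructor <;> linarith [hx.1, hx.2]
      have h3 : ‖u‖ * |1 - x| ≤ ‖u‖ := by
        calc _ ≤ ‖u‖ * 1 := by gcongr
          _ = _ := mul_one _
      have h4 : |(1 - x)/2| ≤ 1 := by rw [abs_le]; constructor <;> linarith [hx.1, hx.2]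
      rw [abs_mul]
      calc _ ≤ 1 * ‖u‖ := by gcongr; linarith
        _ = _ := one_mul _)

lemma ext_M (u : X) {x : ℝ} (hx : x ∈ Icc (0:ℝ) 1) :
    ext (M u) x = (1 - x)/2 * ∫ r in x..(1:ℝ), ext u r := ext_mkOp _ _ _ _ _ u hx

/-- the pairing -/
noncomputable def P (u w : X) : ℝ := ∫ x in (0:ℝ)..1, ext u x * ext w x

lemma P_comm (u w : X) : P u w = P w u := by
  unfold P; congr 1; ext x; ring

lemma P_add_right (u w z : X) : P u (w + z) = P u w + P u z := by
  unfold P
  rw [← intervalIntegral.integral_add]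
  · congr 1; ext r; rw [ext_add]; ring
  · exact Continuous.intervalIntegrable (by fun_prop) _ _
  · exact Continuous.intervalIntegrable (by fun_prop) _ _

lemma P_smul_right (c : ℝ) (u w : X) : P u (c • w) = c * P u w := by
  unfold P
  rw [← intervalIntegral.integral_const_mul]
  congr 1; ext r; rw [ext_smul]; ring

lemma abs_P_le (u w : X) : |P u w| ≤ ‖u‖ * ‖w‖ := by
  unfold P
  have : |∫ x in (0:ℝ)..1, ext u x * ext w x| ≤ (‖u‖ * ‖w‖) * |(1:ℝ) - 0| := by
    rw [← Real.norm_eq_abs]
    apply intervalIntegral.norm_integral_le_of_norm_le_const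
    intro r hr
    rw [Real.norm_eq_abs, abs_mul]
    gcongr
    · exact abs_ext_le u r
    · exact abs_ext_le w r
  simpa using this

/-- pairing as a continuous linear functional in the second variable -/
noncomputable def PL (u : X) : X →L[ℝ] ℝ :=
  LinearMap.mkContinuous
    { toFun := fun w => P u w
      map_add' := P_add_right u
      map_smul' := fun c w => P_smul_right c u w } ‖u‖
    (fun w => by simpa using abs_P_le u w)

@[simp] lemma PL_apply (u w : X) : PL u w = P u w := rfl

lemma P_sub_right (u w z : X) : P u (w - z) = P u w - P u z := (PL u).map_sub w z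

lemma P_add_left (u w z : X) : P (u + w) z = P u z + P w z := by
  rw [P_comm, P_add_right, P_comm z u, P_comm z w]

lemma P_sub_left (u w z : X) : P (u - w) z = P u z - P w z := by
  rw [P_comm, P_sub_right, P_comm z u, P_comm z w]

lemma P_smul_left (c : ℝ) (u w : X) : P (c • u) w = c * P u w := by
  rw [P_comm, P_smul_right, P_comm w u]

/-- `M` and `a` are adjoint -/
lemma P_M (u w : X) : P (M u) w = P u (a w) := by
  have hU : ∀ x, HasDerivAt (fun x => ∫ r in x..(1:ℝ), ext u r) (-(ext u x)) x := by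
    intro x
    have h := ((ext_cont u).integral_hasStrictDerivAt 1 x).hasDerivAt.neg
    have e : (-fun x => ∫ r in (1:ℝ)..x, ext u r) = fun x => ∫ r in x..(1:ℝ), ext u r := by
      ext y; simp [intervalIntegral.integral_symm y 1]
    rwa [e] at h
  have hW : ∀ x, HasDerivAt (fun x => 1/2 * ∫ r in (0:ℝ)..x, (1 - r) * ext w r)
      (1/2 * ((1 - x) * ext w x)) x := by
    intro x
    have hc : Continuous (fun r => (1 - r) * ext w r) := by fun_prop
    exact ((hc.integral_hasStrictDerivAt 0 x).hasDerivAt).const_mul _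
  have key := intervalIntegral.integral_mul_deriv_eq_deriv_mul (a := 0) (b := 1)
    (u := fun x => ∫ r in x..(1:ℝ), ext u r) (u' := fun x => -(ext u x))
    (v := fun x => 1/2 * ∫ r in (0:ℝ)..x, (1 - r) * ext w r)
    (v' := fun x => 1/2 * ((1 - x) * ext w x))
    (fun x _ => hU x) (fun x _ => hW x)
    (Continuous.intervalIntegrable (by fun_prop) _ _)
    (Continuous.intervalIntegrable (by fun_prop) _ _)
  simp only [intervalIntegral.integral_same, mul_zero, zero_mul, sub_zero, zero_sub] at key
  have e1 : P (M u) w = ∫ x in (0:ℝ)..1, (∫ r in x..(1:ℝ), ext u r) * (1/2 * ((1 - x) * ext w x)) := by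
    unfold P
    apply intervalIntegral.integral_congr
    intro x hx
    rw [uIcc_of_le zero_le_one] at hx
    simp only [ext_M u hx]; ring
  have e2 : P u (a w) = ∫ x in (0:ℝ)..1, ext u x * (1/2 * ∫ r in (0:ℝ)..x, (1 - r) * ext w r) := by
    unfold P
    apply intervalIntegral.integral_congr
    intro x hx
    rw [uIcc_of_le zero_le_one] at hx
    simp only [ext_a w hx]
  rw [e1, e2, key, ← intervalIntegral.integral_neg]
  congr 1; ext x; ring

/-- the constant function one -/
def one : X := mk (fun _ => 1) continuous_const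

lemma ext_one (x : ℝ) : ext one x = 1 := rfl

/-- evaluation at a point as a continuous linear functional -/
noncomputable def ev (x : ℝ) : X →L[ℝ] ℝ :=
  LinearMap.mkContinuous
    { toFun := fun u => ext u x
      map_add' := fun u w => ext_add u w x
      map_smul' := fun c u => ext_smul c u x } 1
    (fun u => by simpa using abs_ext_le u x)

@[simp] lemma ev_apply (x : ℝ) (u : X) : ev x u = ext u x := rfl

end B595
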