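import Pool.Agent.B595.Lam

open Set Filter Topology MeasureTheory

namespace B595

/-- nonnegative elements -/
def NN (w : X) : Prop := ∀ s ∈ Icc (0:ℝ) 1, 0 ≤ ext w s

lemma pr_mono_of_le {f g : ℝ → ℝ} (hf : Continuous f) (hg : Continuous g) {s : ℝ}
    (hs : s ∈ Icc (0:ℝ) 1) (h : ∀ x ∈ Icc (0:ℝ) 1, f x ≤ g x) : pr f s ≤ pr g s := by
  apply intervalIntegral.integral_mono_on hs.1 (hf.intervalIntegrable _ _) (hg.intervalIntegrable _ _)
  intro x hx
  exact h x ⟨hx.1, hx.2.trans hs.2⟩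

lemma pr_nonneg {f : ℝ → ℝ} {s : ℝ} (hs : s ∈ Icc (0:ℝ) 1)
    (h : ∀ x ∈ Icc (0:ℝ) 1, 0 ≤ f x) : 0 ≤ pr f s := by
  apply intervalIntegral.integral_nonneg hs.1
  intro x hx
  exact h x ⟨hx.1, hx.2.trans hs.2⟩

lemma NN_a {w : X} (hw : NN w) : NN (a w) := by
  intro s hs
  rw [ext_a' w hs]
  have := pr_nonneg (f := fun r => (1 - r) * ext w r) hs
    (fun x hx => mul_nonneg (by linarith [hx.2]) (hw x hx))
  linarith

lemma a_mono_s {w : X} (hw : NN w) {r s : ℝ} (hr : r ∈ Icc (0:ℝ) 1) (hs : s ∈ Icc (0:ℝ) 1)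
    (hrs : r ≤ s) : ext (a w) r ≤ ext (a w) s := by
  rw [ext_a' w hr, ext_a' w hs]
  have hc : Continuous (fun r => (1 - r) * ext w r) := by fun_prop
  have h1 : pr (fun r => (1 - r) * ext w r) s - pr (fun r => (1 - r) * ext w r) r
      = ∫ x in r..s, (1 - x) * ext w x := by
    unfold pr
    rw [intervalIntegral.integral_interval_sub_left (hc.intervalIntegrable _ _)
      (hc.intervalIntegrable _ _)]
  have h2 : 0 ≤ ∫ x in r..s, (1 - x) * ext w x := by
    apply intervalIntegral.integral_nonneg hrs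
    intro x hx
    have hx' : x ∈ Icc (0:ℝ) 1 := ⟨hr.1.trans hx.1, hx.2.trans hs.2⟩
    exact mul_nonneg (by linarith [hx'.2]) (hw x hx')
  linarith

lemma aa_le {w : X} (hw : NN w) {s : ℝ} (hs : s ∈ Icc (0:ℝ) 1) :
    ext (a (a w)) s ≤ 1/4 * ext (a w) s := by
  rw [ext_a' (a w) hs]
  have hA := NN_a hw s hs
  have h1 : pr (fun r => (1 - r) * ext (a w) r) s ≤ pr (fun r => (1 - r) * ext (a w) s) s := by
    apply intervalIntegral.integral_mono_on hs.1
      (Continuous.intervalIntegrable (by fun_prop) _ _)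
      (Continuous.intervalIntegrable (by fun_prop) _ _)
    intro x hx
    have hx' : x ∈ Icc (0:ℝ) 1 := ⟨hx.1, hx.2.trans hs.2⟩
    exact mul_le_mul_of_nonneg_left (a_mono_s hw hx' hs hx.2) (by linarith [hx'.2])
  have h2 : pr (fun r => (1 - r) * ext (a w) s) s = (s - s^2/2) * ext (a w) s := by
    unfold pr
    rw [intervalIntegral.integral_mul_const]
    congr 1
    rw [intervalIntegral.integral_sub (by simp) (by simp)]
    simp
  rw [h2] at h1
  have h3 : (s - s^2/2) * ext (a w) s ≤ 1/2 * ext (a w) s := by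
    apply mul_le_mul_of_nonneg_right _ hA
    nlinarith [sq_nonneg (1 - s)]
  linarith

lemma NN_a_pow {w : X} (hw : NN w) (n : ℕ) : NN ((a^n) w) := by
  induction n with
  | zero => exact hw
  | succ n ih => rw [pow_succ', mul_apply_eq_comp]; exact NN_a ih

lemma exp_lower {w : X} (hw : NN w) {c : ℝ} (hc : 0 ≤ c) (hc2 : c ≤ 12) {s : ℝ}
    (hs : s ∈ Icc (0:ℝ) 1) :
    ext (w - c • a w + (c^2/2) • a (a w) - (c^3/6) • a (a (a w))) s
      ≤ ext (NormedSpace.exp ((-c) • a) w) s := by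
  have h := (hasSum_exp_apply ((-c) • a) w).mapL (ev s)
  set x : ℕ → ℝ := fun n => c^n / n.factorial * ext ((a^n) w) s with hx
  have e : (fun n : ℕ => ev s (((n.factorial:ℝ)⁻¹) • ((((-c) • a)^n) w))) =
      fun n => (-1)^n * x n := by
    funext n
    simp only [smul_pow, smul_apply, map_smul, ev_apply, smul_eq_mul, hx]
    have h2 : (-c)^n = (-1)^n * c^n := by rw [← mul_pow]; ring
    rw [h2]; ring
  rw [e, ← hasSum_nat_add_iff' 4] at h
  have hanti : Antitone (fun n => x (n + 4)) := by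
    apply antitone_nat_of_succ_le
    intro n
    simp only [hx]
    have h1 : ext ((a^(n+1+4)) w) s ≤ 1/4 * ext ((a^(n+4)) w) s := by
      have : (a^(n+1+4)) w = a (a ((a^(n+3)) w)) := by
        rw [show n+1+4 = (n+3)+1+1 by ring, pow_succ', pow_succ', mul_apply_eq_comp,
          mul_apply_eq_comp]
      have h2 : (a^(n+4)) w = a ((a^(n+3)) w) := by
        rw [show n+4 = (n+3)+1 by ring, pow_succ', mul_apply_eq_comp]
      rw [this, h2]
      exact aa_le (NN_a_pow hw _) hs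
    have h3 : 0 ≤ ext ((a^(n+4)) w) s := NN_a_pow hw _ s hs
    have h4 : ((n+1+4).factorial : ℝ) = (n+5) * (n+4).factorial := by
      rw [show n+1+4 = (n+4)+1 by ring, Nat.factorial_succ]; push_cast; ring
    have hf : (0:ℝ) < (n+4).factorial := by positivity
    calc c^(n+1+4) / (n+1+4).factorial * ext ((a^(n+1+4)) w) s
        ≤ c^(n+1+4) / (n+1+4).factorial * (1/4 * ext ((a^(n+4)) w) s) := by gcongr
      _ = (c / (4 * (n+5))) * (c^(n+4) / (n+4).factorial * ext ((a^(n+4)) w) s) := by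
          rw [h4]; field_simp; ring
      _ ≤ 1 * (c^(n+4) / (n+4).factorial * ext ((a^(n+4)) w) s) := by
          apply mul_le_mul_of_nonneg_right _ (by positivity)
          rw [div_le_one (by positivity)]
          have : (0:ℝ) ≤ n := Nat.cast_nonneg n
          linarith
      _ = _ := one_mul _
  have ht : Tendsto (fun n => ∑ i ∈ Finset.range n, (-1)^i * x (i+4)) atTop
      (𝓝 (ev s (NormedSpace.exp ((-c) • a) w) - ∑ i ∈ Finset.range 4, (-1)^i * x i)) := by
    have := h.tendsto_sum_nat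
    refine this.congr fun n => ?_
    apply Finset.sum_congr rfl
    intro i _
    rw [pow_add]; norm_num
  have h5 := hanti.alternating_series_le_tendsto ht 0
  simp only [mul_zero, Finset.range_zero, Finset.sum_empty, ev_apply] at h5
  simp only [Finset.sum_range_succ, Finset.sum_range_zero, hx] at h5
  have p0 : (a^0) w = w := rfl
  have p1 : (a^1) w = a w := by rw [pow_one]
  have p2 : (a^2) w = a (a w) := by rw [pow_two, mul_apply_eq_comp]
  have p3 : (a^3) w = a (a (a w)) := by rw [pow_succ', pow_two, mul_apply_eq_comp, mul_apply_eq_comp]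
  rw [p0, p1, p2, p3] at h5
  rw [ext_sub, ext_add, ext_sub, ext_smul, ext_smul, ext_smul]
  norm_num [Nat.factorial] at h5
  rw [neg_smul]
  linarith

lemma NN_phi (k : ℕ) : NN (phi k) := by
  intro s hs
  rw [ext_phi k hs]
  linarith [Real.cos_le_one (k * Real.pi * s)]

/-- second order functional -/
noncomputable def LL (α c : ℝ) (w : X) : ℝ :=
  Lam α w - c/2 * J α w + c^2/4 * J α (a w) - c^3/12 * J α (a (a w))

lemma Lam_mono {α : ℝ} (hα : 0 < α) (hα1 : α < 1) {u w : X} {v v' : ℝ → ℝ} (hu : Adm u v)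
    (hw : Adm w v') (h : ∀ s ∈ Icc (0:ℝ) 1, ext u s ≤ ext w s) : Lam α u ≤ Lam α w := by
  unfold Lam
  have h1 := h 1 ⟨zero_le_one, le_refl _⟩
  have h2 : ∫ s in (0:ℝ)..1, s ^ (α - 2) * ext u s ≤ ∫ s in (0:ℝ)..1, s ^ (α - 2) * ext w s := by
    apply intervalIntegral.integral_mono_on zero_le_one (hu.intInt hα) (hw.intInt hα)
    intro s hs
    exact mul_le_mul_of_nonneg_left (h s hs) (Real.rpow_nonneg hs.1 _)
  have h3 : (0:ℝ) ≤ 1 - α := by linarith
  nlinarith

lemma Adm.add {u w : X} {v v' : ℝ → ℝ} (hu : Adm u v) (hw : Adm w v') :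
    Adm (u + w) (fun s => v s + v' s) := by
  refine ⟨hu.1.add hw.1, fun s hs => ?_⟩
  rw [ext_add, hu.2 s hs, hw.2 s hs]
  unfold pr
  rw [intervalIntegral.integral_add (hu.1.intervalIntegrable _ _) (hw.1.intervalIntegrable _ _)]

lemma Adm.smul (c : ℝ) {u : X} {v : ℝ → ℝ} (hu : Adm u v) :
    Adm (c • u) (fun s => c * v s) := by
  refine ⟨continuous_const.mul hu.1, fun s hs => ?_⟩
  rw [ext_smul, hu.2 s hs]
  unfold pr
  rw [intervalIntegral.integral_const_mul]

lemma Adm.sub {u w : X} {v v' : ℝ → ℝ} (hu : Adm u v) (hw : Adm w v') :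
    Adm (u - w) (fun s => v s - v' s) := by
  refine ⟨hu.1.sub hw.1, fun s hs => ?_⟩
  rw [ext_sub, hu.2 s hs, hw.2 s hs]
  unfold pr
  rw [intervalIntegral.integral_sub (hu.1.intervalIntegrable _ _) (hw.1.intervalIntegrable _ _)]

lemma Lam_add {α : ℝ} (hα : 0 < α) {u w : X} {v v' : ℝ → ℝ} (hu : Adm u v)
    (hw : Adm w v') : Lam α (u + w) = Lam α u + Lam α w := by
  unfold Lam
  have : ∫ s in (0:ℝ)..1, s ^ (α - 2) * ext (u + w) s =
      (∫ s in (0:ℝ)..1, s ^ (α - 2) * ext u s) + ∫ s in (0:ℝ)..1, s ^ (α - 2) * ext w s := by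
    rw [← intervalIntegral.integral_add (hu.intInt hα) (hw.intInt hα)]
    congr 1
    funext s
    rw [ext_add]; ring
  rw [this, ext_add]; ring

lemma Lam_smul (α c : ℝ) (u : X) : Lam α (c • u) = c * Lam α u := by
  unfold Lam
  have : ∫ s in (0:ℝ)..1, s ^ (α - 2) * ext (c • u) s =
      c * ∫ s in (0:ℝ)..1, s ^ (α - 2) * ext u s := by
    rw [← intervalIntegral.integral_const_mul]
    congr 1
    funext s
    rw [ext_smul]; ring
  rw [this, ext_smul]; ring

lemma Adm_B (c : ℝ) (k : ℕ) : Adm (B c k) (pr (ext (F c k))) := by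
  rw [B_eq_G]; exact Adm_G _

lemma LL_le_Lam_B {α : ℝ} (hα : 0 < α) (hα1 : α < 1) {c : ℝ} (hc : 0 ≤ c) (hc2 : c ≤ 12) (k : ℕ) :
    LL α c (phi k) ≤ Lam α (B c k) := by
  set Y : X := phi k + (-c) • a (phi k + (-(c/2)) • a (phi k) + (c^2/6) • a (a (phi k))) with hY
  have hYe : Y = phi k - c • a (phi k) + (c^2/2) • a (a (phi k)) - (c^3/6) • a (a (a (phi k))) := by
    rw [hY]
    simp only [map_add, map_smul]
    module
  have hAB := Adm_B c k
  have hAY := (Adm_phi k).add ((Adm_a (phi k + (-(c/2)) • a (phi k) + (c^2/6) • a (a (phi k)))).smul (-c))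
  rw [← hY] at hAY
  have h1 : Lam α Y ≤ Lam α (B c k) := by
    apply Lam_mono hα hα1 hAY hAB
    intro s hs
    rw [hYe]
    exact exp_lower (NN_phi k) hc hc2 hs
  have h2 : Lam α Y = LL α c (phi k) := by
    rw [hY, Lam_add hα (Adm_phi k) ((Adm_a _).smul (-c)), Lam_smul, Lam_a hα hα1,
      J_add hα, J_add hα, J_smul, J_smul]
    unfold LL
    ring
  rw [← h2]; exact h1

end B595
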