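import Pool.Agent.B595.Pos1

open Set Filter Topology MeasureTheory

namespace B595

/-- first order weight -/
noncomputable def wt (α c s : ℝ) : ℝ := s ^ (α - 2) * ((1 - α) - c/2 * (s * (1 - s)))

lemma wt_int {α : ℝ} (hα : 0 < α) (c : ℝ) {u : X} {v : ℝ → ℝ} (h : Adm u v) :
    IntervalIntegrable (fun s => wt α c s * ext u s) volume 0 1 := by
  have h1 := (h.intInt hα).const_mul (1 - α)
  have h2 := (J_int hα u).const_mul (c/2)
  apply (h1.sub h2).congr_ae
  rw [uIoc_of_le zero_le_one]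
  refine (ae_restrict_mem measurableSet_Ioc).mono fun s hs => ?_
  change (1 - α) * (s ^ (α - 2) * ext u s) - c/2 * (s ^ (α - 1) * ((1 - s) * ext u s)) =
    wt α c s * ext u s
  have : s ^ (α - 1) = s ^ (α - 2) * s := by
    rw [← Real.rpow_add_one hs.1.ne']; ring_nf
  rw [this]; unfold wt; ring

lemma LL_eq {α : ℝ} (hα : 0 < α) (c : ℝ) {u : X} {v : ℝ → ℝ} (h : Adm u v) :
    LL α c u = ext u 1 + (∫ s in (0:ℝ)..1, wt α c s * ext u s)
      + (c^2/4 * J α (a u) - c^3/12 * J α (a (a u))) := by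
  have e : ∫ s in (0:ℝ)..1, wt α c s * ext u s =
      (1 - α) * (∫ s in (0:ℝ)..1, s ^ (α - 2) * ext u s) - c/2 * J α u := by
    unfold J
    rw [← intervalIntegral.integral_const_mul, ← intervalIntegral.integral_const_mul,
      ← intervalIntegral.integral_sub ((h.intInt hα).const_mul _) ((J_int hα u).const_mul _)]
    apply intervalIntegral.integral_congr_ae
    refine Eventually.of_forall fun s hs => ?_
    rw [uIoc_of_le zero_le_one] at hs
    have : s ^ (α - 1) = s ^ (α - 2) * s := by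
      rw [← Real.rpow_add_one hs.1.ne']; ring_nf
    rw [this]; unfold wt; ring
  unfold LL Lam
  rw [e]; ring

lemma J_mono {α : ℝ} (hα : 0 < α) {u w : X} (h : ∀ s ∈ Icc (0:ℝ) 1, ext u s ≤ ext w s) :
    J α u ≤ J α w := by
  unfold J
  apply intervalIntegral.integral_mono_on zero_le_one (J_int hα u) (J_int hα w)
  intro s hs
  exact mul_le_mul_of_nonneg_left (mul_le_mul_of_nonneg_left (h s hs) (by linarith [hs.2]))
    (Real.rpow_nonneg hs.1 _)

lemma J_nonneg {α : ℝ} {u : X} (h : NN u) : 0 ≤ J α u := by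
  unfold J
  apply intervalIntegral.integral_nonneg zero_le_one
  intro s hs
  exact mul_nonneg (Real.rpow_nonneg hs.1 _) (mul_nonneg (by linarith [hs.2]) (h s hs))

/-- monotonicity of `J` in the exponent -/
lemma J_anti {α α' : ℝ} (hα : 0 < α) (hαα : α ≤ α') {u : X} (h : NN u) : J α' u ≤ J α u := by
  unfold J
  apply intervalIntegral.integral_mono_on_of_le_Ioo zero_le_one (J_int (hα.trans_le hαα) u) (J_int hα u)
  intro s hs
  have hs' : s ∈ Icc (0:ℝ) 1 := ⟨hs.1.le, hs.2.le⟩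
  apply mul_le_mul_of_nonneg_right _ (mul_nonneg (by linarith [hs.2]) (h s hs'))
  exact Real.rpow_le_rpow_of_exponent_ge hs.1 hs.2.le (by linarith)

lemma NN_comb {w : X} (hw : NN w) {c : ℝ} (hc : 0 ≤ c) (hc2 : c ≤ 12) :
    NN (a w - (c/3) • a (a w)) := by
  intro s hs
  rw [ext_sub, ext_smul]
  have h1 := aa_le hw hs
  have h2 := NN_a hw s hs
  nlinarith

lemma second_eq {α : ℝ} (hα : 0 < α) (c : ℝ) (w : X) :
    c^2/4 * J α (a w) - c^3/12 * J α (a (a w)) = c^2/4 * J α (a w - (c/3) • a (a w)) := by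
  rw [J_sub hα, J_smul]; ring

lemma wt_anti {α α' c s : ℝ} (hαα : α ≤ α') (hs : 0 < s) (hs1 : s ≤ 1)
    (hp : 0 ≤ s + (1 - α') * (1 - s) - c/2 * (s * (1 - s)^2)) :
    wt α' c s ≤ wt α c s := by
  unfold wt
  set κ := c/2 * (s * (1 - s)) with hκ
  set δ := α' - α with hδ
  have hδ0 : 0 ≤ δ := by rw [hδ]; linarith
  have e1 : s ^ (α' - 2) = s ^ (α - 2) * s ^ δ := by
    rw [← Real.rpow_add hs]; congr 1; rw [hδ]; ring
  rw [e1, mul_assoc]
  apply mul_le_mul_of_nonneg_left _ (Real.rpow_nonneg hs.le _)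
  have hy1 : s ^ δ ≤ 1 := Real.rpow_le_one hs.le hs1 hδ0
  have hy0 : 0 ≤ s ^ δ := Real.rpow_nonneg hs.le _
  have hlog : 1 - s⁻¹ ≤ Real.log s := Real.one_sub_inv_le_log_of_pos hs
  have hy2 : 1 + δ * (1 - s⁻¹) ≤ s ^ δ := by
    rw [Real.rpow_def_of_pos hs]
    have := Real.add_one_le_exp (Real.log s * δ)
    nlinarith
  rcases le_total 0 (1 - α' - κ) with h | h
  · nlinarith
  · -- (1-α'-κ) ≤ 0
    have h1 : s ^ δ * (1 - α' - κ) ≤ (1 + δ * (1 - s⁻¹)) * (1 - α' - κ) :=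
      mul_le_mul_of_nonpos_right hy2 h
    refine h1.trans ?_
    have h2 : (s⁻¹ - 1) * (κ - (1 - α')) ≤ 1 := by
      have h3 : (s⁻¹ - 1) * (κ - (1 - α')) = (s⁻¹) * ((1 - s) * (κ - (1 - α'))) := by
        field_simp
      rw [h3, inv_mul_le_iff₀ hs, hκ]
      nlinarith
    have h4 : 1 - α - κ = (1 - α' - κ) + δ := by rw [hδ]; ring
    rw [h4]
    nlinarith

lemma LL_anti {α α' c : ℝ} (hα : 0 < α) (hαα : α ≤ α') (hc : 0 ≤ c) (hc2 : c ≤ 12)
    (hp : ∀ s ∈ Icc (0:ℝ) 1, 0 ≤ s + (1 - α') * (1 - s) - c/2 * (s * (1 - s)^2)) (k : ℕ) :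
    LL α' c (phi k) ≤ LL α c (phi k) := by
  have hα' : 0 < α' := hα.trans_le hαα
  rw [LL_eq hα c (Adm_phi k), LL_eq hα' c (Adm_phi k), second_eq hα, second_eq hα']
  have h1 := J_anti hα hαα (NN_comb (NN_phi k) hc hc2)
  have h2 : ∫ s in (0:ℝ)..1, wt α' c s * ext (phi k) s ≤
      ∫ s in (0:ℝ)..1, wt α c s * ext (phi k) s := by
    apply intervalIntegral.integral_mono_on_of_le_Ioo zero_le_one (wt_int hα' c (Adm_phi k))
      (wt_int hα c (Adm_phi k))
    intro s hs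
    have hs' : s ∈ Icc (0:ℝ) 1 := ⟨hs.1.le, hs.2.le⟩
    exact mul_le_mul_of_nonneg_right (wt_anti hαα hs.1 hs.2.le (hp s hs')) (NN_phi k s hs')
  have h3 : 0 ≤ c^2/4 := by positivity
  nlinarith

end B595
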