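import Pool.Agent.B595.Two

open Set Filter Topology MeasureTheory

namespace B595

lemma wallis (j : ℕ) : (∏ i ∈ Finset.range j, (2 * (i:ℝ) + 1) / (2 * i + 2)) =
    ((2*j).factorial : ℝ) / (4^j * (j.factorial : ℝ)^2) := by
  induction j with
  | zero => simp
  | succ n ih =>
    rw [Finset.prod_range_succ, ih]
    have e1 : ((2*(n+1)).factorial : ℝ) = (2*n+2)*(2*n+1) * (2*n).factorial := by
      have : 2*(n+1) = (2*n+1)+1 := by ring
      rw [this, Nat.factorial_succ, Nat.factorial_succ]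
      push_cast; ring
    have e2 : ((n+1).factorial : ℝ) = (n+1) * n.factorial := by
      rw [Nat.factorial_succ]; push_cast; ring
    have h1 : ((n.factorial : ℕ) : ℝ) ≠ 0 := by positivity
    rw [e1, e2]
    field_simp
    ring

lemma J0_integral (x : ℝ) :
    Real.pi * J0 x = ∫ θ in (0:ℝ)..Real.pi, Real.cos (x * Real.sin θ) := by
  have hsum : Summable (fun j : ℕ => |x|^(2*j) / ((2*j).factorial : ℝ)) := by
    have h := (Real.hasSum_cosh |x|).summable
    exact h
  have h := intervalIntegral.hasSum_integral_of_dominated_convergence (μ := volume)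
    (a := 0) (b := Real.pi)
    (F := fun j : ℕ => fun θ : ℝ => (-1:ℝ)^j * (x * Real.sin θ)^(2*j) / ((2*j).factorial : ℝ))
    (f := fun θ => Real.cos (x * Real.sin θ))
    (bound := fun j _ => |x|^(2*j) / ((2*j).factorial : ℝ))
    (fun j => (Continuous.aestronglyMeasurable (by fun_prop)))
    (fun j => Eventually.of_forall fun θ _ => by
      rw [norm_div, norm_mul, norm_pow, norm_neg, norm_one, one_pow, one_mul, norm_pow,
        Real.norm_eq_abs, Real.norm_eq_abs, Nat.abs_cast, abs_mul]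
      gcongr
      calc |x| * |Real.sin θ| ≤ |x| * 1 := by gcongr; exact Real.abs_sin_le_one _
        _ = |x| := mul_one _)
    (Eventually.of_forall fun θ _ => hsum)
    intervalIntegrable_const
    (Eventually.of_forall fun θ _ => Real.hasSum_cos _)
  have e : ∀ j : ℕ, ∫ θ in (0:ℝ)..Real.pi, (-1:ℝ)^j * (x * Real.sin θ)^(2*j) / ((2*j).factorial : ℝ) =
      Real.pi * ((-1)^j / ((j.factorial : ℝ))^2 * (x/2)^(2*j)) := by
    intro j
    have : ∀ θ : ℝ, (-1:ℝ)^j * (x * Real.sin θ)^(2*j) / ((2*j).factorial : ℝ) =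
        ((-1:ℝ)^j * x^(2*j) / ((2*j).factorial : ℝ)) * Real.sin θ^(2*j) := by
      intro θ; rw [mul_pow]; ring
    simp_rw [this]
    rw [intervalIntegral.integral_const_mul, integral_sin_pow_even, wallis]
    have h1 : ((j.factorial : ℕ) : ℝ) ≠ 0 := by positivity
    have h2 : (((2*j).factorial : ℕ) : ℝ) ≠ 0 := by positivity
    rw [div_pow, show (2:ℝ)^(2*j) = 4^j by rw [pow_mul]; norm_num]
    field_simp
  simp_rw [e] at h
  have h2 := h.tsum_eq
  rw [tsum_mul_left] at h2
  exact h2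

lemma J0_anti {x y : ℝ} (hx : 0 ≤ x) (hxy : x ≤ y) (hy : y ≤ Real.pi) : J0 y ≤ J0 x := by
  have h : Real.pi * J0 y ≤ Real.pi * J0 x := by
    rw [J0_integral, J0_integral]
    apply intervalIntegral.integral_mono_on Real.pi_pos.le
      (Continuous.intervalIntegrable (by fun_prop) _ _)
      (Continuous.intervalIntegrable (by fun_prop) _ _)
    intro θ hθ
    have hs0 := Real.sin_nonneg_of_mem_Icc hθ
    have hs1 := Real.sin_le_one θ
    apply Real.cos_le_cos_of_nonneg_of_le_pi (by positivity)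
    · nlinarith [Real.pi_pos]
    · exact mul_le_mul_of_nonneg_right hxy hs0
  exact le_of_mul_le_mul_left h Real.pi_pos

lemma E_anti {C : ℝ} (hC0 : 0 ≤ C) (hC : C ≤ Real.pi^2) {r s : ℝ} (hr : r ∈ Icc (0:ℝ) 1)
    (hs : s ∈ Icc (0:ℝ) 1) (hrs : r ≤ s) : ext (E C) s ≤ ext (E C) r := by
  have hsq : C = (√C)^2 := (Real.sq_sqrt hC0).symm
  have hCp : √C ≤ Real.pi := by
    rw [Real.sqrt_le_left Real.pi_pos.le]; exact hC
  rw [hsq, E_eq_J0 _ hr, E_eq_J0 _ hs]
  have h1 : r * (2 - r) ≤ s * (2 - s) := by nlinarith [hr.1, hs.2, hrs]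
  have h2 : s * (2 - s) ≤ 1 := by nlinarith [sq_nonneg (1 - s)]
  apply J0_anti (by positivity)
  · gcongr
  · calc √C * √(s * (2 - s)) ≤ √C * 1 := by
          gcongr
          rw [← Real.sqrt_one]; exact Real.sqrt_le_sqrt h2
      _ ≤ Real.pi := by linarith

lemma ext_E_zero (C : ℝ) : ext (E C) 0 = 1 := by
  have h := E_hasSum C (s := 0) ⟨le_refl _, zero_le_one⟩
  have h2 : HasSum (fun j : ℕ => (-1:ℝ)^j / ((j.factorial : ℝ))^2 * (C * (0 * (2 - 0)) / 4)^j) 1 := by
    have := hasSum_single (f := fun j : ℕ => (-1:ℝ)^j / ((j.factorial : ℝ))^2 * (C * (0 * (2 - 0)) / 4)^j) 0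
      (fun j hj => by simp [hj])
    simpa using this
  exact h.unique h2

/-- sign change comparison -/
lemma sign_compare {C : ℝ} (hC0 : 0 ≤ C) (hC : C ≤ Real.pi^2) {β α : ℝ} (hβ : 0 ≤ β) (hβα : β < α)
    (h0 : ∫ s in (0:ℝ)..1, s ^ β * ext (E C) s ≤ 0) :
    ∫ s in (0:ℝ)..1, s ^ α * ext (E C) s < 0 := by
  have hα : 0 < α := by linarith
  have cβ : Continuous (fun s : ℝ => s ^ β * ext (E C) s) :=
    (Real.continuous_rpow_const hβ).mul (ext_cont _)
  have cα : Continuous (fun s : ℝ => s ^ α * ext (E C) s) :=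
    (Real.continuous_rpow_const hα.le).mul (ext_cont _)
  -- e(1) ≤ 0
  have he1 : ext (E C) 1 ≤ 0 := by
    by_contra hcon
    push Not at hcon
    have : 0 < ∫ s in (0:ℝ)..1, s ^ β * ext (E C) s := by
      apply intervalIntegral.integral_pos zero_lt_one cβ.continuousOn
      · intro s hs
        have hs' : s ∈ Icc (0:ℝ) 1 := ⟨hs.1.le, hs.2⟩
        have := E_anti hC0 hC hs' ⟨zero_le_one, le_refl _⟩ hs.2
        exact mul_nonneg (Real.rpow_nonneg hs.1.le _) (by linarith)
      · exact ⟨1, ⟨zero_le_one, le_refl _⟩, by rw [Real.one_rpow, one_mul]; exact hcon⟩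
    linarith
  have hz : (0:ℝ) ∈ (ext (E C)) '' Icc 0 1 := by
    apply intermediate_value_Icc' zero_le_one (ext_cont _).continuousOn
    exact ⟨he1, by rw [ext_E_zero]; exact zero_le_one⟩
  obtain ⟨z, hz1, hz2⟩ := hz
  have hz0 : 0 < z := by
    rcases eq_or_lt_of_le hz1.1 with h | h
    · rw [← h, ext_E_zero] at hz2; norm_num at hz2
    · exact h
  set δ := α - β with hδ
  have hδ0 : 0 < δ := by rw [hδ]; linarith
  have cδ : Continuous (fun s : ℝ => (z ^ δ * (s ^ β * ext (E C) s) - s ^ α * ext (E C) s)) :=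
    (continuous_const.mul cβ).sub cα
  have key : 0 < ∫ s in (0:ℝ)..1, (z ^ δ * (s ^ β * ext (E C) s) - s ^ α * ext (E C) s) := by
    have hfac : ∀ s : ℝ, 0 < s → z ^ δ * (s ^ β * ext (E C) s) - s ^ α * ext (E C) s =
        s ^ β * ((z ^ δ - s ^ δ) * ext (E C) s) := by
      intro s hs
      have : s ^ α = s ^ β * s ^ δ := by
        rw [← Real.rpow_add hs]; congr 1; rw [hδ]; ring
      rw [this]; ring
    apply intervalIntegral.integral_pos zero_lt_one cδ.continuousOn
    · intro s hs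
      rw [hfac s hs.1]
      have hs' : s ∈ Icc (0:ℝ) 1 := ⟨hs.1.le, hs.2⟩
      apply mul_nonneg (Real.rpow_nonneg hs.1.le _)
      rcases le_total s z with h | h
      · have h1 := E_anti hC0 hC hs' hz1 h
        have h2 := Real.rpow_le_rpow hs.1.le h hδ0.le
        exact mul_nonneg (by linarith) (by linarith)
      · have h1 := E_anti hC0 hC hz1 hs' h
        have h2 := Real.rpow_le_rpow hz0.le h hδ0.le
        exact mul_nonneg_of_nonpos_of_nonpos (by linarith) (by linarith)
    · -- a point near zero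
      have hcont : ContinuousAt (ext (E C)) 0 := (ext_cont _).continuousAt
      have hev : ∀ᶠ s in 𝓝 (0:ℝ), 0 < ext (E C) s := by
        apply hcont.eventually (lt_mem_nhds _)
        rw [ext_E_zero]; exact zero_lt_one
      have hev2 : ∀ᶠ s in 𝓝[>] (0:ℝ), 0 < ext (E C) s := hev.filter_mono nhdsWithin_le_nhds
      have hev3 : ∀ᶠ s in 𝓝[>] (0:ℝ), s ∈ Ioo (0:ℝ) z := Ioo_mem_nhdsGT hz0
      obtain ⟨s, hs1, hs2⟩ := (hev2.and hev3).exists
      refine ⟨s, ⟨hs2.1.le, (hs2.2.le.trans hz1.2)⟩, ?_⟩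
      rw [hfac s hs2.1]
      have h2 := Real.rpow_lt_rpow hs2.1.le hs2.2 hδ0
      exact mul_pos (Real.rpow_pos_of_pos hs2.1 _) (mul_pos (by linarith) hs1)
  rw [intervalIntegral.integral_sub ((cβ.intervalIntegrable _ _).const_mul _)
    (cα.intervalIntegrable _ _), intervalIntegral.integral_const_mul] at key
  have hzδ : 0 ≤ z ^ δ := Real.rpow_nonneg hz0.le _
  nlinarith

lemma P_tau_E {α : ℝ} (hα : 0 < α) (C : ℝ) :
    P (tau α hα) (E C) = ∫ s in (0:ℝ)..1, s ^ α * ext (E C) s := by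
  unfold P
  apply intervalIntegral.integral_congr
  intro s hs
  rw [uIcc_of_le zero_le_one] at hs
  simp only [ext_tau hα hs]

lemma neg_at_pi {α : ℝ} (hα : 0 < α) : P (tau α hα) (E (Real.pi^2)) < 0 := by
  rw [P_tau_E hα]
  apply sign_compare (sq_nonneg _) (le_refl _) (le_refl 0) hα
  have h := P_one_E (c := Real.pi^2) (by positivity)
  rw [Real.sqrt_sq Real.pi_pos.le, Real.sin_pi, zero_div] at h
  unfold P at h
  simp only [Real.rpow_zero]
  simp only [ext_one] at h
  exact h.le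

end B595
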