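import Pool.Agent.B595.Root

open Set Filter Topology MeasureTheory

namespace B595

/-- coefficients of the polynomial majorant of `E (885/100)` -/
noncomputable def dco : ℕ → ℝ
  | 0 => 1/1
  | 1 => -177/40
  | 2 => 45489/6400
  | 3 => -1869297/256000
  | 4 => 901053369/163840000
  | 5 => -533161214073/163840000000
  | 6 => 42160860591969/26214400000000
  | 7 => -17584556757507/26214400000000
  | 8 => 5099797371987/20971520000000
  | 9 => -765683924229/10485760000000
  | 10 => 57908868219/3355443200000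
  | 11 => -1138874408307/419430400000000
  | 12 => 379624802769/1677721600000000
  | _ => 0

lemma E_le_partial {C : ℝ} (hC0 : 0 ≤ C) (hC : C ≤ 12) {s : ℝ} (hs : s ∈ Icc (0:ℝ) 1) :
    ext (E C) s ≤ ∑ j ∈ Finset.range 7, (-1:ℝ)^j * ((C * (s * (2 - s)) / 4)^j / ((j.factorial : ℝ))^2) := by
  have h := E_hasSum C hs
  have e : (fun j : ℕ => (-1:ℝ)^j / ((j.factorial : ℝ))^2 * (C * (s * (2 - s)) / 4)^j) =
      fun j => (-1:ℝ)^j * ((C * (s * (2 - s)) / 4)^j / ((j.factorial : ℝ))^2) := by
    funext j; ring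
  rw [e] at h
  have hs2 : s * (2 - s) ≤ 1 := by nlinarith [sq_nonneg (1 - s)]
  have hs3 : 0 ≤ s * (2 - s) := mul_nonneg hs.1 (by linarith [hs.2])
  have hy0 : 0 ≤ C * (s * (2 - s)) / 4 := by positivity
  have hy1 : C * (s * (2 - s)) / 4 ≤ 3 := by nlinarith
  have hanti : Antitone (fun n : ℕ => (C * (s * (2 - s)) / 4)^(n+7) / (((n+7).factorial : ℝ))^2) := by
    apply antitone_nat_of_succ_le
    intro n
    have h1 : (((n+1+7).factorial : ℕ) : ℝ) = (n+8) * ((n+7).factorial : ℝ) := by
      have : n+1+7 = (n+7)+1 := by ring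
      rw [this, Nat.factorial_succ]; push_cast; ring
    have h2 : (C * (s * (2 - s)) / 4)^(n+1+7) =
        (C * (s * (2 - s)) / 4) * (C * (s * (2 - s)) / 4)^(n+7) := by
      rw [← pow_succ']
    rw [h1, h2, mul_pow, mul_div_mul_comm]
    have h3 : 0 ≤ (C * (s * (2 - s)) / 4)^(n+7) / (((n+7).factorial : ℝ))^2 := by positivity
    have h4 : (C * (s * (2 - s)) / 4) / ((n:ℝ)+8)^2 ≤ 1 := by
      rw [div_le_one (by positivity)]
      have : (0:ℝ) ≤ n := Nat.cast_nonneg n
      nlinarith
    calc _ ≤ 1 * ((C * (s * (2 - s)) / 4)^(n+7) / (((n+7).factorial : ℝ))^2) :=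
          mul_le_mul_of_nonneg_right h4 h3
      _ = _ := one_mul _
  have h5 := alt_tail h 7 hanti
  have h6 : (-1:ℝ)^7 = -1 := by norm_num
  rw [h6] at h5
  linarith

lemma int_poly {α : ℝ} (hα : 0 ≤ α) (N : ℕ) (d : ℕ → ℝ) :
    ∫ s in (0:ℝ)..1, s ^ α * ∑ n ∈ Finset.range N, d n * s^n =
      ∑ n ∈ Finset.range N, d n / (α + n + 1) := by
  have e : ∀ s : ℝ, s ^ α * ∑ n ∈ Finset.range N, d n * s^n =
      ∑ n ∈ Finset.range N, d n * (s ^ α * s^n) := by
    intro s
    rw [Finset.mul_sum]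
    apply Finset.sum_congr rfl
    intro n _
    ring
  simp_rw [e]
  rw [intervalIntegral.integral_finsetSum]
  · apply Finset.sum_congr rfl
    intro n _
    rw [intervalIntegral.integral_const_mul]
    have hn : (0:ℝ) ≤ n := Nat.cast_nonneg n
    have : ∫ s in (0:ℝ)..1, s ^ α * s^n = ∫ s in (0:ℝ)..1, s ^ (α + n) := by
      apply intervalIntegral.integral_congr_ae
      refine Eventually.of_forall fun s hs => ?_
      rw [uIoc_of_le zero_le_one] at hs
      rw [← Real.rpow_natCast, ← Real.rpow_add hs.1]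
    rw [this, integral_rpow (Or.inl (by linarith)), Real.one_rpow, Real.zero_rpow (by linarith),
      sub_zero]
    ring
  · intro n _
    exact (((Real.continuous_rpow_const hα).mul (continuous_pow n)).const_mul (d n)).intervalIntegrable _ _

lemma neg_at_mid : ∫ s in (0:ℝ)..1, s ^ ((1:ℝ)/5) * ext (E (885/100)) s ≤ 0 := by
  have h1 : ∫ s in (0:ℝ)..1, s ^ ((1:ℝ)/5) * ext (E (885/100)) s ≤
      ∫ s in (0:ℝ)..1, s ^ ((1:ℝ)/5) * ∑ n ∈ Finset.range 13, dco n * s^n := by
    apply intervalIntegral.integral_mono_on zero_le_one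
    · exact ((Real.continuous_rpow_const (by norm_num)).mul (ext_cont _)).intervalIntegrable _ _
    · exact ((Real.continuous_rpow_const (by norm_num)).mul (by fun_prop)).intervalIntegrable _ _
    · intro s hs
      apply mul_le_mul_of_nonneg_left _ (Real.rpow_nonneg hs.1 _)
      refine (E_le_partial (by norm_num) (by norm_num) hs).trans (le_of_eq ?_)
      simp only [Finset.sum_range_succ, Finset.sum_range_zero, dco]
      norm_num [Nat.factorial]
      ring
  refine h1.trans ?_
  rw [int_poly (by norm_num)]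
  simp only [Finset.sum_range_succ, Finset.sum_range_zero, dco]
  norm_num

lemma exists_root {α : ℝ} (hα : 0 < α) {C : ℝ} (hC0 : 0 < C)
    (hneg : P (tau α hα) (E C) < 0) :
    ∃ b, 0 < b ∧ b < √C ∧ P (tau α hα) (E (b^2)) = 0 := by
  have hcont : Continuous (fun b : ℝ => P (tau α hα) (E (b^2))) :=
    (PL (tau α hα)).continuous.comp (E_cont.comp (continuous_pow 2))
  have h0 : 0 < P (tau α hα) (E ((0:ℝ)^2)) := by
    rw [P_tau_E hα]
    have hE0 : E ((0:ℝ)^2) = one := by
      unfold E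
      simp
    rw [hE0]
    have : ∫ s in (0:ℝ)..1, s ^ α * ext one s = 1 / (α + 1) := by
      have e : ∀ s : ℝ, s ^ α * ext one s = s ^ α := fun s => by rw [ext_one, mul_one]
      simp_rw [e]
      rw [integral_rpow (Or.inl (by linarith)), Real.one_rpow, Real.zero_rpow (by linarith), sub_zero]
    rw [this]; positivity
  have hsq : (√C)^2 = C := Real.sq_sqrt hC0.le
  have h1 : P (tau α hα) (E ((√C)^2)) < 0 := by rw [hsq]; exact hneg
  have hsC : 0 < √C := Real.sqrt_pos.2 hC0
  have hz := intermediate_value_Ioo' hsC.le hcont.continuousOn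
  obtain ⟨b, hb1, hb2⟩ := hz ⟨h1, h0⟩
  exact ⟨b, hb1.1, hb1.2, hb2⟩

end B595
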