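import Pool.Agent.B595.Pos2

open Set Filter Topology MeasureTheory

namespace B595

lemma alt_tail {x : ℕ → ℝ} {S : ℝ} (hs : HasSum (fun n => (-1:ℝ)^n * x n) S) (N : ℕ)
    (hanti : Antitone (fun n => x (n + N))) :
    0 ≤ (-1:ℝ)^N * (S - ∑ i ∈ Finset.range N, (-1:ℝ)^i * x i) := by
  rw [← hasSum_nat_add_iff' N] at hs
  have hs2 := hs.mul_left ((-1:ℝ)^N)
  have ht : Tendsto (fun n => ∑ i ∈ Finset.range n, (-1)^i * x (i+N)) atTop
      (𝓝 ((-1:ℝ)^N * (S - ∑ i ∈ Finset.range N, (-1:ℝ)^i * x i))) := by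
    refine hs2.tendsto_sum_nat.congr fun n => ?_
    apply Finset.sum_congr rfl
    intro i _
    have : (-1:ℝ)^N * ((-1:ℝ)^(i+N) * x (i+N)) = ((-1:ℝ)^N * (-1:ℝ)^N) * ((-1)^i * x (i+N)) := by
      rw [pow_add]; ring
    rw [this, ← mul_pow]; norm_num
  have h5 := hanti.alternating_series_le_tendsto ht 0
  simpa using h5

lemma cos_tail {x : ℝ} {N : ℕ} (hx : x^2 ≤ (2*N+1)*(2*N+2)) :
    0 ≤ (-1:ℝ)^N * (Real.cos x - ∑ j ∈ Finset.range N, (-1:ℝ)^j * (x^(2*j) / (2*j).factorial)) := by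
  have h := Real.hasSum_cos x
  have e : (fun n : ℕ => (-1:ℝ)^n * x^(2*n) / (2*n).factorial) =
      fun n => (-1:ℝ)^n * (x^(2*n) / (2*n).factorial) := by
    funext n; ring
  rw [e] at h
  apply alt_tail h N
  apply antitone_nat_of_succ_le
  intro n
  have h1 : ((2*(n+1+N)).factorial : ℝ) = (2*(n+N:ℕ)+1)*(2*(n+N:ℕ)+2) * (2*(n+N)).factorial := by
    have : 2*(n+1+N) = (2*(n+N)+1)+1 := by ring
    rw [this, Nat.factorial_succ, Nat.factorial_succ]
    push_cast; ring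
  have h2 : x^(2*(n+1+N)) = x^2 * x^(2*(n+N)) := by
    rw [← pow_add]; congr 1; ring
  rw [h1, h2, mul_div_mul_comm]
  have h3 : 0 ≤ x^(2*(n+N)) / ((2*(n+N)).factorial : ℝ) := by
    rw [pow_mul]; positivity
  have h4 : x^2 / ((2*((n+N:ℕ):ℝ)+1)*(2*((n+N:ℕ):ℝ)+2)) ≤ 1 := by
    rw [div_le_one (by positivity)]
    refine hx.trans ?_
    have : (N:ℝ) ≤ ((n+N:ℕ):ℝ) := by push_cast; linarith [Nat.cast_nonneg (α := ℝ) n]
    gcongr
  calc _ ≤ 1 * (x^(2*(n+N)) / ((2*(n+N)).factorial : ℝ)) := mul_le_mul_of_nonneg_right h4 h3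
    _ = _ := one_mul _

/-- monomials -/
noncomputable def mono (n : ℕ) : X := mk (fun s => s^n) (by fun_prop)

lemma ext_mono (n : ℕ) {s : ℝ} (hs : s ∈ Icc (0:ℝ) 1) : ext (mono n) s = s^n := ext_mk _ _ hs

lemma Adm_mono (n : ℕ) : Adm (mono (n+1)) (fun s => (n+1) * s^n) := by
  refine ⟨by fun_prop, fun s hs => ?_⟩
  rw [ext_mono _ hs]
  have hc : Continuous (fun s : ℝ => ((n:ℝ)+1) * s^n) := by fun_prop
  apply eq_of_deriv_eq (f := fun s => s^(n+1)) (g := pr _) (f' := fun s => ((n:ℝ)+1) * s^n)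
  · simp [pr_zero]
  · intro x
    have := hasDerivAt_pow (n+1) x
    refine this.congr_deriv ?_
    push_cast
    simp
  · intro x; exact hasDerivAt_pr hc x

lemma Lam_mono_eq {α : ℝ} (hα : 0 < α) (n : ℕ) :
    Lam α (mono (n+1)) = 1 + (1 - α) * (1 / (α + n)) := by
  unfold Lam
  rw [ext_mono _ ⟨zero_le_one, le_refl _⟩, one_pow]
  congr 2
  have : ∫ s in (0:ℝ)..1, s ^ (α - 2) * ext (mono (n+1)) s = ∫ s in (0:ℝ)..1, s ^ (α + n - 1) := by
    apply intervalIntegral.integral_congr_ae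
    refine Eventually.of_forall fun s hs => ?_
    rw [uIoc_of_le zero_le_one] at hs
    rw [ext_mono _ ⟨hs.1.le, hs.2⟩, ← Real.rpow_natCast, ← Real.rpow_add hs.1]
    congr 1; push_cast; ring
  have hn : (0:ℝ) ≤ n := Nat.cast_nonneg n
  rw [this, integral_rpow (Or.inl (by linarith)), Real.one_rpow, Real.zero_rpow (by linarith),
    sub_zero]
  congr 1; ring

noncomputable def j1 (α : ℝ) (n : ℕ) : ℝ := 1 / (α + n) - 1 / (α + n + 1)
noncomputable def j2 (α : ℝ) (n : ℕ) : ℝ := 1/2 * (j1 α (n+1) / (n+1) - j1 α (n+2) / (n+2))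
noncomputable def j3 (α : ℝ) (n : ℕ) : ℝ := 1/2 * (j2 α (n+1) / (n+1) - j2 α (n+2) / (n+2))

lemma J_mono_eq {α : ℝ} (hα : 0 < α) (n : ℕ) : J α (mono n) = j1 α n := by
  unfold J j1
  have hn : (0:ℝ) ≤ n := Nat.cast_nonneg n
  have i1 : IntervalIntegrable (fun s : ℝ => s ^ (α + n - 1)) volume 0 1 :=
    intervalIntegral.intervalIntegrable_rpow' (by linarith)
  have i2 : IntervalIntegrable (fun s : ℝ => s ^ (α + n)) volume 0 1 :=
    intervalIntegral.intervalIntegrable_rpow' (by linarith)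
  have : ∫ s in (0:ℝ)..1, s ^ (α - 1) * ((1 - s) * ext (mono n) s) =
      ∫ s in (0:ℝ)..1, (s ^ (α + n - 1) - s ^ (α + n)) := by
    apply intervalIntegral.integral_congr_ae
    refine Eventually.of_forall fun s hs => ?_
    rw [uIoc_of_le zero_le_one] at hs
    rw [ext_mono _ ⟨hs.1.le, hs.2⟩]
    have e1 : s ^ (α + n - 1) = s ^ (α - 1) * s^n := by
      rw [← Real.rpow_natCast, ← Real.rpow_add hs.1]; congr 1; ring
    have e2 : s ^ (α + n) = s ^ (α - 1) * s^n * s := by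
      rw [← e1, ← Real.rpow_add_one hs.1.ne']; congr 1; ring
    rw [e2, e1]; ring
  rw [this, intervalIntegral.integral_sub i1 i2, integral_rpow (Or.inl (by linarith)),
    integral_rpow (Or.inl (by linarith)), Real.one_rpow, Real.one_rpow,
    Real.zero_rpow (by linarith), Real.zero_rpow (by linarith), sub_zero]
  have : α + n - 1 + 1 = α + n := by ring
  rw [this]

lemma a_mono_eq (n : ℕ) :
    a (mono n) = (1/2:ℝ) • ((1/((n:ℝ)+1)) • mono (n+1) - (1/((n:ℝ)+2)) • mono (n+2)) := by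
  apply X_ext
  intro s hs
  rw [ext_a' _ hs, ext_smul, ext_sub, ext_smul, ext_smul, ext_mono _ hs, ext_mono _ hs]
  congr 1
  have e : pr (fun r => (1 - r) * ext (mono n) r) s = pr (fun r => (1 - r) * r^n) s :=
    pr_congr hs fun x hx => by rw [ext_mono _ hx]
  rw [e]
  have hc : Continuous (fun r : ℝ => (1 - r) * r^n) := by fun_prop
  symm
  apply eq_of_deriv_eq (f := fun s => 1/((n:ℝ)+1) * s^(n+1) - 1/((n:ℝ)+2) * s^(n+2)) (g := pr _)
    (f' := fun r : ℝ => (1 - r) * r^n)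
  · simp [pr_zero]
  · intro x
    have h := ((hasDerivAt_pow (n+1) x).const_mul (1/((n:ℝ)+1))).sub
      ((hasDerivAt_pow (n+2) x).const_mul (1/((n:ℝ)+2)))
    refine h.congr_deriv ?_
    have h1 : ((n:ℝ)+1) ≠ 0 := by positivity
    have h2 : ((n:ℝ)+2) ≠ 0 := by positivity
    push_cast
    field_simp
    ring
  · intro x; exact hasDerivAt_pr hc x

/-- `J` as a linear map -/
noncomputable def JL (α : ℝ) (hα : 0 < α) : X →ₗ[ℝ] ℝ :=
  { toFun := J α
    map_add' := J_add hα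
    map_smul' := fun c w => J_smul α c w }

lemma JL_apply {α : ℝ} (hα : 0 < α) (w : X) : JL α hα w = J α w := rfl

lemma J_a_mono {α : ℝ} (hα : 0 < α) (n : ℕ) : J α (a (mono n)) = j2 α n := by
  rw [a_mono_eq, J_smul, J_sub hα, J_smul, J_smul, J_mono_eq hα, J_mono_eq hα, j2]
  ring

lemma J_aa_mono {α : ℝ} (hα : 0 < α) (n : ℕ) : J α (a (a (mono n))) = j3 α n := by
  rw [a_mono_eq, map_smul, map_sub, map_smul, map_smul, J_smul, J_sub hα, J_smul, J_smul,
    J_a_mono hα, J_a_mono hα, j3]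
  ring

/-- even polynomial with coefficients -/
noncomputable def PP (N : ℕ) (co : ℕ → ℝ) : X := ∑ j ∈ Finset.range N, co j • mono (2*j+2)

lemma ext_PP (N : ℕ) (co : ℕ → ℝ) {s : ℝ} (hs : s ∈ Icc (0:ℝ) 1) :
    ext (PP N co) s = ∑ j ∈ Finset.range N, co j * s^(2*j+2) := by
  have h : ev s (PP N co) = ∑ j ∈ Finset.range N, ev s (co j • mono (2*j+2)) := map_sum _ _ _
  rw [ev_apply] at h
  rw [h]
  apply Finset.sum_congr rfl
  intro j _
  rw [ev_apply, ext_smul, ext_mono _ hs]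

lemma Adm_PP (N : ℕ) (co : ℕ → ℝ) : ∃ v, Adm (PP N co) v := by
  induction N with
  | zero =>
    refine ⟨fun _ => 0, continuous_const, fun s _ => ?_⟩
    simp [PP, ext_zero, pr]
  | succ N ih =>
    obtain ⟨v, hv⟩ := ih
    have h := hv.add ((Adm_mono (2*N+1)).smul (co N))
    have e : PP (N+1) co = PP N co + co N • mono (2*N+1+1) := by
      unfold PP
      rw [Finset.sum_range_succ]
    rw [e]
    exact ⟨_, h⟩

lemma Lam_PP {α : ℝ} (hα : 0 < α) (N : ℕ) (co : ℕ → ℝ) :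
    Lam α (PP N co) = ∑ j ∈ Finset.range N, co j * (1 + (1 - α) * (1 / (α + (2*j+1)))) := by
  induction N with
  | zero => simp [PP, Lam, ext_zero]
  | succ N ih =>
    obtain ⟨v, hv⟩ := Adm_PP N co
    have : PP (N+1) co = PP N co + co N • mono (2*N+2) := by
      unfold PP; rw [Finset.sum_range_succ]
    rw [this, Lam_add hα hv ((Adm_mono (2*N+1)).smul (co N)), ih, Lam_smul, Finset.sum_range_succ,
      Lam_mono_eq hα]
    push_cast
    rfl

lemma J_PP {α : ℝ} (hα : 0 < α) (N : ℕ) (co : ℕ → ℝ) :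
    J α (PP N co) = ∑ j ∈ Finset.range N, co j * j1 α (2*j+2) := by
  rw [← JL_apply hα, PP, map_sum]
  apply Finset.sum_congr rfl
  intro j _
  rw [JL_apply, J_smul, J_mono_eq hα]

lemma J_a_PP {α : ℝ} (hα : 0 < α) (N : ℕ) (co : ℕ → ℝ) :
    J α (a (PP N co)) = ∑ j ∈ Finset.range N, co j * j2 α (2*j+2) := by
  rw [← JL_apply hα, PP, map_sum, map_sum]
  apply Finset.sum_congr rfl
  intro j _
  rw [JL_apply, map_smul, J_smul, J_a_mono hα]

lemma J_aa_PP {α : ℝ} (hα : 0 < α) (N : ℕ) (co : ℕ → ℝ) :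
    J α (a (a (PP N co))) = ∑ j ∈ Finset.range N, co j * j3 α (2*j+2) := by
  rw [← JL_apply hα, PP, map_sum, map_sum, map_sum]
  apply Finset.sum_congr rfl
  intro j _
  rw [JL_apply, map_smul, map_smul, J_smul, J_aa_mono hα]

lemma a_le {u w : X} (h : ∀ s ∈ Icc (0:ℝ) 1, ext u s ≤ ext w s) :
    ∀ s ∈ Icc (0:ℝ) 1, ext (a u) s ≤ ext (a w) s := by
  have h1 : NN (w - u) := fun s hs => by rw [ext_sub]; linarith [h s hs]
  intro s hs
  have h2 := NN_a h1 s hs
  rw [map_sub, ext_sub] at h2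
  linarith

/-- lower coefficients -/
noncomputable def cL (j : ℕ) : ℝ :=
  if Even j then (394784/10000)^(j+1) / (2*j+2).factorial
  else -((394785/10000)^(j+1) / (2*j+2).factorial)
/-- upper coefficients -/
noncomputable def cU (j : ℕ) : ℝ :=
  if Even j then (394785/10000)^(j+1) / (2*j+2).factorial
  else -((394784/10000)^(j+1) / (2*j+2).factorial)

lemma q_bounds : (394784/10000 : ℝ) ≤ (2 * Real.pi)^2 ∧ (2 * Real.pi)^2 ≤ 394785/10000 := by
  have h1 := Real.pi_gt_d20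
  have h2 := Real.pi_lt_d20
  constructor <;> nlinarith

lemma term_bounds (j : ℕ) {s : ℝ} (hs : 0 ≤ s) :
    cL j * s^(2*j+2) ≤ (-1:ℝ)^j * ((2 * Real.pi * s)^(2*j+2) / (2*j+2).factorial) ∧
    (-1:ℝ)^j * ((2 * Real.pi * s)^(2*j+2) / (2*j+2).factorial) ≤ cU j * s^(2*j+2) := by
  have e : (2 * Real.pi * s)^(2*j+2) = ((2 * Real.pi)^2)^(j+1) * s^(2*j+2) := by
    rw [mul_pow, ← pow_mul]; congr 2
  have b1 := pow_le_pow_left₀ (by norm_num : (0:ℝ) ≤ 394784/10000) q_bounds.1 (j+1)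
  have b2 := pow_le_pow_left₀ (by positivity : (0:ℝ) ≤ (2 * Real.pi)^2) q_bounds.2 (j+1)
  have hf : (0:ℝ) < (2*j+2).factorial := by positivity
  have hs' : 0 ≤ s^(2*j+2) := by positivity
  rw [e]
  unfold cL cU
  rcases Nat.even_or_odd j with h | h
  · rw [h.neg_one_pow, if_pos h, if_pos h, one_mul]
    constructor
    · calc _ = (394784/10000)^(j+1) * s^(2*j+2) / (2*j+2).factorial := by ring
        _ ≤ _ := by gcongr
    · calc _ ≤ (394785/10000)^(j+1) * s^(2*j+2) / (2*j+2).factorial := by gcongr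
        _ = _ := by ring
  · have hne : ¬ Even j := Nat.not_even_iff_odd.2 h
    rw [h.neg_one_pow, if_neg hne, if_neg hne]
    constructor
    · calc _ = -((394785/10000)^(j+1) * s^(2*j+2) / (2*j+2).factorial) := by ring
        _ ≤ -(((2 * Real.pi)^2)^(j+1) * s^(2*j+2) / (2*j+2).factorial) := by gcongr
        _ = _ := by ring
    · calc _ = -(((2 * Real.pi)^2)^(j+1) * s^(2*j+2) / (2*j+2).factorial) := by ring
        _ ≤ -((394784/10000)^(j+1) * s^(2*j+2) / (2*j+2).factorial) := by gcongr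
        _ = _ := by ring

lemma phi_two_bounds {s : ℝ} (hs : s ∈ Icc (0:ℝ) 1) :
    ext (PP 10 cL) s ≤ ext (phi 2) s ∧ ext (phi 2) s ≤ ext (PP 9 cU) s := by
  rw [ext_PP _ _ hs, ext_PP _ _ hs, ext_phi _ hs]
  have hx : (2 * Real.pi * s)^2 ≤ 40 := by
    have := q_bounds.2
    have h2 : s^2 ≤ 1 := by nlinarith [hs.1, hs.2]
    rw [mul_pow]
    nlinarith [sq_nonneg (2 * Real.pi)]
  have e0 : ((2:ℕ):ℝ) * Real.pi * s = 2 * Real.pi * s := by push_cast; ring
  rw [e0]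
  have t1 := cos_tail (x := 2 * Real.pi * s) (N := 11) (by norm_num; linarith)
  have t2 := cos_tail (x := 2 * Real.pi * s) (N := 10) (by norm_num; linarith)
  rw [Finset.sum_range_succ'] at t1 t2
  have e1 : ∀ j : ℕ, (-1:ℝ)^(j+1) * ((2 * Real.pi * s)^(2*(j+1)) / (2*(j+1)).factorial) =
      -((-1:ℝ)^j * ((2 * Real.pi * s)^(2*j+2) / (2*j+2).factorial)) := by
    intro j
    have : 2*(j+1) = 2*j+2 := by ring
    rw [this, pow_succ]; ring
  simp_rw [e1] at t1 t2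
  rw [Finset.sum_neg_distrib] at t1 t2
  have b1 : ∑ j ∈ Finset.range 10, cL j * s^(2*j+2) ≤
      ∑ j ∈ Finset.range 10, (-1:ℝ)^j * ((2 * Real.pi * s)^(2*j+2) / (2*j+2).factorial) :=
    Finset.sum_le_sum fun j _ => (term_bounds j hs.1).1
  have b2 : ∑ j ∈ Finset.range 9, (-1:ℝ)^j * ((2 * Real.pi * s)^(2*j+2) / (2*j+2).factorial) ≤
      ∑ j ∈ Finset.range 9, cU j * s^(2*j+2) :=
    Finset.sum_le_sum fun j _ => (term_bounds j hs.1).2
  norm_num at t1 t2
  constructor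
  · linarith
  · linarith

end B595
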