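import Pool.Agent.B595.Pos1

open Set Filter Topology MeasureTheory

namespace B595

/-- coefficients -/
noncomputable def nk (α : ℝ) (hα : 0 < α) (c : ℝ) (k : ℕ) : ℝ := 2 * P (tau α hα) (B c k)

lemma lamk_pos {c : ℝ} (hc2 : c < Real.pi^2) {k : ℕ} (hk : 1 ≤ k) :
    (k:ℝ)^2 * (Real.pi^2 - c) ≤ (k * Real.pi)^2 - c ∨ c < 0 := by
  by_cases h : c < 0
  · right; exact h
  · left
    push Not at h
    have hk1 : (1:ℝ) ≤ k := by exact_mod_cast hk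
    have : (1:ℝ) ≤ (k:ℝ)^2 := by nlinarith
    nlinarith

lemma lamk_ge {c : ℝ} (hc : 0 < c) (hc2 : c < Real.pi^2) {k : ℕ} (hk : 1 ≤ k) :
    (k:ℝ)^2 * (Real.pi^2 - c) ≤ (k * Real.pi)^2 - c := by
  rcases lamk_pos hc2 hk with h | h
  · exact h
  · exact absurd h (by linarith)

lemma lamk_gt {c : ℝ} (hc : 0 < c) (hc2 : c < Real.pi^2) {k : ℕ} (hk : 1 ≤ k) :
    0 < (k * Real.pi)^2 - c := by
  have h := lamk_ge hc hc2 hk
  have hk1 : (1:ℝ) ≤ k := by exact_mod_cast hk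
  have : 0 < (k:ℝ)^2 * (Real.pi^2 - c) := by
    apply mul_pos (by positivity) (by linarith)
  linarith

lemma nk_eq {α : ℝ} (hα : 0 < α) (hα1 : α < 1) {c : ℝ} (hc : 0 < c) (hc2 : c < Real.pi^2)
    (hE : P (tau α hα) (E c) = 0) {k : ℕ} (hk : 1 ≤ k) :
    nk α hα c k = 2 * α * Lam α (B c k) / ((k * Real.pi)^2 - c) := by
  have h := lamk_gt hc hc2 hk
  have h2 := Lam_B hα hα1 hc h.ne' hE
  unfold nk
  rw [eq_div_iff h.ne']
  linarith

lemma nk_nonneg {α : ℝ} (hα : 0 < α) (hα1 : α < 1) {c : ℝ} (hc : 0 < c) (hc2 : c < Real.pi^2)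
    (hE : P (tau α hα) (E c) = 0) {k : ℕ} (hk : 1 ≤ k) (hL : 0 ≤ LL α c (phi k)) :
    0 ≤ nk α hα c k := by
  rw [nk_eq hα hα1 hc hc2 hE hk]
  have h := lamk_gt hc hc2 hk
  have hc12 : c ≤ 12 := by nlinarith [Real.pi_lt_d2, Real.pi_pos]
  have h2 := LL_le_Lam_B hα hα1 hc.le hc12 k
  have h3 : 0 ≤ Lam α (B c k) := hL.trans h2
  positivity

lemma norm_phi (k : ℕ) : ‖phi k‖ ≤ 2 := by
  apply norm_le_of (by norm_num)
  intro s hs
  rw [ext_phi k hs, abs_le]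
  constructor <;> linarith [Real.cos_le_one (k * Real.pi * s), Real.neg_one_le_cos (k * Real.pi * s)]

lemma pr_pr_bound {f : ℝ → ℝ} (hf : Continuous f) {C : ℝ} (hC : ∀ s ∈ Icc (0:ℝ) 1, |f s| ≤ C)
    (hC0 : 0 ≤ C) {s : ℝ} (hs : s ∈ Icc (0:ℝ) 1) : |pr (pr f) s| ≤ C * s^2 := by
  have h1 : ∀ t ∈ Icc (0:ℝ) 1, |pr f t| ≤ C * t := by
    intro t ht
    have h : ‖∫ r in (0:ℝ)..t, f r‖ ≤ C * |t - 0| := by
      apply intervalIntegral.norm_integral_le_of_norm_le_const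
      intro r hr
      rw [uIoc_of_le ht.1] at hr
      exact hC r ⟨hr.1.le, hr.2.trans ht.2⟩
    rw [sub_zero, abs_of_nonneg ht.1] at h
    exact h
  have h : ‖∫ r in (0:ℝ)..s, pr f r‖ ≤ (C * s) * |s - 0| := by
    apply intervalIntegral.norm_integral_le_of_norm_le_const
    intro r hr
    rw [uIoc_of_le hs.1] at hr
    refine (h1 r ⟨hr.1.le, hr.2.trans hs.2⟩).trans ?_
    exact mul_le_mul_of_nonneg_left hr.2 hC0
  rw [sub_zero, abs_of_nonneg hs.1] at h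
  calc |pr (pr f) s| ≤ C * s * s := h
    _ = _ := by ring

lemma B_bound {c : ℝ} (hc : 0 < c) (hc2 : c < Real.pi^2) :
    ∃ C : ℝ, 0 < C ∧ ∀ k : ℕ, 1 ≤ k → ∀ s ∈ Icc (0:ℝ) 1,
      |ext (B c k) s| ≤ C ∧ |ext (B c k) s| ≤ C * (k * s)^2 := by
  set C0 := ‖NormedSpace.exp ((-c) • a)‖ with hC0
  refine ⟨(C0 * 2 + 1) + Real.pi^2 * (‖E c‖ + C0 * 2), by positivity, ?_⟩
  intro k hk s hs
  have hB : ‖B c k‖ ≤ C0 * 2 := by
    unfold B
    calc _ ≤ C0 * ‖phi k‖ := ContinuousLinearMap.le_opNorm _ _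
      _ ≤ _ := by gcongr; exact norm_phi k
  have hpos : 0 ≤ Real.pi^2 * (‖E c‖ + C0 * 2) := by positivity
  constructor
  · have := abs_ext_le (B c k) s
    linarith
  · have hF : ‖F c k‖ ≤ (k:ℝ)^2 * (Real.pi^2 * (‖E c‖ + C0 * 2)) := by
      unfold F
      have hl := lamk_gt hc hc2 hk
      calc _ ≤ ‖((k * Real.pi)^2) • E c‖ + ‖((k * Real.pi)^2 - c) • B c k‖ := norm_sub_le _ _
        _ = (k * Real.pi)^2 * ‖E c‖ + ((k * Real.pi)^2 - c) * ‖B c k‖ := by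
            rw [norm_smul, norm_smul, Real.norm_eq_abs, Real.norm_eq_abs,
              abs_of_nonneg (sq_nonneg _), abs_of_pos hl]
        _ ≤ (k * Real.pi)^2 * ‖E c‖ + ((k * Real.pi)^2) * (C0 * 2) := by
            gcongr
            linarith
        _ = _ := by ring
    rw [B_eq_G, ext_G' _ hs]
    have h := pr_pr_bound (ext_cont (F c k)) (C := (k:ℝ)^2 * (Real.pi^2 * (‖E c‖ + C0 * 2)))
      (fun s _ => (abs_ext_le _ _).trans hF) (by positivity) hs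
    refine h.trans ?_
    have h2 : 0 ≤ (C0 * 2 + 1) * (k * s)^2 := by positivity
    nlinarith

lemma min_bound {θ x : ℝ} (hθ0 : 0 ≤ θ) (hθ : θ ≤ 2) (hx : 0 ≤ x) {y C : ℝ} (hC : 0 < C)
    (h1 : y ≤ C) (h2 : y ≤ C * x^2) : y ≤ C * x ^ θ := by
  rcases le_total x 1 with h | h
  · refine h2.trans ?_
    rcases eq_or_lt_of_le hx with h0 | h0
    · rw [← h0]
      have : (0:ℝ) ≤ (0:ℝ) ^ θ := Real.rpow_nonneg le_rfl _
      simp only [ne_eq, OfNat.ofNat_ne_zero, not_false_eq_true, zero_pow, mul_zero]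
      positivity
    · apply mul_le_mul_of_nonneg_left _ hC.le
      rw [← Real.rpow_natCast]
      exact Real.rpow_le_rpow_of_exponent_ge h0 h (by exact_mod_cast hθ)
  · refine h1.trans ?_
    have : 1 ≤ x ^ θ := Real.one_le_rpow h hθ0
    nlinarith

lemma Lam_B_bound {α : ℝ} (hα : 0 < α) (hα1 : α < 1) {c : ℝ} (hc : 0 < c) (hc2 : c < Real.pi^2) :
    ∃ C : ℝ, 0 < C ∧ ∀ k : ℕ, 1 ≤ k → |Lam α (B c k)| ≤ C * (k:ℝ) ^ (1 - α/2) := by
  obtain ⟨C, hC, hB⟩ := B_bound hc hc2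
  refine ⟨C * (1 + 2/α), by positivity, fun k hk => ?_⟩
  have hk1 : (1:ℝ) ≤ k := by exact_mod_cast hk
  have hθ : 0 ≤ 1 - α/2 := by linarith
  have hkθ : 1 ≤ (k:ℝ) ^ (1 - α/2) := Real.one_le_rpow hk1 hθ
  have h1 := (hB k hk 1 ⟨zero_le_one, le_refl _⟩).1
  have h2 : ‖∫ s in (0:ℝ)..1, s ^ (α - 2) * ext (B c k) s‖ ≤
      ∫ s in (0:ℝ)..1, (C * (k:ℝ) ^ (1 - α/2)) * s ^ (α/2 - 1) := by
    apply intervalIntegral.norm_integral_le_of_norm_le zero_le_one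
    · refine Eventually.of_forall fun s hs => ?_
      have hs' : s ∈ Icc (0:ℝ) 1 := ⟨hs.1.le, hs.2⟩
      have hb := hB k hk s hs'
      have h3 := min_bound hθ (by linarith) (mul_nonneg (by positivity) hs'.1) hC hb.1 hb.2
      rw [norm_mul, Real.norm_eq_abs, Real.norm_eq_abs, abs_of_nonneg (Real.rpow_nonneg hs'.1 _)]
      rw [Real.mul_rpow (by positivity) hs'.1] at h3
      have e : s ^ (α/2 - 1) = s ^ (α - 2) * s ^ (1 - α/2) := by
        rw [← Real.rpow_add hs.1]; ring_nf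
      rw [e]
      have h4 := Real.rpow_nonneg hs'.1 (α - 2)
      calc s ^ (α - 2) * |ext (B c k) s| ≤ s ^ (α - 2) * (C * ((k:ℝ) ^ (1 - α/2) * s ^ (1 - α/2))) := by
            gcongr
        _ = _ := by ring
    · exact (intervalIntegral.intervalIntegrable_rpow' (by linarith)).const_mul _
  rw [intervalIntegral.integral_const_mul, integral_rpow (Or.inl (by linarith))] at h2
  have e3 : α/2 - 1 + 1 = α/2 := by ring
  rw [e3, Real.one_rpow, Real.zero_rpow (by positivity), sub_zero] at h2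
  unfold Lam
  rw [Real.norm_eq_abs] at h2
  calc |ext (B c k) 1 + (1 - α) * ∫ s in (0:ℝ)..1, s ^ (α - 2) * ext (B c k) s|
      ≤ |ext (B c k) 1| + |(1 - α) * ∫ s in (0:ℝ)..1, s ^ (α - 2) * ext (B c k) s| := abs_add_le _ _
    _ = |ext (B c k) 1| + (1 - α) * |∫ s in (0:ℝ)..1, s ^ (α - 2) * ext (B c k) s| := by
        rw [abs_mul, abs_of_nonneg (by linarith : (0:ℝ) ≤ 1 - α)]
    _ ≤ C * (k:ℝ) ^ (1 - α/2) + 1 * (C * (k:ℝ) ^ (1 - α/2) * (1 / (α/2))) := by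
        gcongr
        · nlinarith
        · linarith
    _ = _ := by field_simp

lemma nk_summable {α : ℝ} (hα : 0 < α) (hα1 : α < 1) {c : ℝ} (hc : 0 < c) (hc2 : c < Real.pi^2)
    (hE : P (tau α hα) (E c) = 0) : Summable (fun k : ℕ => |nk α hα c (k+1)|) := by
  obtain ⟨C, hC, hL⟩ := Lam_B_bound hα hα1 hc hc2
  have hs : Summable (fun k : ℕ => (k:ℝ) ^ (-1 - α/2)) := Real.summable_nat_rpow.2 (by linarith)
  have hs2 := ((summable_nat_add_iff 1).2 hs).mul_left (2 * α * C / (Real.pi^2 - c))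
  refine Summable.of_nonneg_of_le (fun _ => abs_nonneg _) (fun k => ?_) hs2
  have hk : 1 ≤ k + 1 := by omega
  have hk1 : (0:ℝ) < ((k+1 : ℕ) : ℝ) := by positivity
  have hpc : 0 < Real.pi^2 - c := by linarith
  rw [nk_eq hα hα1 hc hc2 hE hk, abs_div, abs_mul, abs_of_pos (by positivity : 0 < 2 * α),
    abs_of_pos (lamk_gt hc hc2 hk)]
  have h1 := hL (k+1) hk
  have h2 := lamk_ge hc hc2 hk
  have e : ((k+1 : ℕ) : ℝ) ^ (-1 - α/2) = ((k+1 : ℕ) : ℝ) ^ (1 - α/2) / ((k+1 : ℕ) : ℝ)^2 := by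
    rw [← Real.rpow_natCast, ← Real.rpow_sub hk1]
    congr 1
    push_cast
    ring
  calc 2 * α * |Lam α (B c (k + 1))| / ((((k + 1 : ℕ) : ℝ) * Real.pi) ^ 2 - c)
      ≤ 2 * α * (C * ((k+1 : ℕ) : ℝ) ^ (1 - α/2)) / (((k+1 : ℕ):ℝ)^2 * (Real.pi^2 - c)) := by
        gcongr
    _ = 2 * α * C / (Real.pi^2 - c) * ((k+1 : ℕ) : ℝ) ^ (-1 - α/2) := by
        rw [e]; field_simp

end B595
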